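import Mathlib

open Finset MvPolynomial

namespace Pool.Agent.Q172.Cyc

/-- polynomials in two variables -/
abbrev MP := MvPolynomial (Fin 2) ℂ

/-- `|J| + 2` -/
noncomputable def wt (J : Fin 2 →₀ ℕ) : ℝ := (J 0 : ℝ) + (J 1 : ℝ) + 2

theorem wt_pos (J : Fin 2 →₀ ℕ) : 2 ≤ wt J := by
  unfold wt
  have h0 : (0:ℝ) ≤ (J 0 : ℝ) := Nat.cast_nonneg _
  have h1 : (0:ℝ) ≤ (J 1 : ℝ) := Nat.cast_nonneg _
  linarith

/-- squared norm for the exponent `2` -/
noncomputable def NS (P : MP) : ℝ := ∑ J ∈ P.support, ‖P.coeff J‖ ^ 2 * wt J ^ 2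

theorem NS_eq_sum (P : MP) (s : Finset (Fin 2 →₀ ℕ)) (hs : P.support ⊆ s) :
    NS P = ∑ J ∈ s, ‖P.coeff J‖ ^ 2 * wt J ^ 2 := by
  unfold NS
  refine Finset.sum_subset hs fun J _ hJ => ?_
  rw [MvPolynomial.notMem_support_iff.1 hJ]
  simp

theorem NS_nonneg (P : MP) : 0 ≤ NS P := by
  unfold NS
  exact Finset.sum_nonneg fun J _ => by positivity

theorem NS_add_le (P Q : MP) : NS (P + Q) ≤ 2 * NS P + 2 * NS Q := by
  classical
  rw [NS_eq_sum (P + Q) (P.support ∪ Q.support) MvPolynomial.support_add,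
    NS_eq_sum P (P.support ∪ Q.support) subset_union_left,
    NS_eq_sum Q (P.support ∪ Q.support) subset_union_right, Finset.mul_sum, Finset.mul_sum,
    ← Finset.sum_add_distrib]
  refine Finset.sum_le_sum fun J _ => ?_
  rw [coeff_add]
  have h : ‖P.coeff J + Q.coeff J‖ ^ 2 ≤ 2 * ‖P.coeff J‖ ^ 2 + 2 * ‖Q.coeff J‖ ^ 2 := by
    have h1 := norm_add_le (P.coeff J) (Q.coeff J)
    nlinarith [sq_nonneg (‖P.coeff J‖ - ‖Q.coeff J‖), norm_nonneg (P.coeff J + Q.coeff J),
      norm_nonneg (P.coeff J), norm_nonneg (Q.coeff J)]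
  have h2 : 0 ≤ wt J ^ 2 := sq_nonneg _
  nlinarith

theorem NS_C_mul (c : ℂ) (P : MP) : NS (C c * P) = ‖c‖ ^ 2 * NS P := by
  rw [NS_eq_sum (C c * P) P.support (by
      intro J hJ
      rw [MvPolynomial.mem_support_iff] at hJ ⊢
      intro h
      apply hJ
      rw [coeff_C_mul, h, mul_zero])]
  unfold NS
  rw [Finset.mul_sum]
  refine Finset.sum_congr rfl fun J _ => ?_
  rw [coeff_C_mul, norm_mul]
  ring

theorem NS_neg (P : MP) : NS (-P) = NS P := by
  have : -P = C (-1) * P := by simp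
  rw [this, NS_C_mul]
  simp

theorem NS_zero : NS 0 = 0 := by simp [NS]

theorem NS_X_mul (i : Fin 2) (P : MP) : NS (X i * P) ≤ 4 * NS P := by
  classical
  unfold NS
  rw [MvPolynomial.support_X_mul, Finset.sum_map, Finset.mul_sum]
  refine Finset.sum_le_sum fun J _ => ?_
  simp only [addLeftEmbedding_apply]
  rw [MvPolynomial.coeff_X_mul]
  have h : wt (Finsupp.single i 1 + J) = wt J + 1 := by
    unfold wt
    fin_cases i <;> simp <;> ring
  rw [h]
  have h2 := wt_pos J
  have h3 : 0 ≤ ‖P.coeff J‖ ^ 2 := sq_nonneg _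
  nlinarith [mul_nonneg h3 (by nlinarith : (0:ℝ) ≤ 4 * wt J ^ 2 - (wt J + 1) ^ 2)]

/-- the function -/
noncomputable def f : MP := 1 - C (1/2) * (X 0 + X 1)

/-- membership in the closure of the multiples of `f` -/
def InCl (g : MP) : Prop := ∀ ε > 0, ∃ p : MP, NS (g - p * f) < ε

theorem InCl_add {g h : MP} (hg : InCl g) (hh : InCl h) : InCl (g + h) := by
  intro ε hε
  obtain ⟨p, hp⟩ := hg (ε/4) (by positivity)
  obtain ⟨q, hq⟩ := hh (ε/4) (by positivity)
  refine ⟨p + q, ?_⟩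
  have : g + h - (p + q) * f = (g - p * f) + (h - q * f) := by ring
  rw [this]
  have := NS_add_le (g - p * f) (h - q * f)
  linarith

theorem InCl_zero : InCl 0 := fun ε hε => ⟨0, by simpa [NS_zero] using hε⟩

theorem InCl_C_mul {g : MP} (c : ℂ) (hg : InCl g) : InCl (C c * g) := by
  intro ε hε
  obtain ⟨p, hp⟩ := hg (ε / (‖c‖ ^ 2 + 1)) (by positivity)
  refine ⟨C c * p, ?_⟩
  have : C c * g - C c * p * f = C c * (g - p * f) := by ring
  rw [this, NS_C_mul]
  rw [lt_div_iff₀ (by positivity)] at hp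
  have := NS_nonneg (g - p * f)
  nlinarith

theorem InCl_X_mul {g : MP} (i : Fin 2) (hg : InCl g) : InCl (X i * g) := by
  intro ε hε
  obtain ⟨p, hp⟩ := hg (ε / 4) (by positivity)
  refine ⟨X i * p, ?_⟩
  have : X i * g - X i * p * f = X i * (g - p * f) := by ring
  rw [this]
  have := NS_X_mul i (g - p * f)
  linarith

theorem InCl_mul {g : MP} (q : MP) (hg : InCl g) : InCl (q * g) := by
  induction q using MvPolynomial.induction_on with
  | C a => exact InCl_C_mul a hg
  | add p q hp hq => rw [add_mul]; exact InCl_add hp hq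
  | mul_X p i hp =>
    have : p * X i * g = X i * (p * g) := by ring
    rw [this]
    exact InCl_X_mul i hp

theorem InCl_sum {ι : Type*} (s : Finset ι) (g : ι → MP) (hg : ∀ i ∈ s, InCl (g i)) :
    InCl (∑ i ∈ s, g i) := by
  classical
  induction s using Finset.induction_on with
  | empty => simpa using InCl_zero
  | insert a s ha ih =>
    rw [Finset.sum_insert ha]
    exact InCl_add (hg a (by simp)) (ih fun i hi => hg i (by simp [hi]))

/-- upper bound for the norm of a sum of distinct monomials -/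
theorem NS_sum_monomial {ι : Type*} (T : Finset ι) (J : ι → (Fin 2 →₀ ℕ)) (c : ι → ℂ)
    (hJ : Set.InjOn J T) :
    NS (∑ i ∈ T, monomial (J i) (c i)) = ∑ i ∈ T, ‖c i‖ ^ 2 * wt (J i) ^ 2 := by
  classical
  have hsub : (∑ i ∈ T, monomial (J i) (c i)).support ⊆ T.image J := by
    intro K hK
    rw [MvPolynomial.mem_support_iff, coeff_sum] at hK
    obtain ⟨i, hi, hne⟩ := Finset.exists_ne_zero_of_sum_ne_zero hK
    rw [coeff_monomial] at hne
    rw [Finset.mem_image]
    refine ⟨i, hi, ?_⟩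
    by_contra h
    rw [if_neg h] at hne
    exact hne rfl
  rw [NS_eq_sum _ _ hsub, Finset.sum_image hJ]
  refine Finset.sum_congr rfl fun i hi => ?_
  congr 2
  rw [coeff_sum, Finset.sum_eq_single i]
  · rw [coeff_monomial, if_pos rfl]
  · intro j hj hji
    rw [coeff_monomial, if_neg]
    intro h
    exact hji (hJ hj hi h)
  · intro h; exact absurd hi h

/-- the exponent `(j, k)` -/
noncomputable def ex (j k : ℕ) : Fin 2 →₀ ℕ := Finsupp.single 0 j + Finsupp.single 1 k

theorem ex_zero (j k : ℕ) : ex j k 0 = j := by simp [ex]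
theorem ex_one (j k : ℕ) : ex j k 1 = k := by simp [ex]
theorem wt_ex (j k : ℕ) : wt (ex j k) = (j : ℝ) + k + 2 := by simp [wt, ex_zero, ex_one]

theorem monomial_ex (j k : ℕ) (c : ℂ) : monomial (ex j k) c = C c * (X 0 ^ j * X 1 ^ k) := by
  unfold ex
  rw [monomial_eq]
  congr 1
  rw [Finsupp.prod_add_index']
  · rw [Finsupp.prod_single_index, Finsupp.prod_single_index] <;> simp
  · simp
  · intro i a b; rw [pow_add]

end Pool.Agent.Q172.Cyc
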