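import Mathlib
import Pool.Agent.Q172.CycA

open Finset MvPolynomial

namespace Pool.Agent.Q172.Cyc

/-- `(z₁+z₂)/2` -/
noncomputable def w : MP := C (1/2) * (X 0 + X 1)

theorem f_eq : f = 1 - w := rfl

theorem mulf (N : ℕ) : ∃ B : MP, 1 - C (1/((N:ℂ)+1)) * ∑ k ∈ range (N+1), w ^ k = B * f := by
  refine ⟨C (1/((N:ℂ)+1)) * ∑ k ∈ range (N+1), ∑ i ∈ range k, w ^ i, ?_⟩
  rw [f_eq, mul_assoc, Finset.sum_mul]
  have h1 : ∀ k ∈ range (N+1), (∑ i ∈ range k, w ^ i) * (1 - w) = 1 - w ^ k := fun k _ =>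
    geom_sum_mul_neg w k
  rw [Finset.sum_congr rfl h1, Finset.sum_sub_distrib, mul_sub]
  simp only [sum_const, card_range, nsmul_eq_mul, mul_one]
  congr 1
  have h2 : ((N + 1 : ℕ) : MP) = C ((N:ℂ)+1) := by
    simp
  rw [h2, ← C_mul, one_div, inv_mul_cancel₀ (Nat.cast_add_one_ne_zero N), C_1]

theorem telescoping0 (N : ℕ) : (1 - X 0) * ∑ k ∈ range (N+1), w ^ k =
    1 + C (1/2) * (∑ k ∈ range N, w ^ k * (X 1 - X 0)) - X 0 * w ^ N := by
  have h2 : C (1/2) * 2 = (1 : MP) := by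
    have : (2 : MP) = C 2 := (map_ofNat (C : ℂ →+* MP) 2).symm
    rw [this, ← C_mul]; norm_num
  induction N with
  | zero => simp
  | succ N ih =>
    rw [Finset.sum_range_succ, mul_add, ih, Finset.sum_range_succ]
    have : w ^ (N+1) = w ^ N * (C (1/2) * (X 0 + X 1)) := by rw [pow_succ]; rfl
    rw [this]
    linear_combination (w ^ N * X 0) * h2

theorem telescoping1 (N : ℕ) : (1 - X 1) * ∑ k ∈ range (N+1), w ^ k =
    1 + - (C (1/2) * (∑ k ∈ range N, w ^ k * (X 1 - X 0))) - X 1 * w ^ N := by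
  have h2 : C (1/2) * 2 = (1 : MP) := by
    have : (2 : MP) = C 2 := (map_ofNat (C : ℂ →+* MP) 2).symm
    rw [this, ← C_mul]; norm_num
  induction N with
  | zero => simp
  | succ N ih =>
    rw [Finset.sum_range_succ, mul_add, ih, Finset.sum_range_succ]
    have : w ^ (N+1) = w ^ N * (C (1/2) * (X 0 + X 1)) := by rw [pow_succ]; rfl
    rw [this]
    linear_combination (w ^ N * X 1) * h2

/-- shifted binomial coefficient -/
noncomputable def b (m j : ℕ) : ℝ := if j = 0 then 0 else (m.choose (j-1) : ℝ)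

/-- the coefficients of `(X 0 + X 1)^m (X 1 - X 0)` -/
noncomputable def d (m j : ℕ) : ℝ := (m.choose j : ℝ) - b m j

theorem pow_eq (m : ℕ) : (X 0 + X 1 : MP) ^ m =
    ∑ j ∈ range (m+1), C (m.choose j : ℂ) * (X 0 ^ j * X 1 ^ (m - j)) := by
  rw [add_pow]
  refine Finset.sum_congr rfl fun j _ => ?_
  simp
  ring

theorem poly_id (m : ℕ) : (X 0 + X 1 : MP) ^ m * (X 1 - X 0) =
    ∑ j ∈ range (m+2), monomial (ex j (m+1-j)) ((d m j : ℝ) : ℂ) := by
  have h1 : (X 0 + X 1 : MP) ^ m * X 1 =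
      ∑ j ∈ range (m+2), C (m.choose j : ℂ) * (X 0 ^ j * X 1 ^ (m + 1 - j)) := by
    rw [Finset.sum_range_succ, Nat.choose_succ_self, Nat.cast_zero, C_0, zero_mul, add_zero,
      pow_eq, Finset.sum_mul]
    refine Finset.sum_congr rfl fun j hj => ?_
    have : m + 1 - j = m - j + 1 := by have := Finset.mem_range.1 hj; omega
    rw [this, pow_succ]; ring
  have h2 : (X 0 + X 1 : MP) ^ m * X 0 =
      ∑ j ∈ range (m+2), C ((b m j : ℝ) : ℂ) * (X 0 ^ j * X 1 ^ (m + 1 - j)) := by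
    rw [Finset.sum_range_succ' _ (m+1)]
    have : b m 0 = 0 := by simp [b]
    rw [this, Complex.ofReal_zero, C_0, zero_mul, add_zero, pow_eq, Finset.sum_mul]
    refine Finset.sum_congr rfl fun j hj => ?_
    have h3 : m + 1 - (j + 1) = m - j := by omega
    have h4 : ((b m (j+1) : ℝ) : ℂ) = (m.choose j : ℂ) := by simp [b]
    rw [h3, h4, pow_succ]; ring
  rw [mul_sub, h1, h2, ← Finset.sum_sub_distrib]
  refine Finset.sum_congr rfl fun j hj => ?_
  rw [monomial_ex, ← sub_mul, ← C_sub]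
  congr 2
  simp [d]

theorem sum_d_sq (m : ℕ) : ∑ j ∈ range (m+2), d m j ^ 2 =
    4 * (m.centralBinom : ℝ) - ((m+1).centralBinom : ℝ) := by
  have h1 : ∀ j ∈ range (m+2), d m j ^ 2 = 2 * (m.choose j : ℝ) ^ 2 + 2 * (b m j) ^ 2 -
      ((m+1).choose j : ℝ) ^ 2 := by
    intro j _
    have : ((m+1).choose j : ℝ) = (m.choose j : ℝ) + b m j := by
      rcases j with _ | j
      · simp [b]
      · simp [b, Nat.choose_succ_succ]; ring
    rw [this]; unfold d; ring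
  have h2 : ∑ j ∈ range (m+2), (m.choose j : ℝ) ^ 2 = (m.centralBinom : ℝ) := by
    rw [Finset.sum_range_succ, Nat.choose_succ_self]
    have := Nat.sum_range_choose_sq m
    rw [Nat.centralBinom, ← this]
    push_cast
    simp
  have h3 : ∑ j ∈ range (m+2), (b m j) ^ 2 = (m.centralBinom : ℝ) := by
    rw [Finset.sum_range_succ' _ (m+1)]
    have := Nat.sum_range_choose_sq m
    rw [Nat.centralBinom, ← this]
    simp [b]
  have h4 : ∑ j ∈ range (m+2), ((m+1).choose j : ℝ) ^ 2 = ((m+1).centralBinom : ℝ) := by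
    have := Nat.sum_range_choose_sq (m+1)
    rw [Nat.centralBinom, ← this]
    push_cast
    rfl
  rw [Finset.sum_congr rfl h1, Finset.sum_sub_distrib, Finset.sum_add_distrib, ← Finset.mul_sum,
    ← Finset.mul_sum, h2, h3, h4]
  ring

theorem central_rec (m : ℕ) : ((m:ℝ) + 1) * (4 * (m.centralBinom : ℝ) - ((m+1).centralBinom : ℝ)) =
    2 * (m.centralBinom : ℝ) := by
  have := Nat.succ_mul_centralBinom_succ m
  have h : ((m:ℝ) + 1) * ((m+1).centralBinom : ℝ) = 2 * (2 * m + 1) * (m.centralBinom : ℝ) := by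
    exact_mod_cast this
  linear_combination -h

/-- normalized central binomial coefficient -/
noncomputable def u (m : ℕ) : ℝ := (m.centralBinom : ℝ) / 4 ^ m

theorem u_nonneg (m : ℕ) : 0 ≤ u m := by unfold u; positivity

theorem u_sq (m : ℕ) : u m ^ 2 * (2 * m + 1) ≤ 1 := by
  induction m with
  | zero => simp [u]
  | succ m ih =>
    have h := Nat.succ_mul_centralBinom_succ m
    have h' : ((m:ℝ) + 1) * ((m+1).centralBinom : ℝ) = 2 * (2 * m + 1) * (m.centralBinom : ℝ) := by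
      exact_mod_cast h
    have h2 : u (m+1) = u m * ((2 * m + 1) / (2 * (m + 1))) := by
      unfold u
      have h3 : ((m+1).centralBinom : ℝ) = 2 * (2 * m + 1) * (m.centralBinom : ℝ) / (m + 1) := by
        field_simp; linarith
      rw [h3, pow_succ]
      field_simp
      ring
    rw [h2]
    push_cast
    have hm : (0:ℝ) ≤ m := Nat.cast_nonneg m
    have h4 : (u m * ((2 * m + 1) / (2 * (m + 1)))) ^ 2 * (2 * ((m:ℝ) + 1) + 1) =
        (u m ^ 2 * (2 * m + 1)) * (((2 * m + 1) * (2 * m + 3)) / (2 * (m + 1)) ^ 2) := by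
      field_simp
      ring
    rw [h4]
    have h5 : ((2 * (m:ℝ) + 1) * (2 * m + 3)) / (2 * (m + 1)) ^ 2 ≤ 1 := by
      rw [div_le_one (by positivity)]; nlinarith
    have h6 : 0 ≤ ((2 * (m:ℝ) + 1) * (2 * m + 3)) / (2 * (m + 1)) ^ 2 := by positivity
    have h7 : 0 ≤ u m ^ 2 * (2 * m + 1) := by positivity
    nlinarith

theorem u_le (m : ℕ) : u m * Real.sqrt (m + 1) ≤ 1 := by
  have h1 := u_sq m
  have h2 := u_nonneg m
  have hm : (0:ℝ) ≤ m := Nat.cast_nonneg m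
  have h3 : (u m * Real.sqrt (m + 1)) ^ 2 ≤ 1 := by
    rw [mul_pow, Real.sq_sqrt (by linarith)]
    nlinarith [sq_nonneg (u m)]
  have h4 : 0 ≤ u m * Real.sqrt (m + 1) := by positivity
  nlinarith

/-- the middle part -/
theorem NS_mid (N : ℕ) : NS (C (1/2) * (∑ k ∈ range N, w ^ k * (X 1 - X 0))) ≤
    (9/2) * (N + 1) * Real.sqrt (N + 1) := by
  have h1 : C (1/2) * (∑ k ∈ range N, w ^ k * (X 1 - X 0)) =
      ∑ x ∈ (range N).sigma (fun m => range (m+2)),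
        monomial (ex x.2 (x.1 + 1 - x.2)) (((1/2 : ℝ) ^ (x.1+1) * d x.1 x.2 : ℝ) : ℂ) := by
    rw [Finset.sum_sigma, Finset.mul_sum]
    refine Finset.sum_congr rfl fun m _ => ?_
    have h2 : w ^ m = C ((1/2) ^ m) * (X 0 + X 1) ^ m := by
      unfold w; rw [mul_pow, C_pow]
    rw [h2]
    have h3 : C (1/2) * (C ((1/2) ^ m) * (X 0 + X 1 : MP) ^ m * (X 1 - X 0)) =
        C ((1/2) ^ (m+1)) * ((X 0 + X 1 : MP) ^ m * (X 1 - X 0)) := by
      rw [pow_succ, C_mul]; ring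
    rw [h3, poly_id, Finset.mul_sum]
    refine Finset.sum_congr rfl fun j _ => ?_
    rw [C_mul_monomial]
    congr 1
    push_cast
    rfl
  have hinj : Set.InjOn (fun x : (Σ _ : ℕ, ℕ) => ex x.2 (x.1 + 1 - x.2))
      ((range N).sigma (fun m => range (m+2)) : Finset (Σ _ : ℕ, ℕ)) := by
    rintro ⟨m, j⟩ hx ⟨m', j'⟩ hy hxy
    simp only [Finset.coe_sigma, Set.mem_sigma_iff, Finset.mem_coe, Finset.mem_range] at hx hy
    simp only at hxy
    have e0 := DFunLike.congr_fun hxy 0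
    have e1 := DFunLike.congr_fun hxy 1
    rw [ex_zero, ex_zero] at e0
    rw [ex_one, ex_one] at e1
    subst e0
    have : m = m' := by omega
    subst this
    rfl
  rw [h1, NS_sum_monomial _ _ _ hinj, Finset.sum_sigma]
  have h4 : ∀ m ∈ range N, ∑ j ∈ range (m+2),
      ‖(((1/2 : ℝ) ^ (m+1) * d m j : ℝ) : ℂ)‖ ^ 2 * wt (ex j (m + 1 - j)) ^ 2 ≤
      (9/2) * Real.sqrt (N + 1) := by
    intro m hm
    have hmN : (m:ℝ) + 1 ≤ N + 1 := by
      have := Finset.mem_range.1 hm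
      have : (m:ℝ) < N := by exact_mod_cast this
      linarith
    have h5 : ∀ j ∈ range (m+2), ‖(((1/2 : ℝ) ^ (m+1) * d m j : ℝ) : ℂ)‖ ^ 2 * wt (ex j (m + 1 - j)) ^ 2 =
        ((1/4 : ℝ) ^ (m+1) * ((m:ℝ) + 3) ^ 2) * d m j ^ 2 := by
      intro j hj
      have hj' := Finset.mem_range.1 hj
      rw [wt_ex, Complex.norm_real, Real.norm_eq_abs, sq_abs, mul_pow, ← pow_mul]
      have h6 : ((m + 1 - j : ℕ) : ℝ) = m + 1 - j := by
        rw [Nat.cast_sub (by omega)]; push_cast; ring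
      rw [h6]
      have h7 : (1/2 : ℝ) ^ ((m+1) * 2) = (1/4) ^ (m+1) := by
        rw [mul_comm, pow_mul]; norm_num
      rw [h7]; ring
    rw [Finset.sum_congr rfl h5, ← Finset.mul_sum, sum_d_sq]
    have h8 := central_rec m
    have h9 : (4 * (m.centralBinom : ℝ) - ((m+1).centralBinom : ℝ)) = 2 * (m.centralBinom : ℝ) / (m + 1) := by
      rw [eq_div_iff (by positivity)]; linarith
    rw [h9]
    have h10 : (1/4 : ℝ) ^ (m+1) * ((m:ℝ) + 3) ^ 2 * (2 * (m.centralBinom : ℝ) / (m + 1)) =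
        ((m:ℝ) + 3) ^ 2 / (2 * (m + 1)) * u m := by
      unfold u
      rw [one_div, inv_pow, pow_succ]
      field_simp
      ring
    rw [h10]
    have hm0 : (0:ℝ) ≤ m := Nat.cast_nonneg m
    have h11 : ((m:ℝ) + 3) ^ 2 / (2 * (m + 1)) ≤ 9/2 * (m + 1) := by
      rw [div_le_iff₀ (by positivity)]; nlinarith
    have h12 : (m + 1) * u m ≤ Real.sqrt (N + 1) := by
      have h13 := u_le m
      have h14 : Real.sqrt (m + 1) * Real.sqrt (m + 1) = (m:ℝ) + 1 := Real.mul_self_sqrt (by linarith)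
      have h15 : Real.sqrt (m + 1) ≤ Real.sqrt (N + 1) := Real.sqrt_le_sqrt hmN
      calc ((m:ℝ) + 1) * u m = (Real.sqrt (m + 1) * Real.sqrt (m + 1)) * u m := by rw [h14]
        _ = Real.sqrt (m + 1) * (u m * Real.sqrt (m + 1)) := by ring
        _ ≤ Real.sqrt (m + 1) * 1 := by gcongr
        _ ≤ Real.sqrt (N + 1) := by linarith
    calc ((m:ℝ) + 3) ^ 2 / (2 * (m + 1)) * u m ≤ (9/2 * (m + 1)) * u m := by
          gcongr; exact u_nonneg m
      _ = 9/2 * ((m + 1) * u m) := by ring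
      _ ≤ 9/2 * Real.sqrt (N + 1) := by gcongr
  refine (Finset.sum_le_sum h4).trans ?_
  rw [Finset.sum_const, card_range, nsmul_eq_mul]
  have : 0 ≤ Real.sqrt ((N:ℝ) + 1) := Real.sqrt_nonneg _
  nlinarith

theorem NS_wpow (N : ℕ) : NS (w ^ N) ≤ 4 * (N + 1) ^ 2 / Real.sqrt (N + 1) := by
  have h1 : w ^ N = ∑ j ∈ range (N+1), monomial (ex j (N - j))
      (((1/2 : ℝ) ^ N * (N.choose j : ℝ) : ℝ) : ℂ) := by
    unfold w
    rw [mul_pow, pow_eq, ← C_pow, Finset.mul_sum]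
    refine Finset.sum_congr rfl fun j _ => ?_
    rw [monomial_ex, ← mul_assoc, ← C_mul]
    congr 2
    push_cast
    rfl
  have hinj : Set.InjOn (fun j : ℕ => ex j (N - j)) (range (N+1)) := by
    intro j _ j' _ h
    have := DFunLike.congr_fun h 0
    rwa [ex_zero, ex_zero] at this
  rw [h1, NS_sum_monomial _ _ _ hinj]
  have h5 : ∀ j ∈ range (N+1), ‖(((1/2 : ℝ) ^ N * (N.choose j : ℝ) : ℝ) : ℂ)‖ ^ 2 * wt (ex j (N - j)) ^ 2 =
      ((1/4 : ℝ) ^ N * ((N:ℝ) + 2) ^ 2) * (N.choose j : ℝ) ^ 2 := by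
    intro j hj
    have hj' := Finset.mem_range.1 hj
    rw [wt_ex, Complex.norm_real, Real.norm_eq_abs, sq_abs, mul_pow, ← pow_mul]
    have h6 : ((N - j : ℕ) : ℝ) = N - j := by
      rw [Nat.cast_sub (by omega)]
    rw [h6]
    have h7 : (1/2 : ℝ) ^ (N * 2) = (1/4) ^ N := by
      rw [mul_comm, pow_mul]; norm_num
    rw [h7]; ring
  rw [Finset.sum_congr rfl h5, ← Finset.mul_sum]
  have h2 : ∑ j ∈ range (N+1), (N.choose j : ℝ) ^ 2 = (N.centralBinom : ℝ) := by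
    have := Nat.sum_range_choose_sq N
    rw [Nat.centralBinom, ← this]
    push_cast
    rfl
  rw [h2]
  have h3 : (1/4 : ℝ) ^ N * ((N:ℝ) + 2) ^ 2 * (N.centralBinom : ℝ) = ((N:ℝ) + 2) ^ 2 * u N := by
    unfold u; rw [one_div, inv_pow]; field_simp
  rw [h3, le_div_iff₀ (by positivity)]
  have h4 := u_le N
  have hN : (0:ℝ) ≤ N := Nat.cast_nonneg N
  calc ((N:ℝ) + 2) ^ 2 * u N * Real.sqrt (N + 1) = ((N:ℝ) + 2) ^ 2 * (u N * Real.sqrt (N + 1)) := by ring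
    _ ≤ ((N:ℝ) + 2) ^ 2 * 1 := by gcongr
    _ ≤ 4 * (N + 1) ^ 2 := by nlinarith

theorem NS_one : NS 1 = 4 := by
  have h1 : (1 : MP) = ∑ j ∈ range 1, monomial (ex 0 0) (1:ℂ) := by
    simp [monomial_ex]
  rw [h1, NS_sum_monomial _ (fun _ => ex 0 0) _ (by
    intro a ha b hb _
    simp at ha hb
    rw [ha, hb])]
  simp [wt_ex]
  norm_num

theorem err_bound (N : ℕ) (T3 Mid : MP) (i : Fin 2) (hM : NS Mid ≤ (9/2) * (N + 1) * Real.sqrt (N + 1))
    (hT : T3 = X i * w ^ N) :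
    NS (C (1/((N:ℂ)+1)) * (1 + Mid - T3)) ≤ 66 / Real.sqrt (N + 1) := by
  have hN : (0:ℝ) ≤ N := Nat.cast_nonneg N
  have hs : 0 < Real.sqrt ((N:ℝ) + 1) := Real.sqrt_pos.2 (by linarith)
  have hs1 : 1 ≤ Real.sqrt ((N:ℝ) + 1) := by
    rw [Real.one_le_sqrt]; linarith
  have hss : Real.sqrt ((N:ℝ) + 1) * Real.sqrt ((N:ℝ) + 1) = N + 1 := Real.mul_self_sqrt (by linarith)
  set s := Real.sqrt ((N:ℝ) + 1) with hsdef
  have h1 : NS T3 ≤ 16 * (N + 1) ^ 2 / s := by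
    rw [hT]
    refine (NS_X_mul i _).trans ?_
    have := NS_wpow N
    calc 4 * NS (w ^ N) ≤ 4 * (4 * (N + 1) ^ 2 / s) := by gcongr
      _ = _ := by ring
  have h2 : NS (1 + Mid - T3) ≤ 2 * (2 * 4 + 2 * NS Mid) + 2 * NS T3 := by
    have e : 1 + Mid - T3 = (1 + Mid) + (-T3) := by ring
    rw [e]
    have a1 := NS_add_le (1 + Mid) (-T3)
    have a2 := NS_add_le 1 Mid
    rw [NS_neg] at a1
    rw [NS_one] at a2
    linarith
  have h3 : ‖(1/((N:ℂ)+1))‖ ^ 2 = 1 / ((N:ℝ) + 1) ^ 2 := by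
    have : (1/((N:ℂ)+1)) = (((1/((N:ℝ)+1)) : ℝ) : ℂ) := by push_cast; rfl
    rw [this, Complex.norm_real, Real.norm_eq_abs, sq_abs, div_pow, one_pow]
  rw [NS_C_mul, h3, one_div_mul_eq_div, div_le_div_iff₀ (by positivity) hs]
  have h4 : NS T3 * s ≤ 16 * (N + 1) ^ 2 := by
    rw [le_div_iff₀ hs] at h1; exact h1
  have h5 : NS Mid * s ≤ 9/2 * (N + 1) ^ 2 := by
    calc NS Mid * s ≤ ((9/2) * (N + 1) * s) * s := by gcongr
      _ = 9/2 * (N + 1) * (s * s) := by ring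
      _ = 9/2 * (N + 1) ^ 2 := by rw [hss]; ring
  have h6 : s ≤ (N + 1) ^ 2 := by nlinarith
  nlinarith

theorem InCl_of_err (i : Fin 2) (h : ∀ N : ℕ, NS ((1 - X i) * (C (1/((N:ℂ)+1)) * ∑ k ∈ range (N+1), w ^ k)) ≤
    66 / Real.sqrt (N + 1)) : InCl (1 - X i) := by
  intro ε hε
  obtain ⟨N, hN⟩ := exists_nat_gt ((66 / ε) ^ 2)
  obtain ⟨B, hB⟩ := mulf N
  refine ⟨(1 - X i) * B, ?_⟩
  have e : (1 - X i) - (1 - X i) * B * f = (1 - X i) * (C (1/((N:ℂ)+1)) * ∑ k ∈ range (N+1), w ^ k) := by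
    rw [mul_assoc, ← hB]; ring
  rw [e]
  refine (h N).trans_lt ?_
  have hs : 66 / ε < Real.sqrt (N + 1) := by
    rw [Real.lt_sqrt (by positivity)]; linarith
  have hs0 : 0 < Real.sqrt ((N:ℝ) + 1) := lt_trans (by positivity) hs
  rw [div_lt_iff₀ hε] at hs
  rw [div_lt_iff₀ hs0]
  linarith

theorem InCl0 : InCl (1 - X 0) := by
  refine InCl_of_err 0 fun N => ?_
  have e : (1 - X 0) * (C (1/((N:ℂ)+1)) * ∑ k ∈ range (N+1), w ^ k) =
      C (1/((N:ℂ)+1)) * (1 + C (1/2) * (∑ k ∈ range N, w ^ k * (X 1 - X 0)) - X 0 * w ^ N) := by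
    rw [← telescoping0]; ring
  rw [e]
  exact err_bound N _ _ 0 (NS_mid N) rfl

theorem InCl1 : InCl (1 - X 1) := by
  refine InCl_of_err 1 fun N => ?_
  have e : (1 - X 1) * (C (1/((N:ℂ)+1)) * ∑ k ∈ range (N+1), w ^ k) =
      C (1/((N:ℂ)+1)) * (1 + -(C (1/2) * (∑ k ∈ range N, w ^ k * (X 1 - X 0))) - X 1 * w ^ N) := by
    rw [← telescoping1]; ring
  rw [e]
  exact err_bound N _ _ 1 (by rw [NS_neg]; exact NS_mid N) rfl

theorem InCl_mono (a c : ℕ) : InCl (1 - X 0 ^ a * X 1 ^ c) := by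
  have h0 : ∀ a : ℕ, InCl (1 - X 0 ^ a) := fun a => by
    rw [← geom_sum_mul_neg]; exact InCl_mul _ InCl0
  have h1 : ∀ a : ℕ, InCl (1 - X 1 ^ a) := fun a => by
    rw [← geom_sum_mul_neg]; exact InCl_mul _ InCl1
  have e : (1 - X 0 ^ a * X 1 ^ c : MP) = (1 - X 0 ^ a) + X 0 ^ a * (1 - X 1 ^ c) := by ring
  rw [e]
  exact InCl_add (h0 a) (InCl_mul _ (h1 c))

end Pool.Agent.Q172.Cyc
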