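import Mathlib
import Pool.Agent.Q172.CycB

open Finset MvPolynomial

namespace Pool.Agent.Q172.Cyc

/-- harmonic sum -/
noncomputable def Hs (N : ℕ) : ℝ := ∑ k ∈ range (N+1), 1 / ((k:ℝ) + 1)

theorem Hs_pos (N : ℕ) : 0 < Hs N := by
  unfold Hs
  exact Finset.sum_pos (fun k _ => by positivity) ⟨0, by simp⟩

/-- small polynomials with value one at `(1,1)` -/
noncomputable def gN (N : ℕ) : MP := ∑ x ∈ (range (N+1)).sigma (fun k => range (k+1)),
  monomial (ex x.2 (x.1 - x.2)) (((1 / (((x.1:ℝ) + 1) ^ 2 * Hs N)) : ℝ) : ℂ)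

theorem NS_gN (N : ℕ) : NS (gN N) ≤ 4 / Hs N := by
  have hinj : Set.InjOn (fun x : (Σ _ : ℕ, ℕ) => ex x.2 (x.1 - x.2))
      ((range (N+1)).sigma (fun k => range (k+1)) : Finset (Σ _ : ℕ, ℕ)) := by
    rintro ⟨m, j⟩ hx ⟨m', j'⟩ hy hxy
    simp only [Finset.coe_sigma, Set.mem_sigma_iff, Finset.mem_coe, Finset.mem_range] at hx hy
    simp only at hxy
    have e0 := DFunLike.congr_fun hxy 0
    have e1 := DFunLike.congr_fun hxy 1
    rw [ex_zero, ex_zero] at e0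
    rw [ex_one, ex_one] at e1
    subst e0
    have : m = m' := by omega
    subst this
    rfl
  have hH := Hs_pos N
  unfold gN
  rw [NS_sum_monomial _ _ _ hinj, Finset.sum_sigma]
  have h1 : ∀ k ∈ range (N+1), ∑ j ∈ range (k+1),
      ‖((1 / (((k:ℝ) + 1) ^ 2 * Hs N) : ℝ) : ℂ)‖ ^ 2 * wt (ex j (k - j)) ^ 2 ≤
      4 / Hs N ^ 2 * (1 / ((k:ℝ) + 1)) := by
    intro k _
    have h2 : ∀ j ∈ range (k+1), ‖((1 / (((k:ℝ) + 1) ^ 2 * Hs N) : ℝ) : ℂ)‖ ^ 2 * wt (ex j (k - j)) ^ 2 =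
        (1 / (((k:ℝ) + 1) ^ 2 * Hs N)) ^ 2 * ((k:ℝ) + 2) ^ 2 := by
      intro j hj
      have hj' := Finset.mem_range.1 hj
      rw [wt_ex, Complex.norm_real, Real.norm_eq_abs, sq_abs]
      have h6 : ((k - j : ℕ) : ℝ) = k - j := by rw [Nat.cast_sub (by omega)]
      rw [h6]
      congr 2
      ring
    rw [Finset.sum_congr rfl h2, Finset.sum_const, card_range, nsmul_eq_mul]
    have hk : (0:ℝ) ≤ k := Nat.cast_nonneg k
    push_cast
    have h3 : ((k:ℝ) + 1) * ((1 / (((k:ℝ) + 1) ^ 2 * Hs N)) ^ 2 * ((k:ℝ) + 2) ^ 2) =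
        (((k:ℝ) + 2) ^ 2 / ((k:ℝ) + 1) ^ 2) / Hs N ^ 2 * (1 / ((k:ℝ) + 1)) := by
      field_simp
    rw [h3]
    have h4 : ((k:ℝ) + 2) ^ 2 / ((k:ℝ) + 1) ^ 2 ≤ 4 := by
      rw [div_le_iff₀ (by positivity)]; nlinarith
    gcongr
  refine (Finset.sum_le_sum h1).trans ?_
  rw [← Finset.mul_sum]
  have : ∑ k ∈ range (N+1), 1 / ((k:ℝ) + 1) = Hs N := rfl
  rw [this]
  apply le_of_eq
  field_simp

theorem InCl_one_sub_gN (N : ℕ) : InCl (1 - gN N) := by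
  have hH := Hs_pos N
  have e : (1 - gN N : MP) = ∑ x ∈ (range (N+1)).sigma (fun k => range (k+1)),
      C (((1 / (((x.1:ℝ) + 1) ^ 2 * Hs N)) : ℝ) : ℂ) * (1 - X 0 ^ x.2 * X 1 ^ (x.1 - x.2)) := by
    simp only [mul_sub, mul_one, Finset.sum_sub_distrib]
    congr 1
    · rw [← map_sum (C : ℂ →+* MP), ← C_1]
      congr 1
      rw [Finset.sum_sigma]
      simp only [Finset.sum_const, card_range, nsmul_eq_mul]
      rw [← Complex.ofReal_one]
      have : ∑ k ∈ range (N+1), ((k + 1 : ℕ) : ℂ) * (((1 / (((k:ℝ) + 1) ^ 2 * Hs N)) : ℝ) : ℂ) =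
          ((∑ k ∈ range (N+1), ((k + 1 : ℕ) : ℝ) * (1 / (((k:ℝ) + 1) ^ 2 * Hs N)) : ℝ) : ℂ) := by
        push_cast; rfl
      rw [this]
      congr 1
      have h2 : ∀ k ∈ range (N+1), ((k + 1 : ℕ) : ℝ) * (1 / (((k:ℝ) + 1) ^ 2 * Hs N)) =
          (1 / ((k:ℝ) + 1)) / Hs N := by
        intro k _
        push_cast
        field_simp
      rw [Finset.sum_congr rfl h2, ← Finset.sum_div]
      have : ∑ k ∈ range (N+1), 1 / ((k:ℝ) + 1) = Hs N := rfl
      rw [this, div_self hH.ne']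
    · unfold gN
      refine Finset.sum_congr rfl fun x _ => ?_
      rw [monomial_ex]
  rw [e]
  exact InCl_sum _ _ fun x _ => InCl_mul _ (InCl_mono _ _)

theorem InCl_one : InCl 1 := by
  intro ε hε
  have hlim := Real.tendsto_sum_range_one_div_nat_succ_atTop
  obtain ⟨N, hN⟩ := Filter.eventually_atTop.1 (hlim.eventually_gt_atTop (16 / ε))
  have h1 : 16 / ε < Hs N := hN (N+1) (by omega)
  obtain ⟨p, hp⟩ := InCl_one_sub_gN N (ε / 4) (by positivity)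
  refine ⟨p, ?_⟩
  have e : 1 - p * f = (1 - gN N - p * f) + gN N := by ring
  rw [e]
  have h2 := NS_add_le (1 - gN N - p * f) (gN N)
  have h3 := NS_gN N
  have h4 : 4 / Hs N < ε / 4 := by
    rw [div_lt_iff₀ (Hs_pos N)]
    rw [div_lt_iff₀ hε] at h1
    linarith
  linarith

theorem InCl_all (g : MP) : InCl g := by
  have := InCl_mul g InCl_one
  rwa [mul_one] at this

end Pool.Agent.Q172.Cyc

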