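import Mathlib
import Pool.Agent.Helper123.CRX.Holo
import Pool.Agent.H402R2.SubMean

open MeasureTheory Set Metric Filter Topology
open scoped ENNReal

namespace Pool.Agent.Q172.Fock

/-- `ℂⁿ` with its Euclidean norm -/
abbrev Cn (n : ℕ) := EuclideanSpace ℂ (Fin n)

variable {n : ℕ} {f g : Cn n → ℂ}

/-- The radial derivative `Rf(z) = ∑ z_k ∂f/∂z_k (z)`. -/
noncomputable def Rad (f : Cn n → ℂ) (z : Cn n) : ℂ :=
  ∑ k, z k * fderiv ℂ f z (EuclideanSpace.single k 1)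

theorem sum_single (z : Cn n) : ∑ k, z k • (EuclideanSpace.single k (1:ℂ) : Cn n) = z := by
  ext i
  simp [Finset.sum_apply, Pi.single_apply]

theorem Rad_eq (f : Cn n → ℂ) (z : Cn n) : Rad f z = fderiv ℂ f z z := by
  have h := congrArg (fderiv ℂ f z) (sum_single z)
  rw [map_sum] at h
  rw [← h]
  unfold Rad
  refine Finset.sum_congr rfl fun k _ => ?_
  rw [map_smul, smul_eq_mul]

theorem Rad_diff (hf : Differentiable ℂ f) : Differentiable ℂ (Rad f) := by
  unfold Rad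
  refine Differentiable.fun_sum fun k _ => ?_
  have h1 : Differentiable ℂ (fun z : Cn n => z k) := by
    exact (EuclideanSpace.proj (𝕜 := ℂ) k : Cn n →L[ℂ] ℂ).differentiable
  have h2 := Pool.Agent.Helper123.CRX.Holo.differentiableOn_fderiv_apply isOpen_univ
    hf.differentiableOn (EuclideanSpace.single k (1:ℂ))
  exact h1.mul (differentiableOn_univ.1 h2)

theorem Rad_iter_diff (hf : Differentiable ℂ f) (N : ℕ) : Differentiable ℂ (Rad^[N] f) := by
  induction N with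
  | zero => exact hf
  | succ N ih => rw [Function.iterate_succ_apply']; exact Rad_diff ih

theorem ray_deriv (hf : Differentiable ℂ f) (z : Cn n) (t : ℝ) (ht : t ≠ 0) :
    HasDerivAt (fun t : ℝ => f ((t:ℂ) • z)) (Rad f ((t:ℂ) • z) / t) t := by
  have h1 : HasDerivAt (fun t : ℝ => (t:ℂ) • z) ((1:ℂ) • z) t :=
    (Complex.ofRealCLM.hasDerivAt (x := t)).smul_const z
  have h2 : HasFDerivAt f ((fderiv ℂ f ((t:ℂ) • z)).restrictScalars ℝ) ((t:ℂ) • z) :=
    (hf _).hasFDerivAt.restrictScalars ℝ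
  have h3 := h2.comp_hasDerivAt t h1
  convert! h3 using 1
  rw [Rad_eq, map_smul, ContinuousLinearMap.coe_restrictScalars', map_smul, one_smul, smul_eq_mul]
  have : (t:ℂ) ≠ 0 := by exact_mod_cast ht
  field_simp

/-- growth along a ray -/
theorem growth (hf : Differentiable ℂ f) (z : Cn n) (a : ℝ) (ha : 0 < a) (ha1 : a ≤ 1) (B B' : ℝ → ℝ)
    (hB : ∀ t, HasDerivAt B (B' t) t) (hb : ∀ t ∈ Icc a 1, ‖Rad f ((t:ℂ) • z)‖ ≤ t * B' t) :
    ‖f z - f ((a:ℂ) • z)‖ ≤ B 1 - B a := by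
  have h := image_norm_le_of_norm_deriv_right_le_deriv_boundary (a := a) (b := 1)
    (f := fun t : ℝ => f ((t:ℂ) • z) - f ((a:ℂ) • z))
    (f' := fun t : ℝ => Rad f ((t:ℂ) • z) / t) (B := fun t => B t - B a) (B' := B')
    ?_ ?_ ?_ ?_ ?_ (x := 1) ⟨ha1, le_rfl⟩
  · simpa using h
  · intro t ht
    exact ((ray_deriv hf z t (ha.trans_le ht.1).ne').sub_const _).continuousAt.continuousWithinAt
  · intro t ht
    exact ((ray_deriv hf z t (ha.trans_le ht.1).ne').sub_const _).hasDerivWithinAt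
  · simp
  · intro t
    exact (hB t).sub_const _
  · intro t ht
    have ht0 : 0 < t := ha.trans_le ht.1
    simp only [norm_div, Complex.norm_real, Real.norm_of_nonneg ht0.le]
    rw [div_le_iff₀ ht0, mul_comm]
    exact hb t ⟨ht.1, ht.2.le⟩

/-- multiplication by a unit complex number -/
noncomputable def rot (c : ℂ) (hc : ‖c‖ = 1) : Cn n ≃ₗᵢ[ℝ] Cn n :=
  { (LinearEquiv.smulOfNeZero ℂ (Cn n) c (by rintro rfl; simp at hc)).restrictScalars ℝ with
    norm_map' := fun x => by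
      change ‖c • x‖ = ‖x‖
      rw [norm_smul, hc, one_mul] }

theorem rot_apply (c : ℂ) (hc : ‖c‖ = 1) (x : Cn n) : rot c hc x = c • x := rfl

theorem lint_rot (c : ℂ) (hc : ‖c‖ = 1) (F : Cn n → ℝ≥0∞) (ρ : ℝ) :
    ∫⁻ ξ in ball (0:Cn n) ρ, F (c • ξ) = ∫⁻ ξ in ball (0:Cn n) ρ, F ξ := by
  rw [← lintegral_indicator measurableSet_ball, ← lintegral_indicator measurableSet_ball]
  have h := (rot (n := n) c hc).measurePreserving.lintegral_comp_emb
    (rot (n := n) c hc).toHomeomorph.measurableEmbedding ((ball (0:Cn n) ρ).indicator F)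
  rw [← h]
  refine lintegral_congr fun ξ => ?_
  rw [rot_apply]
  by_cases hξ : ξ ∈ ball (0:Cn n) ρ
  · rw [indicator_of_mem hξ, indicator_of_mem]
    rw [mem_ball_zero_iff] at hξ ⊢
    rwa [norm_smul, hc, one_mul]
  · rw [indicator_of_notMem hξ, indicator_of_notMem]
    rw [mem_ball_zero_iff] at hξ ⊢
    rwa [norm_smul, hc, one_mul]

theorem enorm_rpow (x : ℂ) (p : ℝ) (hp : 0 < p) : ‖x‖ₑ ^ p = ENNReal.ofReal (‖x‖ ^ p) := by
  rw [← ofReal_norm, ENNReal.ofReal_rpow_of_nonneg (norm_nonneg _) hp.le]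

theorem circle_mean (h : ℂ → ℂ) (hh : Differentiable ℂ h) (p : ℝ) (hp : 0 < p) :
    ENNReal.ofReal (2 * Real.pi) * ‖h 0‖ₑ ^ p ≤ ∫⁻ θ in Ioc 0 (2 * Real.pi), ‖h (circleMap 0 1 θ)‖ₑ ^ p := by
  have h1 := Pool.Agent.H402R2.SubMean.rpow_le_circleAverage (g := h) (w := 0) (r := 1) (ρ := 2) (p := p)
    one_pos hp (by norm_num) hh.differentiableOn
  have hcont : Continuous (fun θ : ℝ => ‖h (circleMap 0 1 θ)‖ ^ p) :=
    (hh.continuous.comp (continuous_circleMap 0 1)).norm.rpow_const fun _ => Or.inr hp.le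
  have h2 : ∫⁻ θ in Ioc 0 (2 * Real.pi), ‖h (circleMap 0 1 θ)‖ₑ ^ p =
      ENNReal.ofReal (∫ θ in (0:ℝ)..(2 * Real.pi), ‖h (circleMap 0 1 θ)‖ ^ p) := by
    rw [intervalIntegral.integral_of_le Real.two_pi_pos.le]
    rw [ofReal_integral_eq_lintegral_ofReal]
    · refine lintegral_congr fun θ => ?_
      rw [enorm_rpow _ _ hp]
    · exact (hcont.integrableOn_Icc).mono_set Ioc_subset_Icc_self
    · exact Eventually.of_forall fun θ => by positivity
  rw [h2, enorm_rpow _ _ hp, ← ENNReal.ofReal_mul Real.two_pi_pos.le]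
  apply ENNReal.ofReal_le_ofReal
  rw [Real.circleAverage_def, smul_eq_mul, ← div_eq_inv_mul, le_div_iff₀ Real.two_pi_pos] at h1
  linarith

/-- the sub-mean value inequality for `|g|^p` on balls of `ℂⁿ` -/
theorem submean (hg : Differentiable ℂ g) (a : Cn n) (ρ : ℝ) (p : ℝ) (hp : 0 < p) :
    ‖g a‖ₑ ^ p * volume (ball (0:Cn n) ρ) ≤ ∫⁻ ξ in ball (0:Cn n) ρ, ‖g (a + ξ)‖ₑ ^ p := by
  have hpos : ENNReal.ofReal (2 * Real.pi) ≠ 0 := by
    rw [Ne, ENNReal.ofReal_eq_zero, not_le]; exact Real.two_pi_pos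
  have hcont : Continuous (fun q : ℝ × Cn n => ‖g (a + circleMap 0 1 q.1 • q.2)‖ₑ ^ p) := by
    have h1 : Continuous (fun q : ℝ × Cn n => g (a + circleMap 0 1 q.1 • q.2)) := by
      apply hg.continuous.comp
      exact continuous_const.add (((continuous_circleMap 0 1).comp continuous_fst).smul continuous_snd)
    exact (ENNReal.continuous_rpow_const).comp h1.enorm
  have key : ENNReal.ofReal (2 * Real.pi) * (‖g a‖ₑ ^ p * volume (ball (0:Cn n) ρ)) ≤
      ENNReal.ofReal (2 * Real.pi) * ∫⁻ ξ in ball (0:Cn n) ρ, ‖g (a + ξ)‖ₑ ^ p := by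
    calc ENNReal.ofReal (2 * Real.pi) * (‖g a‖ₑ ^ p * volume (ball (0:Cn n) ρ))
        = ∫⁻ _ξ in ball (0:Cn n) ρ, ENNReal.ofReal (2 * Real.pi) * ‖g a‖ₑ ^ p := by
          rw [setLIntegral_const, mul_assoc]
      _ ≤ ∫⁻ ξ in ball (0:Cn n) ρ, ∫⁻ θ in Ioc 0 (2 * Real.pi), ‖g (a + circleMap 0 1 θ • ξ)‖ₑ ^ p := by
          apply lintegral_mono
          intro ξ
          have hd : Differentiable ℂ (fun μ : ℂ => g (a + μ • ξ)) := by
            intro μ
            exact (hg _).comp μ ((differentiableAt_id.smul_const ξ).const_add a)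
          have := circle_mean (fun μ : ℂ => g (a + μ • ξ)) hd p hp
          simpa using this
      _ = ∫⁻ θ in Ioc 0 (2 * Real.pi), ∫⁻ ξ in ball (0:Cn n) ρ, ‖g (a + circleMap 0 1 θ • ξ)‖ₑ ^ p := by
          rw [lintegral_lintegral_swap]
          have := hcont.comp continuous_swap
          exact this.measurable.aemeasurable
      _ = ∫⁻ _θ in Ioc 0 (2 * Real.pi), ∫⁻ ξ in ball (0:Cn n) ρ, ‖g (a + ξ)‖ₑ ^ p := by
          refine lintegral_congr fun θ => ?_
          exact lint_rot (circleMap 0 1 θ) (by simp) (fun ξ => ‖g (a + ξ)‖ₑ ^ p) ρ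
      _ = ENNReal.ofReal (2 * Real.pi) * ∫⁻ ξ in ball (0:Cn n) ρ, ‖g (a + ξ)‖ₑ ^ p := by
          rw [setLIntegral_const, Real.volume_Ioc, sub_zero, mul_comm]
  exact (ENNReal.mul_le_mul_iff_right hpos ENNReal.ofReal_ne_top).1 key

end Pool.Agent.Q172.Fock
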