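import Mathlib
import Pool.Agent.Q172.FockA

open MeasureTheory Set Metric Filter Topology
open scoped ENNReal

namespace Pool.Agent.Q172.Fock

variable {n : ℕ} {f g : Cn n → ℂ}

/-- the shell `J ≤ |z|² < J + 1` -/
def Sh (n J : ℕ) : Set (Cn n) := {z | (J:ℝ) ≤ ‖z‖ ^ 2 ∧ ‖z‖ ^ 2 < J + 1}

/-- the thick shell `j - 2 ≤ |z|² ≤ j + 5` -/
def Th (n j : ℕ) : Set (Cn n) := {z | (j:ℝ) - 2 ≤ ‖z‖ ^ 2 ∧ ‖z‖ ^ 2 ≤ j + 5}

theorem measurableSet_Sh (n J : ℕ) : MeasurableSet (Sh n J) := by
  have h : Measurable (fun z : Cn n => ‖z‖ ^ 2) := (measurable_norm).pow_const 2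
  exact (measurableSet_le measurable_const h).inter (measurableSet_lt h measurable_const)

theorem measurableSet_Th (n J : ℕ) : MeasurableSet (Th n J) := by
  have h : Measurable (fun z : Cn n => ‖z‖ ^ 2) := (measurable_norm).pow_const 2
  exact (measurableSet_le measurable_const h).inter (measurableSet_le h measurable_const)

theorem mem_Sh_floor (z : Cn n) : z ∈ Sh n ⌊‖z‖ ^ 2⌋₊ :=
  ⟨Nat.floor_le (by positivity), Nat.lt_floor_add_one _⟩

theorem Sh_floor {z : Cn n} {J : ℕ} (hz : z ∈ Sh n J) : ⌊‖z‖ ^ 2⌋₊ = J := by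
  rw [Nat.floor_eq_iff (by positivity)]
  exact hz

theorem iUnion_Sh : (⋃ J, Sh n J) = univ := by
  ext z
  simp only [mem_iUnion, mem_univ, iff_true]
  exact ⟨_, mem_Sh_floor z⟩

theorem disjoint_Sh : Pairwise (Function.onFun Disjoint (Sh n)) := by
  intro i j hij
  rw [Function.onFun, Set.disjoint_left]
  intro z hi hj
  exact hij ((Sh_floor hi).symm.trans (Sh_floor hj))

theorem lint_Sh (F : Cn n → ℝ≥0∞) : ∫⁻ z, F z = ∑' J, ∫⁻ z in Sh n J, F z := by
  rw [← lintegral_iUnion (measurableSet_Sh n) disjoint_Sh, iUnion_Sh, Measure.restrict_univ]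

theorem finrank_Cn : Module.finrank ℝ (Cn n) = 2 * n := by
  rw [finrank_real_of_complex, finrank_euclideanSpace_fin]

/-- scaling -/
theorem lint_scale (c : ℝ) (hc : 0 < c) (F : Cn n → ℝ≥0∞) (hF : Measurable F) :
    ∫⁻ z, F (c • z) = ENNReal.ofReal ((c ^ (2 * n))⁻¹) * ∫⁻ z, F z := by
  have h1 : ∫⁻ z, F (c • z) = ∫⁻ z, F z ∂(Measure.map (fun z : Cn n => c • z) volume) := by
    rw [lintegral_map hF (measurable_const_smul c)]
  rw [h1, Measure.map_addHaar_smul volume hc.ne', finrank_Cn, lintegral_smul_measure,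
    abs_of_nonneg (by positivity), smul_eq_mul]

/-- double integral over a set and a small ball -/
theorem lint_double (A S : Set (Cn n)) (hA : MeasurableSet A) (hS : MeasurableSet S) (c ρ : ℝ) (hc : 0 < c)
    (F : Cn n → ℝ≥0∞) (hF : Measurable F)
    (h : ∀ z ∈ A, ∀ ξ ∈ ball (0:Cn n) ρ, c • z + ξ ∈ S) :
    ∫⁻ z in A, ∫⁻ ξ in ball (0:Cn n) ρ, F (c • z + ξ) ≤
      volume (ball (0:Cn n) ρ) * (ENNReal.ofReal ((c ^ (2 * n))⁻¹) * ∫⁻ w in S, F w) := by
  rw [lintegral_lintegral_swap]
  · calc ∫⁻ ξ in ball (0:Cn n) ρ, ∫⁻ z in A, F (c • z + ξ)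
        ≤ ∫⁻ _ξ in ball (0:Cn n) ρ, (ENNReal.ofReal ((c ^ (2 * n))⁻¹) * ∫⁻ w in S, F w) := by
          apply setLIntegral_mono' measurableSet_ball
          intro ξ hξ
          calc ∫⁻ z in A, F (c • z + ξ) ≤ ∫⁻ z, S.indicator F (c • z + ξ) := by
                rw [← lintegral_indicator hA]
                apply lintegral_mono
                intro z
                by_cases hz : z ∈ A
                · rw [indicator_of_mem hz]
                  simp only
                  rw [indicator_of_mem (h z hz ξ hξ)]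
                · rw [indicator_of_notMem hz]; exact zero_le
            _ = ENNReal.ofReal ((c ^ (2 * n))⁻¹) * ∫⁻ z, S.indicator F (z + ξ) := by
                rw [lint_scale c hc (fun z => S.indicator F (z + ξ))
                  ((hF.indicator hS).comp (measurable_add_const ξ))]
            _ = ENNReal.ofReal ((c ^ (2 * n))⁻¹) * ∫⁻ w in S, F w := by
                rw [lintegral_add_right_eq_self (S.indicator F) ξ, lintegral_indicator hS]
      _ = _ := by rw [setLIntegral_const, mul_comm]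
  · apply Measurable.aemeasurable
    apply hF.comp
    fun_prop

theorem ball_shift (a : Cn n) (ρ : ℝ) (F : Cn n → ℝ≥0∞) :
    ∫⁻ ξ in ball (0:Cn n) ρ, F (a + ξ) = ∫⁻ w in ball a ρ, F w := by
  rw [← lintegral_indicator measurableSet_ball, ← lintegral_indicator measurableSet_ball,
    ← lintegral_add_left_eq_self ((ball a ρ).indicator F) a]
  refine lintegral_congr fun ξ => ?_
  by_cases hξ : ξ ∈ ball (0:Cn n) ρ
  · rw [indicator_of_mem hξ, indicator_of_mem]
    simpa [mem_ball, dist_eq_norm] using hξ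
  · rw [indicator_of_notMem hξ, indicator_of_notMem]
    simpa [mem_ball, dist_eq_norm] using hξ

/-- the sub-mean value inequality with a moved centre -/
theorem submean_near (hg : Differentiable ℂ g) (a b : Cn n) (ρ : ℝ) (hab : ‖a - b‖ ≤ ρ) (p : ℝ)
    (hp : 0 < p) :
    ‖g a‖ₑ ^ p * volume (ball (0:Cn n) ρ) ≤ ∫⁻ ξ in ball (0:Cn n) (2 * ρ), ‖g (b + ξ)‖ₑ ^ p := by
  refine (submean hg a ρ p hp).trans ?_
  rw [ball_shift a ρ (fun w => ‖g w‖ₑ ^ p), ball_shift b (2 * ρ) (fun w => ‖g w‖ₑ ^ p)]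
  apply lintegral_mono_set
  apply ball_subset_ball'
  rw [dist_eq_norm]
  linarith

theorem vol_double (ρ : ℝ) : volume (ball (0:Cn n) (2 * ρ)) = ENNReal.ofReal (2 ^ (2 * n)) *
    volume (ball (0:Cn n) ρ) := by
  rw [Measure.addHaar_ball_mul_of_pos volume (0:Cn n) two_pos ρ, finrank_Cn]

/-- every point lies in at most eight thick shells -/
theorem sum_Th (F : Cn n → ℝ≥0∞) (hF : Measurable F) :
    ∑' j, ∫⁻ w in Th n j, F w ≤ 8 * ∫⁻ w, F w := by
  have h1 : ∀ j, ∫⁻ w in Th n j, F w ≤
      ∑ i ∈ Finset.range 8, ∫⁻ w, if j + i = ⌊‖w‖ ^ 2⌋₊ + 2 then F w else 0 := by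
    intro j
    have hm : ∀ i, Measurable (fun w : Cn n => if j + i = ⌊‖w‖ ^ 2⌋₊ + 2 then F w else 0) := by
      intro i
      apply Measurable.ite _ hF measurable_const
      have : Measurable (fun w : Cn n => ⌊‖w‖ ^ 2⌋₊) :=
        Nat.measurable_floor.comp (measurable_norm.pow_const 2)
      exact measurableSet_eq_fun measurable_const (this.add_const 2)
    rw [← lintegral_finsetSum _ (fun i _ => hm i), ← lintegral_indicator (measurableSet_Th n j)]
    apply lintegral_mono
    intro w
    by_cases hw : w ∈ Th n j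
    · rw [indicator_of_mem hw]
      set N := ⌊‖w‖ ^ 2⌋₊ with hN
      obtain ⟨h2, h3⟩ := mem_Sh_floor w
      rw [← hN] at h2 h3
      obtain ⟨h4, h5⟩ := hw
      have h6 : j ≤ N + 2 := by
        have : (j:ℝ) < N + 3 := by linarith
        have : j < N + 3 := by exact_mod_cast this
        omega
      have h7 : N ≤ j + 5 := by
        have : (N:ℝ) ≤ j + 5 := by linarith
        exact_mod_cast this
      have h8 : N + 2 - j ∈ Finset.range 8 := by rw [Finset.mem_range]; omega
      refine le_trans ?_ (Finset.single_le_sum (f := fun i => if j + i = N + 2 then F w else 0)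
        (fun i _ => zero_le) h8)
      simp only
      rw [if_pos (by omega)]
    · rw [indicator_of_notMem hw]; exact zero_le
  calc ∑' j, ∫⁻ w in Th n j, F w
      ≤ ∑' j, ∑ i ∈ Finset.range 8, ∫⁻ w, if j + i = ⌊‖w‖ ^ 2⌋₊ + 2 then F w else 0 :=
        ENNReal.tsum_le_tsum h1
    _ = ∑ i ∈ Finset.range 8, ∑' j, ∫⁻ w, if j + i = ⌊‖w‖ ^ 2⌋₊ + 2 then F w else 0 := by
        rw [Summable.tsum_finsetSum fun _ _ => ENNReal.summable]
    _ ≤ ∑ _i ∈ Finset.range 8, ∫⁻ w, F w := by
        apply Finset.sum_le_sum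
        intro i _
        rw [← lintegral_tsum]
        · apply lintegral_mono
          intro w
          by_cases hi : i ≤ ⌊‖w‖ ^ 2⌋₊ + 2
          · simp only
            rw [tsum_eq_single (⌊‖w‖ ^ 2⌋₊ + 2 - i)]
            · split_ifs
              · exact le_rfl
              · exact zero_le
            · intro j hj
              rw [if_neg (by omega)]
          · have : ∀ j, (if j + i = ⌊‖w‖ ^ 2⌋₊ + 2 then F w else 0) = 0 := by
              intro j
              rw [if_neg (by omega)]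
            simp only [this, tsum_zero, zero_le]
        · intro j
          apply Measurable.aemeasurable
          apply Measurable.ite _ hF measurable_const
          have : Measurable (fun w : Cn n => ⌊‖w‖ ^ 2⌋₊) :=
            Nat.measurable_floor.comp (measurable_norm.pow_const 2)
          exact measurableSet_eq_fun measurable_const (this.add_const 2)
    _ = 8 * ∫⁻ w, F w := by simp

/-- a double sum -/
theorem double_sum (θ a : ℕ → ℝ≥0∞) :
    ∑' J : ℕ, ∑ j ∈ Finset.Icc 1 J, θ (J - j) * a j ≤ (∑' i, θ i) * ∑' j, a j := by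
  have h1 : ∀ J : ℕ, ∑ j ∈ Finset.Icc 1 J, θ (J - j) * a j ≤
      ∑' j, if j ≤ J then θ (J - j) * a j else 0 := by
    intro J
    calc ∑ j ∈ Finset.Icc 1 J, θ (J - j) * a j
        = ∑ j ∈ Finset.Icc 1 J, (if j ≤ J then θ (J - j) * a j else 0) := by
          apply Finset.sum_congr rfl
          intro j hj
          rw [if_pos (Finset.mem_Icc.1 hj).2]
      _ ≤ _ := ENNReal.sum_le_tsum _
  calc ∑' J : ℕ, ∑ j ∈ Finset.Icc 1 J, θ (J - j) * a j
      ≤ ∑' J : ℕ, ∑' j, (if j ≤ J then θ (J - j) * a j else 0) := ENNReal.tsum_le_tsum h1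
    _ = ∑' j, ∑' J : ℕ, (if j ≤ J then θ (J - j) * a j else 0) := ENNReal.tsum_comm
    _ = ∑' j, (∑' i, θ i) * a j := by
        congr 1
        funext j
        have h2 := (ENNReal.summable (f := fun i => (fun J => if j ≤ J then θ (J - j) * a j else 0)
          (i + j))).sum_add_tsum_nat_add' (f := fun J => if j ≤ J then θ (J - j) * a j else 0) (k := j)
        rw [← h2]
        have h3 : ∑ J ∈ Finset.range j, (if j ≤ J then θ (J - j) * a j else 0) = 0 := by
          apply Finset.sum_eq_zero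
          intro J hJ
          rw [if_neg (by rw [Finset.mem_range] at hJ; omega)]
        rw [h3, zero_add]
        have h4 : ∀ i : ℕ, (if j ≤ i + j then θ (i + j - j) * a j else 0) = θ i * a j := by
          intro i
          rw [if_pos (by omega), Nat.add_sub_cancel]
        simp only [h4]
        rw [ENNReal.tsum_mul_right]
    _ = (∑' i, θ i) * ∑' j, a j := ENNReal.tsum_mul_left

end Pool.Agent.Q172.Fock
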