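import Mathlib
import Pool.Agent.Q172.FockB

open MeasureTheory Set Metric Filter Topology
open scoped ENNReal

namespace Pool.Agent.Q172.Fock

variable {n : ℕ} {f g : Cn n → ℂ}

/-- the weight -/
noncomputable def wt (κ b : ℝ) (z : Cn n) : ℝ := (1 + ‖z‖ ^ 2) ^ (-κ) * Real.exp (-b * ‖z‖ ^ 2)

theorem wt_pos (κ b : ℝ) (z : Cn n) : 0 < wt κ b z := by
  unfold wt
  have : 0 < 1 + ‖z‖ ^ 2 := by positivity
  positivity

theorem wt_cont (κ b : ℝ) : Continuous (wt (n := n) κ b) := by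
  unfold wt
  apply Continuous.mul
  · apply Continuous.rpow_const (by fun_prop)
    intro z
    left
    positivity
  · fun_prop

theorem wt_int (κ b : ℝ) (hκ : 0 ≤ κ) (hb : 0 < b) :
    ∫⁻ z : Cn n, ENNReal.ofReal (wt κ b z) < ⊤ := by
  have h1 : Integrable (fun z : Cn n => Real.exp (-b * ‖z‖ ^ 2)) := by
    have h := GaussianFourier.integrable_cexp_neg_mul_sq_norm_add (V := Cn n) (b := (b:ℂ)) (by simpa using hb) 0 0
    have h2 := h.norm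
    refine h2.congr (Eventually.of_forall fun z => ?_)
    simp only [zero_mul, add_zero, Complex.norm_exp]
    congr 1
    rw [← Complex.ofReal_neg, ← Complex.ofReal_pow, ← Complex.ofReal_mul, Complex.ofReal_re]
  refine lt_of_le_of_lt ?_ h1.lintegral_lt_top
  apply lintegral_mono
  intro z
  apply ENNReal.ofReal_le_ofReal
  unfold wt
  have h3 : (1 + ‖z‖ ^ 2) ^ (-κ) ≤ 1 := by
    apply Real.rpow_le_one_of_one_le_of_nonpos
    · have : 0 ≤ ‖z‖ ^ 2 := by positivity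
      linarith
    · linarith
  calc (1 + ‖z‖ ^ 2) ^ (-κ) * Real.exp (-b * ‖z‖ ^ 2) ≤ 1 * Real.exp (-b * ‖z‖ ^ 2) := by gcongr
    _ = _ := one_mul _

/-- volume of the small ball of the shell `j` -/
noncomputable def Vj (n j : ℕ) : ℝ≥0∞ := volume (ball (0:Cn n) (1 / (2 * Real.sqrt j)))

/-- local means -/
noncomputable def Phi (g : Cn n → ℂ) (p : ℝ) (j : ℕ) (c : ℝ) (z : Cn n) : ℝ≥0∞ :=
  (Vj n j)⁻¹ * ∫⁻ ξ in ball (0:Cn n) (2 * (1 / (2 * Real.sqrt j))), ‖g (c • z + ξ)‖ₑ ^ p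

theorem Vj_pos (j : ℕ) (hj : 1 ≤ j) : Vj n j ≠ 0 := by
  have : (0:ℝ) < j := by exact_mod_cast hj
  exact (measure_ball_pos volume (0:Cn n) (by positivity)).ne'

theorem Vj_fin (j : ℕ) : Vj n j ≠ ⊤ := measure_ball_lt_top.ne

theorem sqrt_close (j : ℕ) (hj : 1 ≤ j) (x y : ℝ) (hx : 0 ≤ x) (hy : 0 ≤ y) (hx1 : (j:ℝ) ≤ x ^ 2)
    (hx2 : x ^ 2 ≤ j + 1) (hy1 : (j:ℝ) ≤ y ^ 2) (hy2 : y ^ 2 ≤ j + 1) :
    |x - y| ≤ 1 / (2 * Real.sqrt j) := by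
  have hj0 : (0:ℝ) < j := by exact_mod_cast hj
  have hs := Real.sqrt_pos.2 hj0
  have h1 : Real.sqrt j ≤ x := Real.sqrt_le_iff.2 ⟨hx, hx1⟩
  have h2 : Real.sqrt j ≤ y := Real.sqrt_le_iff.2 ⟨hy, hy1⟩
  rw [le_div_iff₀ (by positivity)]
  have h3 : |x ^ 2 - y ^ 2| ≤ 1 := by rw [abs_le]; constructor <;> linarith
  have h4 : x ^ 2 - y ^ 2 = (x - y) * (x + y) := by ring
  rw [h4, abs_mul, abs_of_nonneg (show 0 ≤ x + y by positivity)] at h3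
  have h5 : 2 * Real.sqrt j ≤ x + y := by linarith
  calc |x - y| * (2 * Real.sqrt j) ≤ |x - y| * (x + y) := by gcongr
    _ ≤ 1 := h3

/-- the local bound on a ray -/
theorem loc (hg : Differentiable ℂ g) (p : ℝ) (hp : 0 < p) (j : ℕ) (hj : 1 ≤ j) (c : ℝ) (hc : 0 ≤ c)
    (z : Cn n) (t : ℝ) (ht : 0 ≤ t) (h1 : (j:ℝ) ≤ (t * ‖z‖) ^ 2) (h2 : (t * ‖z‖) ^ 2 ≤ j + 1)
    (h3 : (j:ℝ) ≤ (c * ‖z‖) ^ 2) (h4 : (c * ‖z‖) ^ 2 ≤ j + 1) :
    ‖g ((t:ℂ) • z)‖ₑ ^ p ≤ Phi g p j c z := by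
  have hd : ‖(t:ℂ) • z - c • z‖ ≤ 1 / (2 * Real.sqrt j) := by
    have e : (t:ℂ) • z - c • z = (t - c) • z := by
      rw [sub_smul, Complex.coe_smul]
    rw [e, norm_smul, Real.norm_eq_abs]
    have := sqrt_close j hj (t * ‖z‖) (c * ‖z‖) (by positivity) (by positivity) h1 h2 h3 h4
    calc |t - c| * ‖z‖ = |t * ‖z‖ - c * ‖z‖| := by
          rw [← sub_mul, abs_mul, abs_norm]
      _ ≤ _ := this
  have h5 := submean_near hg ((t:ℂ) • z) (c • z) (1 / (2 * Real.sqrt j)) hd p hp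
  unfold Phi
  rw [mul_comm, ← div_eq_mul_inv, ENNReal.le_div_iff_mul_le (Or.inl (Vj_pos j hj)) (Or.inl (Vj_fin j))]
  exact h5

theorem mem_Th (j : ℕ) (hj : 1 ≤ j) (y ξ : Cn n) (h3 : (j:ℝ) ≤ ‖y‖ ^ 2) (h4 : ‖y‖ ^ 2 ≤ j + 1)
    (hξ : ‖ξ‖ < 2 * (1 / (2 * Real.sqrt j))) : y + ξ ∈ Th n j := by
  have hj0 : (0:ℝ) < j := by exact_mod_cast hj
  have hj1 : (1:ℝ) ≤ j := by exact_mod_cast hj
  have hs := Real.sqrt_pos.2 hj0
  have hs2 : Real.sqrt j ^ 2 = j := Real.sq_sqrt hj0.le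
  have hs1 : 1 ≤ Real.sqrt j := Real.one_le_sqrt.2 hj1
  set q := 1 / Real.sqrt j with hq
  have e1 : 2 * (1 / (2 * Real.sqrt j)) = q := by rw [hq]; field_simp
  rw [e1] at hξ
  have hq0 : 0 < q := by positivity
  have hsq : Real.sqrt j * q = 1 := by rw [hq]; field_simp
  have hq1 : q ≤ 1 := by rw [hq, div_le_one hs]; exact hs1
  have hy1 : Real.sqrt j ≤ ‖y‖ := Real.sqrt_le_iff.2 ⟨norm_nonneg _, h3⟩
  have hn := norm_nonneg ξ
  have hny := norm_nonneg y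
  constructor
  · have h5 : Real.sqrt j - q ≤ ‖y + ξ‖ := by
      have := norm_sub_le_norm_add y ξ
      linarith
    have h6 : 0 ≤ Real.sqrt j - q := by linarith
    have h7 : (Real.sqrt j - q) ^ 2 ≤ ‖y + ξ‖ ^ 2 := by gcongr
    nlinarith [sq_nonneg q]
  · have h5 : ‖y + ξ‖ ≤ ‖y‖ + q := (norm_add_le _ _).trans (by linarith)
    have h7 : ‖y + ξ‖ ^ 2 ≤ (‖y‖ + q) ^ 2 := by gcongr
    have h8 : ‖y‖ * q ≤ 3 / 2 := by
      have h9 : (‖y‖ * q) ^ 2 ≤ (3/2) ^ 2 := by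
        have e2 : q ^ 2 = 1 / j := by rw [hq, div_pow, one_pow, hs2]
        rw [mul_pow, e2, mul_one_div, div_le_iff₀ hj0]
        linarith
      exact le_of_sq_le_sq h9 (by norm_num) |> fun h => h
    have h10 : q ^ 2 ≤ 1 := by nlinarith
    nlinarith

/-- the integral of the local means -/
theorem int_Phi (hg : Differentiable ℂ g) (p : ℝ) (j : ℕ) (hj : 1 ≤ j) (A : Set (Cn n))
    (hA : MeasurableSet A) (c : ℝ) (hc : 0 < c)
    (h3 : ∀ z ∈ A, (j:ℝ) ≤ (c * ‖z‖) ^ 2) (h4 : ∀ z ∈ A, (c * ‖z‖) ^ 2 ≤ j + 1) :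
    ∫⁻ z in A, Phi g p j c z ≤ ENNReal.ofReal (2 ^ (2 * n) * (c ^ (2 * n))⁻¹) * ∫⁻ w in Th n j, ‖g w‖ₑ ^ p := by
  have hF : Measurable (fun w => ‖g w‖ₑ ^ p) :=
    ((ENNReal.continuous_rpow_const).comp hg.continuous.enorm).measurable
  have hm : Measurable (fun z => ∫⁻ ξ in ball (0:Cn n) (2 * (1 / (2 * Real.sqrt j))), ‖g (c • z + ξ)‖ₑ ^ p) := by
    apply Measurable.lintegral_prod_right'
      (f := fun q : Cn n × Cn n => ‖g (c • q.1 + q.2)‖ₑ ^ p)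
    apply hF.comp
    fun_prop
  unfold Phi
  rw [lintegral_const_mul _ hm]
  have h := lint_double A (Th n j) hA (measurableSet_Th n j) c (2 * (1 / (2 * Real.sqrt j))) hc
    (fun w => ‖g w‖ₑ ^ p) hF ?_
  · calc (Vj n j)⁻¹ * ∫⁻ z in A, ∫⁻ ξ in ball (0:Cn n) (2 * (1 / (2 * Real.sqrt j))), ‖g (c • z + ξ)‖ₑ ^ p
        ≤ (Vj n j)⁻¹ * (volume (ball (0:Cn n) (2 * (1 / (2 * Real.sqrt j)))) *
          (ENNReal.ofReal ((c ^ (2 * n))⁻¹) * ∫⁻ w in Th n j, ‖g w‖ₑ ^ p)) := by gcongr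
      _ = ((Vj n j)⁻¹ * Vj n j) * (ENNReal.ofReal (2 ^ (2 * n)) * ENNReal.ofReal ((c ^ (2 * n))⁻¹)) *
          ∫⁻ w in Th n j, ‖g w‖ₑ ^ p := by
          rw [vol_double]
          unfold Vj
          ring
      _ = _ := by
          rw [ENNReal.inv_mul_cancel (Vj_pos j hj) (Vj_fin j), one_mul, ← ENNReal.ofReal_mul (by positivity)]
  · intro z hz ξ hξ
    have e : ‖c • z‖ = c * ‖z‖ := by rw [norm_smul, Real.norm_of_nonneg hc.le]
    apply mem_Th j hj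
    · rw [e]; exact h3 z hz
    · rw [e]; exact h4 z hz
    · simpa using hξ

/-- comparison with the weight on a thick shell -/
theorem Th_weight (F : Cn n → ℝ≥0∞) (κ b : ℝ) (hκ : 0 ≤ κ) (hb : 0 < b) (j : ℕ) (hj : 1 ≤ j) :
    ∫⁻ w in Th n j, F w ≤ ENNReal.ofReal ((7 * j) ^ κ * Real.exp (b * (j + 5))) *
      ∫⁻ w in Th n j, F w * ENNReal.ofReal (wt κ b w) := by
  have hj0 : (0:ℝ) < j := by exact_mod_cast hj
  have hj1 : (1:ℝ) ≤ j := by exact_mod_cast hj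
  rw [← lintegral_const_mul' _ _ ENNReal.ofReal_ne_top]
  apply setLIntegral_mono' (measurableSet_Th n j)
  intro w hw
  obtain ⟨_, h2⟩ := hw
  have h3 : 1 ≤ (7 * j) ^ κ * Real.exp (b * (j + 5)) * wt κ b w := by
    unfold wt
    have h4 : (1 + ‖w‖ ^ 2) ≤ 7 * j := by linarith
    have h5 : 0 < 1 + ‖w‖ ^ 2 := by positivity
    have h6 : (7 * (j:ℝ)) ^ (-κ) ≤ (1 + ‖w‖ ^ 2) ^ (-κ) :=
      Real.rpow_le_rpow_of_nonpos h5 h4 (by linarith)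
    have h7 : Real.exp (-b * (j + 5)) ≤ Real.exp (-b * ‖w‖ ^ 2) := by
      apply Real.exp_le_exp.2
      nlinarith
    calc (1:ℝ) = (7 * j) ^ κ * Real.exp (b * (j + 5)) * ((7 * j) ^ (-κ) * Real.exp (-b * (j + 5))) := by
          have e1 : (7 * (j:ℝ)) ^ κ * (7 * (j:ℝ)) ^ (-κ) = 1 := by
            rw [← Real.rpow_add (by positivity)]; simp
          have e2 : Real.exp (b * (j + 5)) * Real.exp (-b * (j + 5)) = 1 := by
            rw [← Real.exp_add]; simp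
          calc (1:ℝ) = ((7 * (j:ℝ)) ^ κ * (7 * (j:ℝ)) ^ (-κ)) * (Real.exp (b * (j + 5)) * Real.exp (-b * (j + 5))) := by
                rw [e1, e2, one_mul]
            _ = _ := by ring
      _ ≤ _ := by gcongr
  calc F w = F w * ENNReal.ofReal 1 := by simp
    _ ≤ F w * ENNReal.ofReal ((7 * j) ^ κ * Real.exp (b * (j + 5)) * wt κ b w) := by gcongr
    _ = _ := by
        rw [ENNReal.ofReal_mul (by positivity)]
        ring

end Pool.Agent.Q172.Fock
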