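import Mathlib
import Pool.Agent.Q172.FockC

open MeasureTheory Set Metric Filter Topology
open scoped ENNReal

namespace Pool.Agent.Q172.Fock

variable {n : ℕ} {f g : Cn n → ℂ}

/-- the dilation factor -/
noncomputable def cf (j J : ℕ) : ℝ := Real.sqrt (j / J)

theorem cf_bounds (j J : ℕ) (hj : 1 ≤ j) (hJ : j ≤ J) (z : Cn n) (hz : z ∈ Sh n J) :
    (j:ℝ) ≤ (cf j J * ‖z‖) ^ 2 ∧ (cf j J * ‖z‖) ^ 2 ≤ j + 1 := by
  have hj0 : (0:ℝ) < j := by exact_mod_cast hj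
  have hJ0 : (0:ℝ) < J := by exact_mod_cast (by omega : 0 < J)
  have hjJ : (j:ℝ) ≤ J := by exact_mod_cast hJ
  obtain ⟨h1, h2⟩ := hz
  have e : (cf j J * ‖z‖) ^ 2 = j / J * ‖z‖ ^ 2 := by
    unfold cf
    rw [mul_pow, Real.sq_sqrt (by positivity)]
  rw [e]
  constructor
  · calc (j:ℝ) = j / J * J := by field_simp
      _ ≤ j / J * ‖z‖ ^ 2 := by gcongr
  · calc (j:ℝ) / J * ‖z‖ ^ 2 ≤ j / J * (J + 1) := by gcongr
      _ = j + j / J := by field_simp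
      _ ≤ j + 1 := by
          have : (j:ℝ) / J ≤ 1 := by rw [div_le_one hJ0]; exact hjJ
          linarith

/-- the majorant -/
noncomputable def DD (g : Cn n → ℂ) (p β : ℝ) (J : ℕ) (z : Cn n) : ℝ≥0∞ :=
  ∑ j ∈ Finset.Icc 1 J, ENNReal.ofReal (Real.exp (p * β * (J - j : ℕ)) * (j:ℝ) ^ (-p)) * Phi g p j (cf j J) z

/-- the pointwise bound on a shell -/
theorem pointwise (hf : Differentiable ℂ f) (p β M : ℝ) (hp : 0 < p) (hβ : 0 < β) (hM : 0 ≤ M)
    (hM1 : ∀ w : Cn n, ‖w‖ = 1 → ‖f w‖ ≤ M) (J : ℕ) (hJ : 1 ≤ J) (z : Cn n) (hz : z ∈ Sh n J) :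
    ‖f z‖ₑ ^ p ≤ ENNReal.ofReal (2 ^ p) * (ENNReal.ofReal (M ^ p) +
      ENNReal.ofReal ((Real.exp β / (2 * β)) ^ p) * DD (Rad f) p β J z) := by
  set g := Rad f with hg
  have hgd : Differentiable ℂ g := Rad_diff hf
  set D := DD g p β J z with hD
  have hJ0 : (0:ℝ) < J := by exact_mod_cast (by omega : 0 < J)
  have hJ1 : (1:ℝ) ≤ J := by exact_mod_cast hJ
  have hr1 : 1 ≤ ‖z‖ := by
    have h1 : (1:ℝ) ^ 2 ≤ ‖z‖ ^ 2 := by rw [one_pow]; exact hJ1.trans hz.1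
    exact le_of_sq_le_sq h1 (norm_nonneg _)
  have hr0 : 0 < ‖z‖ := by linarith
  by_cases hDtop : D = ⊤
  · rw [hDtop, ENNReal.mul_top, add_top, ENNReal.mul_top]
    · exact le_top
    · rw [Ne, ENNReal.ofReal_eq_zero, not_le]; positivity
    · rw [Ne, ENNReal.ofReal_eq_zero, not_le]; positivity
  set d := D.toReal with hd
  have hd0 : 0 ≤ d := ENNReal.toReal_nonneg
  have hDd : D = ENNReal.ofReal d := (ENNReal.ofReal_toReal hDtop).symm
  set Q := d ^ (p⁻¹) with hQ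
  have hQ0 : 0 ≤ Q := by positivity
  -- bound on the ray
  have hray : ∀ t ∈ Icc (1 / ‖z‖) 1, ‖g ((t:ℂ) • z)‖ ≤
      t * (Real.exp β * Q * (t * ‖z‖ ^ 2 * Real.exp (-(β * ‖z‖ ^ 2 * (1 - t ^ 2))))) := by
    intro t ht
    have ht0 : 0 < t := lt_of_lt_of_le (by positivity) ht.1
    have htr : 1 ≤ t * ‖z‖ := by
      have := ht.1
      rwa [div_le_iff₀ hr0] at this
    set s := (t * ‖z‖) ^ 2 with hs
    have hs1 : 1 ≤ s := by rw [hs]; nlinarith
    have hsz : s ≤ ‖z‖ ^ 2 := by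
      rw [hs, mul_pow]
      have : t ^ 2 ≤ 1 := pow_le_one₀ ht0.le ht.2
      have h5 : 0 ≤ ‖z‖ ^ 2 := by positivity
      nlinarith
    set j := ⌊s⌋₊ with hj
    have hj1 : 1 ≤ j := Nat.le_floor (by simpa using hs1)
    have hjs : (j:ℝ) ≤ s := Nat.floor_le (by positivity)
    have hjs2 : s < j + 1 := Nat.lt_floor_add_one _
    have hjJ : j ≤ J := by
      have h6 : (j:ℝ) < J + 1 := by linarith [hz.2]
      have : j < J + 1 := by exact_mod_cast h6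
      omega
    have hjp : (0:ℝ) < j := by exact_mod_cast hj1
    obtain ⟨h7, h8⟩ := cf_bounds j J hj1 hjJ z hz
    have h9 := loc hgd p hp j hj1 (cf j J) (by unfold cf; positivity) z t ht0.le hjs hjs2.le h7 h8
    -- one term of D
    have h10 : ENNReal.ofReal (Real.exp (p * β * (J - j : ℕ)) * (j:ℝ) ^ (-p)) * Phi g p j (cf j J) z ≤ D := by
      rw [hD]
      unfold DD
      exact Finset.single_le_sum (f := fun j : ℕ => ENNReal.ofReal (Real.exp (p * β * (J - j : ℕ)) * (j:ℝ) ^ (-p)) *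
        Phi g p j (cf j J) z) (fun i _ => zero_le) (Finset.mem_Icc.2 ⟨hj1, hjJ⟩)
    have h11 : ENNReal.ofReal (Real.exp (p * β * (J - j : ℕ)) * (j:ℝ) ^ (-p)) * ‖g ((t:ℂ) • z)‖ₑ ^ p ≤
        ENNReal.ofReal d := by
      rw [← hDd]
      exact le_trans (by gcongr) h10
    rw [enorm_rpow _ _ hp, ← ENNReal.ofReal_mul (by positivity), ENNReal.ofReal_le_ofReal_iff hd0] at h11
    have h12 : (Real.exp (β * (J - j : ℕ)) * (j:ℝ)⁻¹ * ‖g ((t:ℂ) • z)‖) ^ p ≤ d := by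
      rw [Real.mul_rpow (by positivity) (norm_nonneg _), Real.mul_rpow (by positivity) (by positivity),
        ← Real.exp_mul, Real.inv_rpow hjp.le, ← Real.rpow_neg hjp.le]
      calc _ = Real.exp (p * β * (J - j : ℕ)) * (j:ℝ) ^ (-p) * ‖g ((t:ℂ) • z)‖ ^ p := by
            congr 3
            ring
        _ ≤ d := h11
    have h13 : Real.exp (β * (J - j : ℕ)) * (j:ℝ)⁻¹ * ‖g ((t:ℂ) • z)‖ ≤ Q := by
      rw [hQ]
      calc _ = ((Real.exp (β * (J - j : ℕ)) * (j:ℝ)⁻¹ * ‖g ((t:ℂ) • z)‖) ^ p) ^ (p⁻¹) := by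
            rw [← Real.rpow_mul (by positivity), mul_inv_cancel₀ hp.ne', Real.rpow_one]
        _ ≤ d ^ (p⁻¹) := by gcongr
    have h14 : ‖g ((t:ℂ) • z)‖ ≤ j * Real.exp (-(β * (J - j : ℕ))) * Q := by
      have h15 : ‖g ((t:ℂ) • z)‖ = j * Real.exp (-(β * (J - j : ℕ))) *
          (Real.exp (β * (J - j : ℕ)) * (j:ℝ)⁻¹ * ‖g ((t:ℂ) • z)‖) := by
        rw [Real.exp_neg]
        field_simp
      rw [h15]
      gcongr
    have h16 : ((J - j : ℕ) : ℝ) = J - j := by rw [Nat.cast_sub hjJ]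
    have h17 : Real.exp (-(β * (J - j : ℕ))) ≤ Real.exp β * Real.exp (-(β * ‖z‖ ^ 2 * (1 - t ^ 2))) := by
      rw [← Real.exp_add]
      apply Real.exp_le_exp.2
      rw [h16]
      have h18 : ‖z‖ ^ 2 * (1 - t ^ 2) = ‖z‖ ^ 2 - s := by rw [hs]; ring
      have h19 : β * ‖z‖ ^ 2 * (1 - t ^ 2) = β * (‖z‖ ^ 2 - s) := by rw [mul_assoc, h18]
      rw [h19]
      have h20 : ‖z‖ ^ 2 - s ≤ (J - j) + 1 := by linarith [hz.2]
      nlinarith
    calc ‖g ((t:ℂ) • z)‖ ≤ j * Real.exp (-(β * (J - j : ℕ))) * Q := h14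
      _ ≤ s * (Real.exp β * Real.exp (-(β * ‖z‖ ^ 2 * (1 - t ^ 2)))) * Q := by gcongr
      _ = _ := by rw [hs]; ring
  -- growth
  have hB : ∀ t : ℝ, HasDerivAt (fun t : ℝ => Real.exp β * Q / (2 * β) * Real.exp (-(β * ‖z‖ ^ 2 * (1 - t ^ 2))))
      (Real.exp β * Q * (t * ‖z‖ ^ 2 * Real.exp (-(β * ‖z‖ ^ 2 * (1 - t ^ 2))))) t := by
    intro t
    have h1 : HasDerivAt (fun t : ℝ => -(β * ‖z‖ ^ 2 * (1 - t ^ 2))) (2 * β * ‖z‖ ^ 2 * t) t := by
      have := (((hasDerivAt_pow 2 t).const_sub 1).const_mul (β * ‖z‖ ^ 2)).neg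
      convert! this using 1
      simp
      ring
    have h2 := h1.exp.const_mul (Real.exp β * Q / (2 * β))
    convert! h2 using 1
    field_simp
  have hgr := growth hf z (1 / ‖z‖) (by positivity) (by rw [div_le_one hr0]; exact hr1) _ _ hB hray
  have hunit : ‖f (((1 / ‖z‖ : ℝ) : ℂ) • z)‖ ≤ M := by
    apply hM1
    rw [norm_smul, Complex.norm_real, Real.norm_of_nonneg (by positivity)]
    field_simp
  have hfz : ‖f z‖ ≤ M + Real.exp β / (2 * β) * Q := by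
    have h1 : ‖f z‖ ≤ ‖f z - f (((1 / ‖z‖ : ℝ) : ℂ) • z)‖ + ‖f (((1 / ‖z‖ : ℝ) : ℂ) • z)‖ := by
      simpa using norm_add_le (f z - f (((1 / ‖z‖ : ℝ) : ℂ) • z)) (f (((1 / ‖z‖ : ℝ) : ℂ) • z))
    have h2 : Real.exp β * Q / (2 * β) * Real.exp (-(β * ‖z‖ ^ 2 * (1 - 1 ^ 2))) = Real.exp β / (2 * β) * Q := by
      simp
      ring
    have h3 : 0 ≤ Real.exp β * Q / (2 * β) * Real.exp (-(β * ‖z‖ ^ 2 * (1 - (1 / ‖z‖) ^ 2))) := by positivity
    rw [h2] at hgr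
    linarith
  rw [enorm_rpow _ _ hp, hDd, ← ENNReal.ofReal_mul (by positivity), ← ENNReal.ofReal_add (by positivity) (by positivity),
    ← ENNReal.ofReal_mul (by positivity)]
  apply ENNReal.ofReal_le_ofReal
  set K := Real.exp β / (2 * β) with hK
  have hK0 : 0 < K := by positivity
  have hdQ : d = Q ^ p := by
    rw [hQ, ← Real.rpow_mul hd0, inv_mul_cancel₀ hp.ne', Real.rpow_one]
  calc ‖f z‖ ^ p ≤ (M + K * Q) ^ p := by gcongr
    _ ≤ (2 * max M (K * Q)) ^ p := by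
        gcongr
        have := le_max_left M (K * Q)
        have := le_max_right M (K * Q)
        linarith
    _ = 2 ^ p * (max M (K * Q)) ^ p := by rw [Real.mul_rpow (by norm_num) (by positivity)]
    _ ≤ 2 ^ p * (M ^ p + K ^ p * d) := by
        gcongr
        rw [hdQ, ← Real.mul_rpow hK0.le hQ0]
        rcases max_cases M (K * Q) with ⟨h, _⟩ | ⟨h, _⟩
        · rw [h]
          have : 0 ≤ (K * Q) ^ p := by positivity
          linarith
        · rw [h]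
          have : 0 ≤ M ^ p := by positivity
          linarith

end Pool.Agent.Q172.Fock
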