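import Mathlib
import Pool.Agent.Q172.FockD

open MeasureTheory Set Metric Filter Topology
open scoped ENNReal

namespace Pool.Agent.Q172.Fock

variable {n : ℕ} {f g : Cn n → ℂ}

/-- the summable sequence -/
noncomputable def th (n : ℕ) (β : ℝ) (i : ℕ) : ℝ≥0∞ := ENNReal.ofReal (((1:ℝ) + i) ^ n * Real.exp (-β * i))

theorem th_sum (n : ℕ) (β : ℝ) (hβ : 0 < β) : ∑' i, th n β i ≠ ⊤ := by
  have h1 := Real.summable_pow_mul_exp_neg_nat_mul n hβ
  have h2 : Summable (fun i : ℕ => ((1:ℝ) + i) ^ n * Real.exp (-β * i)) := by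
    have h3 := ((summable_nat_add_iff 1).2 h1).mul_left (Real.exp β)
    refine h3.congr fun i => ?_
    have e : Real.exp (-β * i) = Real.exp β * Real.exp (-β * ((i + 1 : ℕ) : ℝ)) := by
      rw [← Real.exp_add]; congr 1; push_cast; ring
    rw [e]
    push_cast
    ring
  unfold th
  rw [← ENNReal.ofReal_tsum_of_nonneg (fun i => by positivity) h2]
  exact ENNReal.ofReal_ne_top

/-- the coefficient estimate -/
theorem coef (n : ℕ) (κ p b : ℝ) (hκ : 0 ≤ κ) (hp : 0 < p) (hb : 0 < b) (j J : ℕ) (hj : 1 ≤ j) (hJ : j ≤ J) :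
    ((J:ℝ) ^ (-κ) * Real.exp (-b * J)) * ((Real.exp (p * (b / (2 * p)) * (J - j : ℕ)) * (j:ℝ) ^ (-p)) *
      ((2 ^ (2 * n) * ((cf j J) ^ (2 * n))⁻¹) * ((7 * j) ^ (κ + p) * Real.exp (b * (j + 5))))) ≤
    (2 ^ (2 * n) * 7 ^ (κ + p) * Real.exp (5 * b)) * (((1:ℝ) + (J - j : ℕ)) ^ n * Real.exp (-(b / 2) * (J - j : ℕ))) := by
  have hj0 : (0:ℝ) < j := by exact_mod_cast hj
  have hj1 : (1:ℝ) ≤ j := by exact_mod_cast hj
  have hJ0 : (0:ℝ) < J := by exact_mod_cast (by omega : 0 < J)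
  have hjJ : (j:ℝ) ≤ J := by exact_mod_cast hJ
  have e0 : ((J - j : ℕ) : ℝ) = J - j := by rw [Nat.cast_sub hJ]
  have e1 : ((cf j J) ^ (2 * n))⁻¹ = ((J:ℝ) / j) ^ n := by
    unfold cf
    rw [pow_mul, Real.sq_sqrt (by positivity), ← inv_pow, inv_div]
  have e2 : (7 * (j:ℝ)) ^ (κ + p) = 7 ^ (κ + p) * ((j:ℝ) ^ κ * (j:ℝ) ^ p) := by
    rw [Real.mul_rpow (by norm_num) hj0.le, Real.rpow_add hj0]
  have e3 : (j:ℝ) ^ (-p) * (j:ℝ) ^ p = 1 := by rw [← Real.rpow_add hj0]; simp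
  have e4 : (J:ℝ) ^ (-κ) * (j:ℝ) ^ κ ≤ 1 := by
    have h1 : (j:ℝ) ^ κ ≤ (J:ℝ) ^ κ := by gcongr
    calc (J:ℝ) ^ (-κ) * (j:ℝ) ^ κ ≤ (J:ℝ) ^ (-κ) * (J:ℝ) ^ κ := by gcongr
      _ = 1 := by rw [← Real.rpow_add hJ0]; simp
  have e5 : ((J:ℝ) / j) ^ n ≤ ((1:ℝ) + (J - j : ℕ)) ^ n := by
    gcongr
    rw [div_le_iff₀ hj0, e0]
    nlinarith
  have e6 : Real.exp (-b * J) * Real.exp (p * (b / (2 * p)) * (J - j : ℕ)) * Real.exp (b * (j + 5)) =
      Real.exp (5 * b) * Real.exp (-(b / 2) * (J - j : ℕ)) := by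
    rw [← Real.exp_add, ← Real.exp_add, ← Real.exp_add, e0]
    congr 1
    field_simp
    ring
  rw [e1, e2]
  calc ((J:ℝ) ^ (-κ) * Real.exp (-b * J)) * ((Real.exp (p * (b / (2 * p)) * (J - j : ℕ)) * (j:ℝ) ^ (-p)) *
      ((2 ^ (2 * n) * ((J:ℝ) / j) ^ n) * ((7 ^ (κ + p) * ((j:ℝ) ^ κ * (j:ℝ) ^ p)) * Real.exp (b * (j + 5)))))
      = ((J:ℝ) ^ (-κ) * (j:ℝ) ^ κ) * ((j:ℝ) ^ (-p) * (j:ℝ) ^ p) * (2 ^ (2 * n) * 7 ^ (κ + p)) *
        ((J:ℝ) / j) ^ n * (Real.exp (-b * J) * Real.exp (p * (b / (2 * p)) * (J - j : ℕ)) * Real.exp (b * (j + 5))) := by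
        ring
    _ ≤ 1 * 1 * (2 ^ (2 * n) * 7 ^ (κ + p)) * ((1:ℝ) + (J - j : ℕ)) ^ n *
        (Real.exp (5 * b) * Real.exp (-(b / 2) * (J - j : ℕ))) := by
        rw [e6, e3]
        gcongr
    _ = _ := by ring

theorem wt_shell (κ b : ℝ) (hκ : 0 ≤ κ) (hb : 0 < b) (J : ℕ) (hJ : 1 ≤ J) (z : Cn n) (hz : z ∈ Sh n J) :
    wt κ b z ≤ (J:ℝ) ^ (-κ) * Real.exp (-b * J) := by
  have hJ0 : (0:ℝ) < J := by exact_mod_cast (by omega : 0 < J)
  unfold wt
  obtain ⟨h1, h2⟩ := hz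
  have h3 : (1 + ‖z‖ ^ 2) ^ (-κ) ≤ (J:ℝ) ^ (-κ) :=
    Real.rpow_le_rpow_of_nonpos hJ0 (by linarith) (by linarith)
  have h4 : Real.exp (-b * ‖z‖ ^ 2) ≤ Real.exp (-b * J) := by
    apply Real.exp_le_exp.2
    nlinarith
  gcongr

theorem ofReal_mul4 (A B C D : ℝ) (hA : 0 ≤ A) (hB : 0 ≤ B) (hC : 0 ≤ C) :
    ENNReal.ofReal (A * (B * (C * D))) = ENNReal.ofReal A * (ENNReal.ofReal B *
      (ENNReal.ofReal C * ENNReal.ofReal D)) := by
  rw [ENNReal.ofReal_mul hA, ENNReal.ofReal_mul hB, ENNReal.ofReal_mul hC]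

theorem meas_rpow (hg : Differentiable ℂ g) (p : ℝ) : Measurable (fun w => ‖g w‖ₑ ^ p) :=
  ((ENNReal.continuous_rpow_const).comp hg.continuous.enorm).measurable

theorem meas_Phi (hg : Differentiable ℂ g) (p : ℝ) (j : ℕ) (c : ℝ) : Measurable (Phi g p j c) := by
  unfold Phi
  apply Measurable.const_mul
  apply Measurable.lintegral_prod_right'
    (f := fun q : Cn n × Cn n => ‖g (c • q.1 + q.2)‖ₑ ^ p)
  apply (meas_rpow hg p).comp
  fun_prop

/-- the shell estimate for the majorant -/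
theorem shell_DD (hg : Differentiable ℂ g) (κ p b : ℝ) (hκ : 0 ≤ κ) (hp : 0 < p) (hb : 0 < b) (J : ℕ)
    (hJ : 1 ≤ J) :
    ∫⁻ z in Sh n J, DD g p (b / (2 * p)) J z * ENNReal.ofReal (wt κ b z) ≤
      ENNReal.ofReal (2 ^ (2 * n) * 7 ^ (κ + p) * Real.exp (5 * b)) *
      ∑ j ∈ Finset.Icc 1 J, th n (b / 2) (J - j) *
        ∫⁻ w in Th n j, ‖g w‖ₑ ^ p * ENNReal.ofReal (wt (κ + p) b w) := by
  calc ∫⁻ z in Sh n J, DD g p (b / (2 * p)) J z * ENNReal.ofReal (wt κ b z)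
      ≤ ∫⁻ z in Sh n J, DD g p (b / (2 * p)) J z * ENNReal.ofReal ((J:ℝ) ^ (-κ) * Real.exp (-b * J)) := by
        apply setLIntegral_mono' (measurableSet_Sh n J)
        intro z hz
        gcongr
        exact wt_shell κ b hκ hb J hJ z hz
    _ = ENNReal.ofReal ((J:ℝ) ^ (-κ) * Real.exp (-b * J)) * ∑ j ∈ Finset.Icc 1 J,
          ENNReal.ofReal (Real.exp (p * (b / (2 * p)) * (J - j : ℕ)) * (j:ℝ) ^ (-p)) *
          ∫⁻ z in Sh n J, Phi g p j (cf j J) z := by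
        rw [lintegral_mul_const' _ _ ENNReal.ofReal_ne_top, mul_comm]
        congr 1
        unfold DD
        rw [lintegral_finsetSum _ (fun j _ => (meas_Phi hg p j _).const_mul _)]
        refine Finset.sum_congr rfl fun j _ => ?_
        rw [lintegral_const_mul _ (meas_Phi hg p j _)]
    _ ≤ ENNReal.ofReal ((J:ℝ) ^ (-κ) * Real.exp (-b * J)) * ∑ j ∈ Finset.Icc 1 J,
          ENNReal.ofReal (Real.exp (p * (b / (2 * p)) * (J - j : ℕ)) * (j:ℝ) ^ (-p)) *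
          (ENNReal.ofReal (2 ^ (2 * n) * ((cf j J) ^ (2 * n))⁻¹) *
            (ENNReal.ofReal ((7 * j) ^ (κ + p) * Real.exp (b * (j + 5))) *
              ∫⁻ w in Th n j, ‖g w‖ₑ ^ p * ENNReal.ofReal (wt (κ + p) b w))) := by
        gcongr with j hj
        have hj1 := (Finset.mem_Icc.1 hj).1
        have hjJ := (Finset.mem_Icc.1 hj).2
        have hj0 : (0:ℝ) < j := by exact_mod_cast hj1
        have hJ0 : (0:ℝ) < J := by exact_mod_cast (by omega : 0 < J)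
        have hc : 0 < cf j J := by unfold cf; positivity
        refine (int_Phi hg p j hj1 (Sh n J) (measurableSet_Sh n J) (cf j J) hc
          (fun z hz => (cf_bounds j J hj1 hjJ z hz).1) (fun z hz => (cf_bounds j J hj1 hjJ z hz).2)).trans ?_
        gcongr
        exact Th_weight _ (κ + p) b (by positivity) hb j hj1
    _ = ∑ j ∈ Finset.Icc 1 J, ENNReal.ofReal (((J:ℝ) ^ (-κ) * Real.exp (-b * J)) *
          ((Real.exp (p * (b / (2 * p)) * (J - j : ℕ)) * (j:ℝ) ^ (-p)) *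
          ((2 ^ (2 * n) * ((cf j J) ^ (2 * n))⁻¹) * ((7 * j) ^ (κ + p) * Real.exp (b * (j + 5)))))) *
              ∫⁻ w in Th n j, ‖g w‖ₑ ^ p * ENNReal.ofReal (wt (κ + p) b w) := by
        rw [Finset.mul_sum]
        refine Finset.sum_congr rfl fun j _ => ?_
        have hc : 0 ≤ cf j J := by unfold cf; positivity
        rw [ofReal_mul4 _ _ _ _ (by positivity) (by positivity) (by positivity)]
        ring
    _ ≤ ∑ j ∈ Finset.Icc 1 J, (ENNReal.ofReal (2 ^ (2 * n) * 7 ^ (κ + p) * Real.exp (5 * b)) *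
          th n (b / 2) (J - j)) * ∫⁻ w in Th n j, ‖g w‖ₑ ^ p * ENNReal.ofReal (wt (κ + p) b w) := by
        gcongr with j hj
        have hj1 := (Finset.mem_Icc.1 hj).1
        have hjJ := (Finset.mem_Icc.1 hj).2
        unfold th
        rw [← ENNReal.ofReal_mul (by positivity)]
        exact ENNReal.ofReal_le_ofReal (coef n κ p b hκ hp hb j J hj1 hjJ)
    _ = _ := by
        rw [Finset.mul_sum]
        refine Finset.sum_congr rfl fun j _ => ?_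
        ring

/-- the reverse implication for finite exponents, one step -/
theorem rev_step (hf : Differentiable ℂ f) (κ p b : ℝ) (hκ : 0 ≤ κ) (hp : 0 < p) (hb : 0 < b)
    (h : ∫⁻ w, ‖Rad f w‖ₑ ^ p * ENNReal.ofReal (wt (κ + p) b w) ≠ ⊤) :
    ∫⁻ z, ‖f z‖ₑ ^ p * ENNReal.ofReal (wt κ b z) ≠ ⊤ := by
  set g := Rad f with hg
  have hgd : Differentiable ℂ g := Rad_diff hf
  obtain ⟨M, hM⟩ := (isCompact_closedBall (0:Cn n) 1).exists_bound_of_continuousOn hf.continuous.continuousOn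
  set M' := max M 0 with hM'
  have hM0 : 0 ≤ M' := le_max_right _ _
  have hM1 : ∀ w : Cn n, ‖w‖ ≤ 1 → ‖f w‖ ≤ M' := fun w hw => (hM w (by simpa using hw)).trans (le_max_left _ _)
  set β := b / (2 * p) with hβ
  have hβ0 : 0 < β := by positivity
  set C := ENNReal.ofReal (2 ^ (2 * n) * 7 ^ (κ + p) * Real.exp (5 * b)) with hC
  set a : ℕ → ℝ≥0∞ := fun j => ∫⁻ w in Th n j, ‖g w‖ₑ ^ p * ENNReal.ofReal (wt (κ + p) b w) with ha
  set K := ENNReal.ofReal ((Real.exp β / (2 * β)) ^ p) with hK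
  have hwm : ∀ κ : ℝ, Measurable (fun z : Cn n => ENNReal.ofReal (wt κ b z)) := fun κ =>
    (wt_cont κ b).measurable.ennreal_ofReal
  have hterm : ∀ J : ℕ, ∫⁻ z in Sh n J, ‖f z‖ₑ ^ p * ENNReal.ofReal (wt κ b z) ≤
      ENNReal.ofReal (M' ^ p) * (∫⁻ z in Sh n J, ENNReal.ofReal (wt κ b z)) +
      (ENNReal.ofReal (2 ^ p) * (ENNReal.ofReal (M' ^ p) * (∫⁻ z in Sh n J, ENNReal.ofReal (wt κ b z))) +
      ENNReal.ofReal (2 ^ p) * (K * (C * ∑ j ∈ Finset.Icc 1 J, th n (b / 2) (J - j) * a j))) := by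
    intro J
    by_cases hJ : J = 0
    · refine le_trans ?_ le_self_add
      rw [← lintegral_const_mul' _ _ ENNReal.ofReal_ne_top]
      apply setLIntegral_mono' (measurableSet_Sh n J)
      intro z hz
      have hz1 : ‖z‖ ≤ 1 := by
        have := hz.2
        rw [hJ, Nat.cast_zero, zero_add] at this
        nlinarith [norm_nonneg z]
      gcongr
      rw [enorm_rpow _ _ hp]
      apply ENNReal.ofReal_le_ofReal
      gcongr
      exact hM1 z hz1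
    · have hJ1 : 1 ≤ J := by omega
      refine le_trans ?_ le_add_self
      calc ∫⁻ z in Sh n J, ‖f z‖ₑ ^ p * ENNReal.ofReal (wt κ b z)
          ≤ ∫⁻ z in Sh n J, (ENNReal.ofReal (2 ^ p) * (ENNReal.ofReal (M' ^ p) * ENNReal.ofReal (wt κ b z)) +
            ENNReal.ofReal (2 ^ p) * (K * (DD g p β J z * ENNReal.ofReal (wt κ b z)))) := by
            apply setLIntegral_mono' (measurableSet_Sh n J)
            intro z hz
            calc ‖f z‖ₑ ^ p * ENNReal.ofReal (wt κ b z) ≤ (ENNReal.ofReal (2 ^ p) * (ENNReal.ofReal (M' ^ p) +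
                  K * DD g p β J z)) * ENNReal.ofReal (wt κ b z) := by
                  gcongr
                  exact pointwise hf p β M' hp hβ0 hM0 (fun w hw => hM1 w hw.le) J hJ1 z hz
              _ = _ := by ring
        _ = ENNReal.ofReal (2 ^ p) * (ENNReal.ofReal (M' ^ p) * (∫⁻ z in Sh n J, ENNReal.ofReal (wt κ b z))) +
            ENNReal.ofReal (2 ^ p) * (K * ∫⁻ z in Sh n J, DD g p β J z * ENNReal.ofReal (wt κ b z)) := by
            rw [lintegral_add_left (((hwm κ).const_mul _).const_mul _),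
              lintegral_const_mul' _ _ ENNReal.ofReal_ne_top, lintegral_const_mul' _ _ ENNReal.ofReal_ne_top,
              lintegral_const_mul' _ _ ENNReal.ofReal_ne_top, lintegral_const_mul' _ _ ENNReal.ofReal_ne_top]
        _ ≤ _ := by
            gcongr
            exact shell_DD hgd κ p b hκ hp hb J hJ1
  have hsum : ∑' j, a j ≤ 8 * ∫⁻ w, ‖g w‖ₑ ^ p * ENNReal.ofReal (wt (κ + p) b w) :=
    sum_Th _ ((meas_rpow hgd p).mul (hwm (κ + p)))
  have hwfin : ∫⁻ z : Cn n, ENNReal.ofReal (wt κ b z) ≠ ⊤ := (wt_int κ b hκ hb).ne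
  have htot : ∫⁻ z, ‖f z‖ₑ ^ p * ENNReal.ofReal (wt κ b z) ≤
      ENNReal.ofReal (M' ^ p) * (∫⁻ z : Cn n, ENNReal.ofReal (wt κ b z)) +
      (ENNReal.ofReal (2 ^ p) * (ENNReal.ofReal (M' ^ p) * (∫⁻ z : Cn n, ENNReal.ofReal (wt κ b z))) +
      ENNReal.ofReal (2 ^ p) * (K * (C * ((∑' i, th n (b / 2) i) *
        (8 * ∫⁻ w, ‖g w‖ₑ ^ p * ENNReal.ofReal (wt (κ + p) b w)))))) := by
    rw [lint_Sh]
    calc ∑' J, ∫⁻ z in Sh n J, ‖f z‖ₑ ^ p * ENNReal.ofReal (wt κ b z)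
        ≤ ∑' J, (ENNReal.ofReal (M' ^ p) * (∫⁻ z in Sh n J, ENNReal.ofReal (wt κ b z)) +
      (ENNReal.ofReal (2 ^ p) * (ENNReal.ofReal (M' ^ p) * (∫⁻ z in Sh n J, ENNReal.ofReal (wt κ b z))) +
      ENNReal.ofReal (2 ^ p) * (K * (C * ∑ j ∈ Finset.Icc 1 J, th n (b / 2) (J - j) * a j)))) :=
          ENNReal.tsum_le_tsum hterm
      _ = ENNReal.ofReal (M' ^ p) * (∫⁻ z : Cn n, ENNReal.ofReal (wt κ b z)) +
      (ENNReal.ofReal (2 ^ p) * (ENNReal.ofReal (M' ^ p) * (∫⁻ z : Cn n, ENNReal.ofReal (wt κ b z))) +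
      ENNReal.ofReal (2 ^ p) * (K * (C * ∑' J : ℕ, ∑ j ∈ Finset.Icc 1 J, th n (b / 2) (J - j) * a j))) := by
          rw [ENNReal.tsum_add, ENNReal.tsum_add, ENNReal.tsum_mul_left, ENNReal.tsum_mul_left,
            ENNReal.tsum_mul_left, ENNReal.tsum_mul_left, ENNReal.tsum_mul_left, ENNReal.tsum_mul_left,
            ← lint_Sh]
      _ ≤ _ := by
          gcongr
          refine (double_sum _ _).trans ?_
          gcongr
  refine ne_top_of_le_ne_top ?_ htot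
  have h1 := th_sum n (b / 2) (by positivity)
  have e1 : ENNReal.ofReal (M' ^ p) * (∫⁻ z : Cn n, ENNReal.ofReal (wt κ b z)) ≠ ⊤ :=
    ENNReal.mul_ne_top ENNReal.ofReal_ne_top hwfin
  have e2 : ENNReal.ofReal (2 ^ p) * (K * (C * ((∑' i, th n (b / 2) i) *
        (8 * ∫⁻ w, ‖g w‖ₑ ^ p * ENNReal.ofReal (wt (κ + p) b w))))) ≠ ⊤ :=
    ENNReal.mul_ne_top ENNReal.ofReal_ne_top (ENNReal.mul_ne_top ENNReal.ofReal_ne_top
      (ENNReal.mul_ne_top ENNReal.ofReal_ne_top (ENNReal.mul_ne_top h1 (ENNReal.mul_ne_top (by norm_num) h))))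
  exact ENNReal.add_ne_top.2 ⟨e1, ENNReal.add_ne_top.2 ⟨ENNReal.mul_ne_top ENNReal.ofReal_ne_top e1, e2⟩⟩

end Pool.Agent.Q172.Fock
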