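import Mathlib
import Pool.Agent.Q172.FockE

open MeasureTheory Set Metric Filter Topology
open scoped ENNReal

namespace Pool.Agent.Q172.Fock

variable {n : ℕ} {f g : Cn n → ℂ}

/-- the radial derivative as a derivative in a complex parameter -/
theorem Rad_deriv (hf : Differentiable ℂ f) (z : Cn n) : deriv (fun l : ℂ => f (l • z)) 1 = Rad f z := by
  have h1 : HasDerivAt (fun l : ℂ => l • z) ((1:ℂ) • z) 1 := (hasDerivAt_id (1:ℂ)).smul_const z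
  have h2 : HasFDerivAt f (fderiv ℂ f ((1:ℂ) • z)) ((1:ℂ) • z) := (hf _).hasFDerivAt
  have h3 := (h2.comp_hasDerivAt (1:ℂ) h1).deriv
  rw [Rad_eq]
  rw [one_smul] at h3
  exact h3

/-- Cauchy's estimate for the radial derivative -/
theorem Rad_cauchy (hf : Differentiable ℂ f) (z : Cn n) (ρ C : ℝ) (hρ : 0 < ρ)
    (h : ∀ l : ℂ, ‖l - 1‖ = ρ → ‖f (l • z)‖ ≤ C) : ‖Rad f z‖ ≤ C / ρ := by
  rw [← Rad_deriv hf z]
  apply Complex.norm_deriv_le_of_forall_mem_sphere_norm_le hρ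
  · have hd : Differentiable ℂ (fun l : ℂ => f (l • z)) := fun l =>
      (hf _).comp l (differentiableAt_id.smul_const z)
    exact hd.diffContOnCl
  · intro l hl
    exact h l (by simpa [dist_eq_norm] using hl)

theorem mem_Th_zero (J : ℕ) (z ξ : Cn n) (hz : z ∈ Sh n J)
    (hξ : ‖ξ‖ < 2 * (1 / (2 * Real.sqrt ((J + 1 : ℕ) : ℝ)))) : z + ξ ∈ Th n J := by
  have hj0 : (0:ℝ) < ((J + 1 : ℕ) : ℝ) := by positivity
  have hj1 : (1:ℝ) ≤ ((J + 1 : ℕ) : ℝ) := by push_cast; linarith [(Nat.cast_nonneg J : (0:ℝ) ≤ J)]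
  have hs := Real.sqrt_pos.2 hj0
  have hs2 : Real.sqrt ((J + 1 : ℕ) : ℝ) ^ 2 = J + 1 := by rw [Real.sq_sqrt hj0.le]; push_cast; ring
  have hs1 : 1 ≤ Real.sqrt ((J + 1 : ℕ) : ℝ) := Real.one_le_sqrt.2 hj1
  set s := Real.sqrt ((J + 1 : ℕ) : ℝ) with hsdef
  set q := 1 / s with hq
  have e1 : 2 * (1 / (2 * s)) = q := by rw [hq]; field_simp
  rw [e1] at hξ
  have hq0 : 0 < q := by positivity
  have hsq : s * q = 1 := by rw [hq]; field_simp
  have hq1 : q ≤ 1 := by rw [hq, div_le_one hs]; exact hs1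
  have hn := norm_nonneg ξ
  have hnz := norm_nonneg z
  obtain ⟨h3, h4⟩ := hz
  have hzs : ‖z‖ ≤ s := by
    have : ‖z‖ ^ 2 ≤ s ^ 2 := by rw [hs2]; exact h4.le
    exact le_of_sq_le_sq this hs.le
  have hzq : ‖z‖ * q ≤ 1 := by rw [← hsq]; gcongr
  have hup : ‖z + ξ‖ ≤ ‖z‖ + q := (norm_add_le _ _).trans (by linarith)
  have hlo : ‖z‖ - q ≤ ‖z + ξ‖ := by
    have := norm_sub_le_norm_add z ξ
    linarith
  constructor
  · by_cases h5 : q ≤ ‖z‖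
    · have h6 : (‖z‖ - q) ^ 2 ≤ ‖z + ξ‖ ^ 2 := by
        have : 0 ≤ ‖z‖ - q := by linarith
        gcongr
      nlinarith [sq_nonneg q]
    · have h7 : (J:ℝ) ≤ 1 := by nlinarith
      have h8 : 0 ≤ ‖z + ξ‖ ^ 2 := by positivity
      linarith
  · have h7 : ‖z + ξ‖ ^ 2 ≤ (‖z‖ + q) ^ 2 := by gcongr
    nlinarith

/-- comparison with the weight on a thick shell, all `J` -/
theorem Th_weight' (F : Cn n → ℝ≥0∞) (κ b : ℝ) (hκ : 0 ≤ κ) (hb : 0 < b) (J : ℕ) :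
    ∫⁻ w in Th n J, F w ≤ ENNReal.ofReal ((6 * (J + 1)) ^ κ * Real.exp (b * (J + 5))) *
      ∫⁻ w in Th n J, F w * ENNReal.ofReal (wt κ b w) := by
  have hj0 : (0:ℝ) ≤ J := Nat.cast_nonneg J
  rw [← lintegral_const_mul' _ _ ENNReal.ofReal_ne_top]
  apply setLIntegral_mono' (measurableSet_Th n J)
  intro w hw
  obtain ⟨_, h2⟩ := hw
  have h3 : 1 ≤ (6 * ((J:ℝ) + 1)) ^ κ * Real.exp (b * (J + 5)) * wt κ b w := by
    unfold wt
    have h4 : (1 + ‖w‖ ^ 2) ≤ 6 * ((J:ℝ) + 1) := by linarith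
    have h5 : 0 < 1 + ‖w‖ ^ 2 := by positivity
    have h6 : (6 * ((J:ℝ) + 1)) ^ (-κ) ≤ (1 + ‖w‖ ^ 2) ^ (-κ) :=
      Real.rpow_le_rpow_of_nonpos h5 h4 (by linarith)
    have h7 : Real.exp (-b * (J + 5)) ≤ Real.exp (-b * ‖w‖ ^ 2) := by
      apply Real.exp_le_exp.2
      nlinarith
    calc (1:ℝ) = (6 * ((J:ℝ) + 1)) ^ κ * Real.exp (b * (J + 5)) * ((6 * ((J:ℝ) + 1)) ^ (-κ) * Real.exp (-b * (J + 5))) := by
          have e1 : (6 * ((J:ℝ) + 1)) ^ κ * (6 * ((J:ℝ) + 1)) ^ (-κ) = 1 := by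
            rw [← Real.rpow_add (by positivity)]; simp
          have e2 : Real.exp (b * (J + 5)) * Real.exp (-b * (J + 5)) = 1 := by
            rw [← Real.exp_add]; simp
          calc (1:ℝ) = ((6 * ((J:ℝ) + 1)) ^ κ * (6 * ((J:ℝ) + 1)) ^ (-κ)) *
                (Real.exp (b * (J + 5)) * Real.exp (-b * (J + 5))) := by
                rw [e1, e2, one_mul]
            _ = _ := by ring
      _ ≤ _ := by gcongr
  calc F w = F w * ENNReal.ofReal 1 := by simp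
    _ ≤ F w * ENNReal.ofReal ((6 * ((J:ℝ) + 1)) ^ κ * Real.exp (b * (J + 5)) * wt κ b w) := by gcongr
    _ = _ := by
        rw [ENNReal.ofReal_mul (by positivity)]
        ring

theorem fwd_pointwise (hf : Differentiable ℂ f) (p : ℝ) (hp : 0 < p) (J : ℕ) (z : Cn n) (hz : z ∈ Sh n J) :
    ‖Rad f z‖ₑ ^ p ≤ ENNReal.ofReal ((2 * ((J:ℝ) + 1)) ^ p) * Phi f p (J + 1) 1 z := by
  have hj0 : (0:ℝ) < ((J + 1 : ℕ) : ℝ) := by positivity
  have hs := Real.sqrt_pos.2 hj0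
  set s := Real.sqrt ((J + 1 : ℕ) : ℝ) with hsdef
  have hs2 : s ^ 2 = J + 1 := by rw [hsdef, Real.sq_sqrt hj0.le]; push_cast; ring
  have hzs : ‖z‖ ≤ s := by
    have : ‖z‖ ^ 2 ≤ s ^ 2 := by rw [hs2]; exact hz.2.le
    exact le_of_sq_le_sq this hs.le
  set P := Phi f p (J + 1) 1 z with hP
  have hJ1 : (0:ℝ) < (J:ℝ) + 1 := by positivity
  by_cases hPt : P = ⊤
  · rw [hPt, ENNReal.mul_top]
    · exact le_top
    · rw [Ne, ENNReal.ofReal_eq_zero, not_le]; positivity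
  set d := P.toReal with hd
  have hd0 : 0 ≤ d := ENNReal.toReal_nonneg
  have hPd : P = ENNReal.ofReal d := (ENNReal.ofReal_toReal hPt).symm
  have hsph : ∀ l : ℂ, ‖l - 1‖ = 1 / (2 * ((J:ℝ) + 1)) → ‖f (l • z)‖ ≤ d ^ (p⁻¹) := by
    intro l hl
    have h1 : ‖l • z - (1:ℝ) • z‖ ≤ 1 / (2 * s) := by
      have e : l • z - (1:ℝ) • z = (l - 1) • z := by rw [sub_smul, one_smul, one_smul]
      rw [e, norm_smul, hl]
      calc 1 / (2 * ((J:ℝ) + 1)) * ‖z‖ ≤ 1 / (2 * ((J:ℝ) + 1)) * s := by gcongr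
        _ = 1 / (2 * s) := by rw [← hs2]; field_simp
    have h2 := submean_near hf (l • z) ((1:ℝ) • z) (1 / (2 * s)) h1 p hp
    have h3 : ‖f (l • z)‖ₑ ^ p ≤ P := by
      rw [hP]
      unfold Phi
      rw [mul_comm, ← div_eq_mul_inv, ENNReal.le_div_iff_mul_le (Or.inl (Vj_pos (J+1) (by omega))) (Or.inl (Vj_fin (J+1)))]
      exact h2
    rw [hPd, enorm_rpow _ _ hp, ENNReal.ofReal_le_ofReal_iff hd0] at h3
    calc ‖f (l • z)‖ = (‖f (l • z)‖ ^ p) ^ (p⁻¹) := by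
          rw [← Real.rpow_mul (norm_nonneg _), mul_inv_cancel₀ hp.ne', Real.rpow_one]
      _ ≤ d ^ (p⁻¹) := by gcongr
  have h4 := Rad_cauchy hf z _ _ (by positivity) hsph
  rw [hPd, enorm_rpow _ _ hp, ← ENNReal.ofReal_mul (by positivity)]
  apply ENNReal.ofReal_le_ofReal
  have h5 : ‖Rad f z‖ ≤ 2 * ((J:ℝ) + 1) * d ^ (p⁻¹) := by
    calc ‖Rad f z‖ ≤ d ^ (p⁻¹) / (1 / (2 * ((J:ℝ) + 1))) := h4
      _ = _ := by field_simp
  calc ‖Rad f z‖ ^ p ≤ (2 * ((J:ℝ) + 1) * d ^ (p⁻¹)) ^ p := by gcongr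
    _ = (2 * ((J:ℝ) + 1)) ^ p * d := by
        rw [Real.mul_rpow (by positivity) (by positivity), ← Real.rpow_mul hd0, inv_mul_cancel₀ hp.ne', Real.rpow_one]

/-- the forward implication for finite exponents, one step -/
theorem fwd_step (hf : Differentiable ℂ f) (κ p b : ℝ) (hκ : 0 ≤ κ) (hp : 0 < p) (hb : 0 < b)
    (h : ∫⁻ z, ‖f z‖ₑ ^ p * ENNReal.ofReal (wt κ b z) ≠ ⊤) :
    ∫⁻ w, ‖Rad f w‖ₑ ^ p * ENNReal.ofReal (wt (κ + p) b w) ≠ ⊤ := by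
  set C := ENNReal.ofReal (2 ^ p * 2 ^ (2 * n) * 6 ^ κ * Real.exp (5 * b)) with hC
  have hterm : ∀ J : ℕ, ∫⁻ z in Sh n J, ‖Rad f z‖ₑ ^ p * ENNReal.ofReal (wt (κ + p) b z) ≤
      C * ∫⁻ w in Th n J, ‖f w‖ₑ ^ p * ENNReal.ofReal (wt κ b w) := by
    intro J
    have hJ0 : (0:ℝ) < (J:ℝ) + 1 := by positivity
    have hF : Measurable (fun w => ‖f w‖ₑ ^ p) := meas_rpow hf p
    calc ∫⁻ z in Sh n J, ‖Rad f z‖ₑ ^ p * ENNReal.ofReal (wt (κ + p) b z)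
        ≤ ∫⁻ z in Sh n J, (ENNReal.ofReal ((2 * ((J:ℝ) + 1)) ^ p) * Phi f p (J + 1) 1 z) *
            ENNReal.ofReal (((J:ℝ) + 1) ^ (-(κ + p)) * Real.exp (-b * J)) := by
          apply setLIntegral_mono' (measurableSet_Sh n J)
          intro z hz
          gcongr
          · exact fwd_pointwise hf p hp J z hz
          · unfold wt
            obtain ⟨h1, h2⟩ := hz
            have h3 : (1 + ‖z‖ ^ 2) ^ (-(κ + p)) ≤ ((J:ℝ) + 1) ^ (-(κ + p)) :=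
              Real.rpow_le_rpow_of_nonpos hJ0 (by linarith) (by linarith)
            have h4 : Real.exp (-b * ‖z‖ ^ 2) ≤ Real.exp (-b * J) := by
              apply Real.exp_le_exp.2
              nlinarith
            gcongr
      _ = ENNReal.ofReal ((2 * ((J:ℝ) + 1)) ^ p) * ((∫⁻ z in Sh n J, Phi f p (J + 1) 1 z) *
            ENNReal.ofReal (((J:ℝ) + 1) ^ (-(κ + p)) * Real.exp (-b * J))) := by
          rw [lintegral_mul_const' _ _ ENNReal.ofReal_ne_top, lintegral_const_mul' _ _ ENNReal.ofReal_ne_top,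
            mul_assoc]
      _ ≤ ENNReal.ofReal ((2 * ((J:ℝ) + 1)) ^ p) * ((ENNReal.ofReal (2 ^ (2 * n)) *
            (ENNReal.ofReal ((6 * (J + 1)) ^ κ * Real.exp (b * (J + 5))) *
            ∫⁻ w in Th n J, ‖f w‖ₑ ^ p * ENNReal.ofReal (wt κ b w))) *
            ENNReal.ofReal (((J:ℝ) + 1) ^ (-(κ + p)) * Real.exp (-b * J))) := by
          gcongr
          have hm : Measurable (fun z => ∫⁻ ξ in ball (0:Cn n) (2 * (1 / (2 * Real.sqrt ((J + 1 : ℕ) : ℝ)))),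
              ‖f ((1:ℝ) • z + ξ)‖ₑ ^ p) := by
            apply Measurable.lintegral_prod_right'
              (f := fun q : Cn n × Cn n => ‖f ((1:ℝ) • q.1 + q.2)‖ₑ ^ p)
            apply hF.comp
            fun_prop
          unfold Phi
          rw [lintegral_const_mul _ hm]
          have h := lint_double (Sh n J) (Th n J) (measurableSet_Sh n J) (measurableSet_Th n J) 1
            (2 * (1 / (2 * Real.sqrt ((J + 1 : ℕ) : ℝ)))) one_pos (fun w => ‖f w‖ₑ ^ p) hF ?_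
          · calc (Vj n (J+1))⁻¹ * ∫⁻ z in Sh n J, ∫⁻ ξ in ball (0:Cn n) (2 * (1 / (2 * Real.sqrt ((J + 1 : ℕ) : ℝ)))),
                  ‖f ((1:ℝ) • z + ξ)‖ₑ ^ p
                ≤ (Vj n (J+1))⁻¹ * (volume (ball (0:Cn n) (2 * (1 / (2 * Real.sqrt ((J + 1 : ℕ) : ℝ))))) *
                  (ENNReal.ofReal (((1:ℝ) ^ (2 * n))⁻¹) * ∫⁻ w in Th n J, ‖f w‖ₑ ^ p)) := by gcongr
              _ = ((Vj n (J+1))⁻¹ * Vj n (J+1)) * (ENNReal.ofReal (2 ^ (2 * n))) *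
                  ∫⁻ w in Th n J, ‖f w‖ₑ ^ p := by
                  rw [vol_double]
                  unfold Vj
                  rw [one_pow, inv_one, ENNReal.ofReal_one, one_mul]
                  ring
              _ = ENNReal.ofReal (2 ^ (2 * n)) * ∫⁻ w in Th n J, ‖f w‖ₑ ^ p := by
                  rw [ENNReal.inv_mul_cancel (Vj_pos (J+1) (by omega)) (Vj_fin (J+1)), one_mul]
              _ ≤ _ := by
                  gcongr
                  exact Th_weight' _ κ b hκ hb J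
          · intro z hz ξ hξ
            rw [one_smul]
            exact mem_Th_zero J z ξ hz (by simpa using hξ)
      _ = ENNReal.ofReal ((2 * ((J:ℝ) + 1)) ^ p * (2 ^ (2 * n) * ((6 * (J + 1)) ^ κ * Real.exp (b * (J + 5)) *
            (((J:ℝ) + 1) ^ (-(κ + p)) * Real.exp (-b * J))))) *
            ∫⁻ w in Th n J, ‖f w‖ₑ ^ p * ENNReal.ofReal (wt κ b w) := by
          rw [ofReal_mul4 _ _ _ _ (by positivity) (by positivity) (by positivity)]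
          ring
      _ ≤ _ := by
          gcongr
          rw [hC]
          apply ENNReal.ofReal_le_ofReal
          apply le_of_eq
          rw [Real.mul_rpow (by norm_num) hJ0.le, Real.mul_rpow (by norm_num) hJ0.le]
          have e1 : ((J:ℝ) + 1) ^ p * ((J:ℝ) + 1) ^ κ * ((J:ℝ) + 1) ^ (-(κ + p)) = 1 := by
            rw [← Real.rpow_add hJ0, ← Real.rpow_add hJ0]
            have : p + κ + -(κ + p) = 0 := by ring
            rw [this, Real.rpow_zero]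
          have e2 : Real.exp (b * (J + 5)) * Real.exp (-b * J) = Real.exp (5 * b) := by
            rw [← Real.exp_add]; congr 1; ring
          calc 2 ^ p * ((J:ℝ) + 1) ^ p * (2 ^ (2 * n) * (6 ^ κ * ((J:ℝ) + 1) ^ κ * Real.exp (b * (J + 5)) *
                (((J:ℝ) + 1) ^ (-(κ + p)) * Real.exp (-b * J))))
              = (2 ^ p * 2 ^ (2 * n) * 6 ^ κ) * (((J:ℝ) + 1) ^ p * ((J:ℝ) + 1) ^ κ * ((J:ℝ) + 1) ^ (-(κ + p))) *
                (Real.exp (b * (J + 5)) * Real.exp (-b * J)) := by ring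
            _ = _ := by rw [e1, e2]; ring
  have hwm : Measurable (fun z : Cn n => ENNReal.ofReal (wt κ b z)) :=
    (wt_cont κ b).measurable.ennreal_ofReal
  have htot : ∫⁻ w, ‖Rad f w‖ₑ ^ p * ENNReal.ofReal (wt (κ + p) b w) ≤
      C * (8 * ∫⁻ z, ‖f z‖ₑ ^ p * ENNReal.ofReal (wt κ b z)) := by
    rw [lint_Sh]
    calc ∑' J, ∫⁻ z in Sh n J, ‖Rad f z‖ₑ ^ p * ENNReal.ofReal (wt (κ + p) b z)
        ≤ ∑' J, C * ∫⁻ w in Th n J, ‖f w‖ₑ ^ p * ENNReal.ofReal (wt κ b w) := ENNReal.tsum_le_tsum hterm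
      _ = C * ∑' J, ∫⁻ w in Th n J, ‖f w‖ₑ ^ p * ENNReal.ofReal (wt κ b w) := ENNReal.tsum_mul_left
      _ ≤ _ := by
          gcongr
          exact sum_Th _ ((meas_rpow hf p).mul hwm)
  exact ne_top_of_le_ne_top (ENNReal.mul_ne_top ENNReal.ofReal_ne_top (ENNReal.mul_ne_top (by norm_num) h)) htot

/-- the reverse implication for bounded growth -/
theorem rev_inf (hf : Differentiable ℂ f) (a : ℝ) (ha : 0 < a) (m : ℕ)
    (h : ∃ C : ℝ, ∀ z, ‖Rad f z‖ ≤ C * ((1 + ‖z‖ ^ 2) ^ (m + 1) * Real.exp (a * ‖z‖ ^ 2))) :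
    ∃ C : ℝ, ∀ z, ‖f z‖ ≤ C * ((1 + ‖z‖ ^ 2) ^ m * Real.exp (a * ‖z‖ ^ 2)) := by
  obtain ⟨C0, hC0⟩ := h
  set C := max C0 0 with hCdef
  have hC00 : 0 ≤ C := le_max_right _ _
  have hC : ∀ z, ‖Rad f z‖ ≤ C * ((1 + ‖z‖ ^ 2) ^ (m + 1) * Real.exp (a * ‖z‖ ^ 2)) := by
    intro z
    refine (hC0 z).trans ?_
    gcongr
    exact le_max_left _ _
  obtain ⟨M, hM⟩ := (isCompact_closedBall (0:Cn n) 1).exists_bound_of_continuousOn hf.continuous.continuousOn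
  set M' := max M 0 with hM'
  have hM0 : 0 ≤ M' := le_max_right _ _
  have hM1 : ∀ w : Cn n, ‖w‖ ≤ 1 → ‖f w‖ ≤ M' := fun w hw => (hM w (by simpa using hw)).trans (le_max_left _ _)
  refine ⟨M' + C * 2 ^ (m + 1) / (2 * a), fun z => ?_⟩
  have hone : 1 ≤ (1 + ‖z‖ ^ 2) ^ m * Real.exp (a * ‖z‖ ^ 2) := by
    have h1 : 1 ≤ (1 + ‖z‖ ^ 2) ^ m := one_le_pow₀ (by have : 0 ≤ ‖z‖ ^ 2 := by positivity
                                                       linarith)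
    have h2 : 1 ≤ Real.exp (a * ‖z‖ ^ 2) := Real.one_le_exp (by positivity)
    nlinarith
  rcases le_total ‖z‖ 1 with hz | hz
  · calc ‖f z‖ ≤ M' * 1 := by rw [mul_one]; exact hM1 z hz
      _ ≤ (M' + C * 2 ^ (m + 1) / (2 * a)) * ((1 + ‖z‖ ^ 2) ^ m * Real.exp (a * ‖z‖ ^ 2)) := by
          gcongr
          have : 0 ≤ C * 2 ^ (m + 1) / (2 * a) := by positivity
          linarith
  · have hr0 : 0 < ‖z‖ := by linarith
    set A := C * 2 ^ (m + 1) * (‖z‖ ^ 2) ^ m with hA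
    have hA0 : 0 ≤ A := by positivity
    have hray : ∀ t ∈ Icc (1 / ‖z‖) 1, ‖Rad f ((t:ℂ) • z)‖ ≤ t * (A * (t * ‖z‖ ^ 2 * Real.exp (a * ‖z‖ ^ 2 * t ^ 2))) := by
      intro t ht
      have ht0 : 0 < t := lt_of_lt_of_le (by positivity) ht.1
      have htr : 1 ≤ t * ‖z‖ := by
        have := ht.1
        rwa [div_le_iff₀ hr0] at this
      have hnorm : ‖(t:ℂ) • z‖ = t * ‖z‖ := by
        rw [norm_smul, Complex.norm_real, Real.norm_of_nonneg ht0.le]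
      have h1 := hC ((t:ℂ) • z)
      rw [hnorm] at h1
      refine h1.trans ?_
      have h2 : 1 ≤ (t * ‖z‖) ^ 2 := by nlinarith
      have h3 : 1 + (t * ‖z‖) ^ 2 ≤ 2 * (t * ‖z‖) ^ 2 := by linarith
      have h4 : (t * ‖z‖) ^ 2 ≤ ‖z‖ ^ 2 := by
        rw [mul_pow]
        have : t ^ 2 ≤ 1 := pow_le_one₀ ht0.le ht.2
        have h5 : 0 ≤ ‖z‖ ^ 2 := by positivity
        nlinarith
      calc C * ((1 + (t * ‖z‖) ^ 2) ^ (m + 1) * Real.exp (a * (t * ‖z‖) ^ 2))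
          ≤ C * ((2 * (t * ‖z‖) ^ 2) ^ (m + 1) * Real.exp (a * (t * ‖z‖) ^ 2)) := by gcongr
        _ = C * 2 ^ (m + 1) * ((t * ‖z‖) ^ 2) ^ m * ((t * ‖z‖) ^ 2 * Real.exp (a * (t * ‖z‖) ^ 2)) := by
            rw [mul_pow, pow_succ ((t * ‖z‖) ^ 2) m]; ring
        _ ≤ C * 2 ^ (m + 1) * (‖z‖ ^ 2) ^ m * ((t * ‖z‖) ^ 2 * Real.exp (a * (t * ‖z‖) ^ 2)) := by gcongr
        _ = _ := by
            rw [hA]
            have : a * (t * ‖z‖) ^ 2 = a * ‖z‖ ^ 2 * t ^ 2 := by ring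
            rw [this]
            ring
    have hB : ∀ t : ℝ, HasDerivAt (fun t : ℝ => A / (2 * a) * Real.exp (a * ‖z‖ ^ 2 * t ^ 2))
        (A * (t * ‖z‖ ^ 2 * Real.exp (a * ‖z‖ ^ 2 * t ^ 2))) t := by
      intro t
      have h1 : HasDerivAt (fun t : ℝ => a * ‖z‖ ^ 2 * t ^ 2) (2 * a * ‖z‖ ^ 2 * t) t := by
        have := (hasDerivAt_pow 2 t).const_mul (a * ‖z‖ ^ 2)
        convert! this using 1
        simp
        ring
      have h2 := h1.exp.const_mul (A / (2 * a))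
      convert! h2 using 1
      field_simp
    have hgr := growth hf z (1 / ‖z‖) (by positivity) (by rw [div_le_one hr0]; exact hz) _ _ hB hray
    have hunit : ‖f (((1 / ‖z‖ : ℝ) : ℂ) • z)‖ ≤ M' := by
      apply hM1
      rw [norm_smul, Complex.norm_real, Real.norm_of_nonneg (by positivity)]
      apply le_of_eq
      field_simp
    have h1 : ‖f z‖ ≤ ‖f z - f (((1 / ‖z‖ : ℝ) : ℂ) • z)‖ + ‖f (((1 / ‖z‖ : ℝ) : ℂ) • z)‖ := by
      simpa using norm_add_le (f z - f (((1 / ‖z‖ : ℝ) : ℂ) • z)) (f (((1 / ‖z‖ : ℝ) : ℂ) • z))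
    have h3 : 0 ≤ A / (2 * a) * Real.exp (a * ‖z‖ ^ 2 * (1 / ‖z‖) ^ 2) := by positivity
    have h5 : A / (2 * a) * Real.exp (a * ‖z‖ ^ 2 * 1 ^ 2) ≤
        C * 2 ^ (m + 1) / (2 * a) * ((1 + ‖z‖ ^ 2) ^ m * Real.exp (a * ‖z‖ ^ 2)) := by
      have h6 : (‖z‖ ^ 2) ^ m ≤ (1 + ‖z‖ ^ 2) ^ m := by gcongr; linarith
      calc A / (2 * a) * Real.exp (a * ‖z‖ ^ 2 * 1 ^ 2) =
          C * 2 ^ (m + 1) / (2 * a) * ((‖z‖ ^ 2) ^ m * Real.exp (a * ‖z‖ ^ 2)) := by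
            rw [hA, one_pow, mul_one]; ring
        _ ≤ _ := by gcongr
    have h7 : M' ≤ M' * ((1 + ‖z‖ ^ 2) ^ m * Real.exp (a * ‖z‖ ^ 2)) := by nlinarith
    calc ‖f z‖ ≤ C * 2 ^ (m + 1) / (2 * a) * ((1 + ‖z‖ ^ 2) ^ m * Real.exp (a * ‖z‖ ^ 2)) +
          M' * ((1 + ‖z‖ ^ 2) ^ m * Real.exp (a * ‖z‖ ^ 2)) := by linarith
      _ = _ := by ring

/-- the forward implication for bounded growth -/
theorem fwd_inf (hf : Differentiable ℂ f) (a : ℝ) (ha : 0 < a) (m : ℕ)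
    (h : ∃ C : ℝ, ∀ z, ‖f z‖ ≤ C * ((1 + ‖z‖ ^ 2) ^ m * Real.exp (a * ‖z‖ ^ 2))) :
    ∃ C : ℝ, ∀ z, ‖Rad f z‖ ≤ C * ((1 + ‖z‖ ^ 2) ^ (m + 1) * Real.exp (a * ‖z‖ ^ 2)) := by
  obtain ⟨C0, hC0⟩ := h
  set C := max C0 0 with hCdef
  have hC00 : 0 ≤ C := le_max_right _ _
  have hC : ∀ z, ‖f z‖ ≤ C * ((1 + ‖z‖ ^ 2) ^ m * Real.exp (a * ‖z‖ ^ 2)) := by
    intro z
    refine (hC0 z).trans ?_
    gcongr
    exact le_max_left _ _
  refine ⟨C * 3 ^ m * Real.exp (2 * a) * 2, fun z => ?_⟩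
  set r := ‖z‖ with hr
  have hr0 : 0 ≤ r := norm_nonneg z
  have hr2 : 0 < 1 + r ^ 2 := by positivity
  have hsph : ∀ l : ℂ, ‖l - 1‖ = 1 / (2 * (1 + r ^ 2)) → ‖f (l • z)‖ ≤
      C * 3 ^ m * Real.exp (2 * a) * ((1 + r ^ 2) ^ m * Real.exp (a * r ^ 2)) := by
    intro l hl
    refine (hC (l • z)).trans ?_
    set ρ := 1 / (2 * (1 + r ^ 2)) with hρ
    have hρ0 : 0 < ρ := by positivity
    have hρ1 : r ^ 2 * ρ ≤ 1 / 2 := by
      rw [hρ, mul_one_div, div_le_iff₀ (by positivity)]; linarith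
    have hρ2 : ρ ≤ 1 := by
      rw [hρ, div_le_one (by positivity)]; nlinarith [sq_nonneg r]
    have hl1 : ‖l‖ ≤ 1 + ρ := by
      have := norm_add_le (l - 1) 1
      rw [sub_add_cancel, norm_one, hl] at this
      linarith
    have h1 : ‖l • z‖ ^ 2 ≤ r ^ 2 + 2 := by
      rw [norm_smul, ← hr, mul_pow]
      calc ‖l‖ ^ 2 * r ^ 2 ≤ (1 + ρ) ^ 2 * r ^ 2 := by gcongr
        _ = r ^ 2 + 2 * (r ^ 2 * ρ) + (r ^ 2 * ρ) * ρ := by ring
        _ ≤ r ^ 2 + 2 * (1/2) + (1/2) * 1 := by gcongr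
        _ ≤ r ^ 2 + 2 := by linarith
    calc C * ((1 + ‖l • z‖ ^ 2) ^ m * Real.exp (a * ‖l • z‖ ^ 2))
        ≤ C * ((3 * (1 + r ^ 2)) ^ m * Real.exp (a * (r ^ 2 + 2))) := by
          gcongr
          nlinarith [sq_nonneg r]
      _ = _ := by
          rw [mul_pow]
          have : Real.exp (a * (r ^ 2 + 2)) = Real.exp (2 * a) * Real.exp (a * r ^ 2) := by
            rw [← Real.exp_add]; congr 1; ring
          rw [this]
          ring
  have h4 := Rad_cauchy hf z _ _ (by positivity) hsph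
  refine h4.trans (le_of_eq ?_)
  rw [pow_succ]
  field_simp
  ring

end Pool.Agent.Q172.Fock
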