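import Mathlib

open MeasureTheory Set Metric
open scoped ENNReal

namespace Pool.Agent.Q172.Radial

/-- integration of a radial function over the plane -/
theorem lintegral_radial (g : ℝ → ℝ≥0∞) (hg : Measurable g) :
    ∫⁻ z : ℂ, g ‖z‖ = ENNReal.ofReal (2 * Real.pi) * ∫⁻ r in Ioi (0:ℝ), ENNReal.ofReal r * g r := by
  rw [← Complex.lintegral_comp_polarCoord_symm]
  have h1 : ∀ p ∈ polarCoord.target, ENNReal.ofReal p.1 • g ‖Complex.polarCoord.symm p‖ =
      (ENNReal.ofReal p.1 * g p.1) * 1 := by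
    intro p hp
    have hp0 : 0 < p.1 := by
      simp only [polarCoord_target, mem_prod, mem_Ioi] at hp
      exact hp.1
    rw [Complex.norm_polarCoord_symm, abs_of_pos hp0, smul_eq_mul, mul_one]
  rw [setLIntegral_congr_fun (by rw [polarCoord_target]; exact measurableSet_Ioi.prod measurableSet_Ioo) h1]
  rw [polarCoord_target, Measure.volume_eq_prod, ← Measure.prod_restrict,
    lintegral_prod_mul (f := fun r : ℝ => ENNReal.ofReal r * g r) (g := fun _ => 1)
      (by fun_prop) (by fun_prop)]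
  rw [lintegral_const, one_mul, Measure.restrict_apply_univ, Real.volume_Ioo, mul_comm]
  congr 2
  ring

/-- integration of a radial function over a disc -/
theorem lintegral_radial_ball (g : ℝ → ℝ≥0∞) (hg : Measurable g) (ρ : ℝ) :
    ∫⁻ z in ball (0:ℂ) ρ, g ‖z‖ =
      ENNReal.ofReal (2 * Real.pi) * ∫⁻ r in Ioo (0:ℝ) ρ, ENNReal.ofReal r * g r := by
  have h1 : ∫⁻ z in ball (0:ℂ) ρ, g ‖z‖ = ∫⁻ z : ℂ, (Iio ρ).indicator g ‖z‖ := by
    rw [← lintegral_indicator measurableSet_ball]
    refine lintegral_congr fun z => ?_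
    by_cases h : ‖z‖ < ρ
    · rw [indicator_of_mem (by simpa using h), indicator_of_mem (by simpa using h)]
    · rw [indicator_of_notMem (by simpa using h), indicator_of_notMem (by simpa using h)]
  rw [h1, lintegral_radial _ (hg.indicator measurableSet_Iio)]
  congr 1
  have h2 : ∀ r : ℝ, ENNReal.ofReal r * (Iio ρ).indicator g r =
      (Iio ρ).indicator (fun r => ENNReal.ofReal r * g r) r := by
    intro r
    by_cases h : r < ρ
    · rw [indicator_of_mem (by simpa using h), indicator_of_mem (by simpa using h)]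
    · rw [indicator_of_notMem (by simpa using h), indicator_of_notMem (by simpa using h), mul_zero]
  simp_rw [h2]
  rw [lintegral_indicator measurableSet_Iio, Measure.restrict_restrict measurableSet_Iio]
  congr 2
  ext r
  simp [and_comm]

/-- the fundamental theorem of calculus for lower integrals -/
theorem lintegral_Ioo_eq (F F' : ℝ → ℝ) (a b : ℝ) (hab : a ≤ b)
    (hF : ∀ x ∈ Icc a b, HasDerivAt F (F' x) x) (hc : ContinuousOn F' (Icc a b))
    (hpos : ∀ x ∈ Icc a b, 0 ≤ F' x) :
    ∫⁻ x in Ioo a b, ENNReal.ofReal (F' x) = ENNReal.ofReal (F b - F a) := by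
  have hint : IntervalIntegrable F' volume a b := by
    apply ContinuousOn.intervalIntegrable
    rwa [uIcc_of_le hab]
  have h1 : ∫ x in a..b, F' x = F b - F a :=
    intervalIntegral.integral_eq_sub_of_hasDerivAt (by rwa [uIcc_of_le hab]) hint
  rw [← h1, intervalIntegral.integral_of_le hab]
  have hint2 : IntegrableOn F' (Ioc a b) := (intervalIntegrable_iff_integrableOn_Ioc_of_le hab).1 hint
  rw [ofReal_integral_eq_lintegral_ofReal hint2]
  · exact setLIntegral_congr (Ioo_ae_eq_Ioc)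
  · rw [Filter.EventuallyLE, ae_restrict_iff' measurableSet_Ioc]
    exact Filter.Eventually.of_forall fun x hx => hpos x ⟨hx.1.le, hx.2⟩

/-- a basic radial integral -/
theorem lintegral_disc_one (A : ℝ) (hA : 0 < A) :
    ∫⁻ w in ball (0:ℂ) 1, ENNReal.ofReal (A / (A + ‖w‖ ^ 2) ^ 2) ≤ ENNReal.ofReal Real.pi := by
  rw [lintegral_radial_ball (fun r => ENNReal.ofReal (A / (A + r ^ 2) ^ 2)) (by fun_prop)]
  have h1 : ∫⁻ r in Ioo (0:ℝ) 1, ENNReal.ofReal r * ENNReal.ofReal (A / (A + r ^ 2) ^ 2) =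
      ∫⁻ r in Ioo (0:ℝ) 1, ENNReal.ofReal (r * (A / (A + r ^ 2) ^ 2)) := by
    refine setLIntegral_congr_fun measurableSet_Ioo fun r hr => ?_
    rw [ENNReal.ofReal_mul hr.1.le]
  have hne : ∀ r : ℝ, A + r ^ 2 ≠ 0 := fun r => by positivity
  rw [h1, lintegral_Ioo_eq (fun r => -(A / 2) * (A + r ^ 2)⁻¹) _ 0 1 zero_le_one]
  · rw [← ENNReal.ofReal_mul (by positivity)]
    apply ENNReal.ofReal_le_ofReal
    have h2 : -(A / 2) * (A + 1 ^ 2)⁻¹ - -(A / 2) * (A + 0 ^ 2)⁻¹ = 1/2 - A / 2 / (A + 1) := by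
      field_simp
      ring
    rw [h2]
    have h3 : 0 ≤ A / 2 / (A + 1) := by positivity
    have := Real.pi_pos
    nlinarith
  · intro x _
    have h3 : HasDerivAt (fun r : ℝ => A + r ^ 2) (2 * x) x := by
      have := (hasDerivAt_pow 2 x).const_add A
      simpa using this
    have h4 := (h3.inv (hne x)).const_mul (-(A / 2))
    convert! h4 using 1
    field_simp
  · apply Continuous.continuousOn
    have : ∀ r : ℝ, (A + r ^ 2) ^ 2 ≠ 0 := fun r => pow_ne_zero _ (hne r)
    fun_prop (disch := assumption)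
  · intro x hx
    have := hx.1
    positivity

/-- the integral of `1/|w|` -/
theorem lintegral_disc_inv : ∫⁻ w in ball (0:ℂ) 1, ENNReal.ofReal (1 / ‖w‖) ≤
    ENNReal.ofReal (2 * Real.pi) := by
  rw [lintegral_radial_ball (fun r => ENNReal.ofReal (1 / r)) (by fun_prop)]
  have h1 : ∫⁻ r in Ioo (0:ℝ) 1, ENNReal.ofReal r * ENNReal.ofReal (1 / r) =
      ∫⁻ r in Ioo (0:ℝ) 1, 1 := by
    refine setLIntegral_congr_fun measurableSet_Ioo fun r hr => ?_
    rw [← ENNReal.ofReal_mul hr.1.le, mul_one_div, div_self hr.1.ne', ENNReal.ofReal_one]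
  rw [h1]
  simp

end Pool.Agent.Q172.Radial
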