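import Mathlib
import Pool.Agent.Q172.Radial

open MeasureTheory Set Metric Matrix
open scoped ENNReal

namespace Pool.Agent.Q172.GraphVol

/-- `ℂ³` with its Hermitian norm -/
abbrev C3 := EuclideanSpace ℂ (Fin 3)

/-- `∂F/∂z` -/
noncomputable def dz (F : ℂ × ℂ → C3) (p : ℂ × ℂ) : C3 := deriv (fun s => F (s, p.2)) p.1

/-- `∂F/∂w` -/
noncomputable def dw (F : ℂ × ℂ → C3) (p : ℂ × ℂ) : C3 := deriv (fun s => F (p.1, s)) p.2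

/-- The Hermitian product `⟨u,v⟩ = ∑ uᵢ conj vᵢ`. -/
noncomputable def hp (u v : C3) : ℂ := ∑ i, u i * (starRingEnd ℂ) (v i)

/-- The Fubini-Study Hermitian form at the line through `x`, evaluated on `u` and the conjugate of
`v`: `(|x|² ⟨u,v⟩ - ⟨u,x⟩⟨x,v⟩) / |x|⁴`. -/
noncomputable def fs (x u v : C3) : ℂ :=
  (((‖x‖ ^ 2 : ℝ) : ℂ) * hp u v - hp u x * hp x v) / ((‖x‖ ^ 4 : ℝ) : ℂ)

/-- The matrix of the pull-back of the Fubini-Study form under `f = [F]` in the coordinates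
`(z, w)`. -/
noncomputable def pull (F : ℂ × ℂ → C3) (p : ℂ × ℂ) : Matrix (Fin 2) (Fin 2) ℂ :=
  !![fs (F p) (dz F p) (dz F p), fs (F p) (dz F p) (dw F p);
     fs (F p) (dw F p) (dz F p), fs (F p) (dw F p) (dw F p)]

/-- Volume of the part over `U` of the graph of `f = [F] : Δ² → ℙ²`. -/
noncomputable def vol4 (F : ℂ × ℂ → C3) (U : Set (ℂ × ℂ)) : ℝ≥0∞ :=
  ∫⁻ p in U, ENNReal.ofReal (Matrix.det (1 + pull F p)).re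

/-- Area of the part over `U` of the graph of the slice `f_z : w ↦ f(z,w)`. -/
noncomputable def vol2 (F : ℂ × ℂ → C3) (z : ℂ) (U : Set ℂ) : ℝ≥0∞ :=
  ∫⁻ w in U, ENNReal.ofReal (1 + fs (F (z, w)) (dw F (z, w)) (dw F (z, w))).re

/-- the example -/
noncomputable def Fe (δ ε : ℝ) (M : ℕ) (p : ℂ × ℂ) : C3 := !₂[(δ:ℂ) * p.1 ^ M, p.2, (ε:ℂ)]

theorem dz_Fe (δ ε : ℝ) (M : ℕ) (p : ℂ × ℂ) :
    dz (Fe δ ε M) p = !₂[(δ:ℂ) * (M * p.1 ^ (M-1)), 0, 0] := by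
  have h : HasDerivAt (fun s : ℂ => Fe δ ε M (s, p.2)) !₂[(δ:ℂ) * (M * p.1 ^ (M-1)), 0, 0] p.1 := by
    have h1 : HasDerivAt (fun s : ℂ => (((δ:ℂ) * s ^ M) • (!₂[(1:ℂ), 0, 0] : C3) + !₂[0, p.2, (ε:ℂ)]))
        (((δ:ℂ) * (M * p.1 ^ (M-1))) • (!₂[(1:ℂ), 0, 0] : C3)) p.1 :=
      (((hasDerivAt_pow M p.1).const_mul (δ:ℂ)).smul_const _).add_const _
    convert! h1 using 1
    · funext s
      ext i
      fin_cases i <;> simp [Fe]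
    · ext i
      fin_cases i <;> simp
  exact h.deriv

theorem dw_Fe (δ ε : ℝ) (M : ℕ) (p : ℂ × ℂ) : dw (Fe δ ε M) p = !₂[0, 1, 0] := by
  have h : HasDerivAt (fun s : ℂ => Fe δ ε M (p.1, s)) !₂[0, 1, 0] p.2 := by
    have h1 : HasDerivAt (fun s : ℂ => (s • (!₂[0, (1:ℂ), 0] : C3) + !₂[(δ:ℂ) * p.1 ^ M, 0, (ε:ℂ)]))
        ((1:ℂ) • (!₂[0, (1:ℂ), 0] : C3)) p.2 :=
      ((hasDerivAt_id p.2).smul_const _).add_const _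
    convert! h1 using 1
    · funext s
      ext i
      fin_cases i <;> simp [Fe]
    · ext i
      fin_cases i <;> simp
  exact h.deriv

/-- `|F|²` -/
noncomputable def SS (δ ε : ℝ) (M : ℕ) (p : ℂ × ℂ) : ℝ := δ ^ 2 * ‖p.1‖ ^ (2 * M) + ‖p.2‖ ^ 2 + ε ^ 2

theorem norm_Fe (δ ε : ℝ) (M : ℕ) (p : ℂ × ℂ) : ‖Fe δ ε M p‖ ^ 2 = SS δ ε M p := by
  rw [EuclideanSpace.norm_sq_eq, Fin.sum_univ_three]
  simp only [Fe, SS, Matrix.cons_val_zero, Matrix.cons_val_one, Matrix.cons_val, norm_mul, norm_pow,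
    Complex.norm_real, Real.norm_eq_abs, mul_pow, sq_abs]
  ring

theorem inner3 (a b c x y t : ℂ) : hp (!₂[x, y, t] : C3) !₂[a, b, c] =
    (starRingEnd ℂ) a * x + (starRingEnd ℂ) b * y + (starRingEnd ℂ) c * t := by
  unfold hp
  rw [Fin.sum_univ_three]
  simp [mul_comm]

theorem conj_mul_norm (x : ℂ) : (starRingEnd ℂ) x * x = ((‖x‖ ^ 2 : ℝ) : ℂ) := by
  rw [← Complex.normSq_eq_conj_mul_self, Complex.normSq_eq_norm_sq]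

theorem SS_pos (δ ε : ℝ) (hε : 0 < ε) (M : ℕ) (p : ℂ × ℂ) : 0 < SS δ ε M p := by
  unfold SS; positivity

theorem norm_Fe4 (δ ε : ℝ) (M : ℕ) (p : ℂ × ℂ) : ‖Fe δ ε M p‖ ^ 4 = (SS δ ε M p) ^ 2 := by
  rw [← norm_Fe]; ring

/-- `|∂F/∂z|²` -/
noncomputable def AA (δ : ℝ) (M : ℕ) (p : ℂ × ℂ) : ℝ := ‖(δ:ℂ) * (M * p.1 ^ (M-1))‖ ^ 2

theorem AA_eq (δ : ℝ) (M : ℕ) (p : ℂ × ℂ) : AA δ M p = M ^ 2 * δ ^ 2 * ‖p.1‖ ^ (2 * (M-1)) := by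
  unfold AA
  rw [norm_mul, norm_mul, norm_pow, Complex.norm_real, Complex.norm_natCast, Real.norm_eq_abs,
    mul_pow, sq_abs]
  ring

/-- `|F₁|²` -/
noncomputable def XX (δ : ℝ) (M : ℕ) (p : ℂ × ℂ) : ℝ := ‖(δ:ℂ) * p.1 ^ M‖ ^ 2

theorem XX_eq (δ : ℝ) (M : ℕ) (p : ℂ × ℂ) : XX δ M p = δ ^ 2 * ‖p.1‖ ^ (2 * M) := by
  unfold XX
  rw [norm_mul, norm_pow, Complex.norm_real, Real.norm_eq_abs, mul_pow, sq_abs]
  ring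

theorem fs_zz (δ ε : ℝ) (M : ℕ) (p : ℂ × ℂ) :
    fs (Fe δ ε M p) (dz (Fe δ ε M) p) (dz (Fe δ ε M) p) =
      ((AA δ M p * (‖p.2‖ ^ 2 + ε ^ 2) / (SS δ ε M p) ^ 2 : ℝ) : ℂ) := by
  rw [dz_Fe]
  unfold fs
  rw [norm_Fe4, norm_Fe, inner3]
  unfold Fe
  rw [inner3, inner3]
  simp only [map_zero, zero_mul, mul_zero, add_zero]
  set a : ℂ := (δ:ℂ) * (M * p.1 ^ (M-1)) with ha
  set x : ℂ := (δ:ℂ) * p.1 ^ M with hx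
  have h1 : (starRingEnd ℂ) a * a = ((AA δ M p : ℝ) : ℂ) := conj_mul_norm a
  have h2 : (starRingEnd ℂ) x * x = ((XX δ M p : ℝ) : ℂ) := conj_mul_norm x
  have h3 : (starRingEnd ℂ) x * a * ((starRingEnd ℂ) a * x) = ((AA δ M p : ℝ) : ℂ) * ((XX δ M p : ℝ) : ℂ) := by
    rw [← h1, ← h2]; ring
  rw [h3, h1]
  have h4 : SS δ ε M p = XX δ M p + ‖p.2‖ ^ 2 + ε ^ 2 := by rw [XX_eq]; rfl
  rw [h4]
  push_cast
  ring

theorem fs_cross (δ ε : ℝ) (M : ℕ) (p : ℂ × ℂ) :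
    fs (Fe δ ε M p) (dz (Fe δ ε M) p) (dw (Fe δ ε M) p) *
      fs (Fe δ ε M p) (dw (Fe δ ε M) p) (dz (Fe δ ε M) p) =
      ((AA δ M p * XX δ M p * ‖p.2‖ ^ 2 / (SS δ ε M p) ^ 4 : ℝ) : ℂ) := by
  rw [dz_Fe, dw_Fe]
  unfold fs
  rw [norm_Fe4, norm_Fe, inner3, inner3]
  unfold Fe
  rw [inner3, inner3, inner3, inner3]
  simp only [map_zero, map_one, zero_mul, mul_one, one_mul, mul_zero, zero_add, add_zero, zero_sub]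
  set a : ℂ := (δ:ℂ) * (M * p.1 ^ (M-1)) with ha
  set x : ℂ := (δ:ℂ) * p.1 ^ M with hx
  have h1 : (starRingEnd ℂ) a * a = ((AA δ M p : ℝ) : ℂ) := conj_mul_norm a
  have h2 : (starRingEnd ℂ) x * x = ((XX δ M p : ℝ) : ℂ) := conj_mul_norm x
  have h3 : (starRingEnd ℂ) p.2 * p.2 = ((‖p.2‖ ^ 2 : ℝ) : ℂ) := conj_mul_norm _
  push_cast at h3 ⊢
  rw [← h1, ← h2, ← h3]
  ring

theorem fs_ww (δ ε : ℝ) (M : ℕ) (p : ℂ × ℂ) :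
    fs (Fe δ ε M p) (dw (Fe δ ε M) p) (dw (Fe δ ε M) p) =
      (((δ ^ 2 * ‖p.1‖ ^ (2 * M) + ε ^ 2) / (SS δ ε M p) ^ 2 : ℝ) : ℂ) := by
  rw [dw_Fe]
  unfold fs
  have h4 : ‖Fe δ ε M p‖ ^ 4 = (SS δ ε M p) ^ 2 := by
    rw [← norm_Fe]; ring
  rw [h4, norm_Fe, inner3]
  unfold Fe
  rw [inner3, inner3]
  simp only [map_zero, map_one, zero_mul, mul_one, one_mul, mul_zero, zero_add, add_zero]
  rw [conj_mul_norm]
  unfold SS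
  push_cast
  ring

/-- the determinant -/
theorem det_eq (δ ε : ℝ) (hε : 0 < ε) (M : ℕ) (p : ℂ × ℂ) :
    (Matrix.det (1 + pull (Fe δ ε M) p)).re = 1 + AA δ M p * (‖p.2‖ ^ 2 + ε ^ 2) / (SS δ ε M p) ^ 2 +
      (XX δ M p + ε ^ 2) / (SS δ ε M p) ^ 2 + AA δ M p * ε ^ 2 / (SS δ ε M p) ^ 3 := by
  have hS := SS_pos δ ε hε M p
  unfold pull
  rw [Matrix.det_fin_two]
  simp only [Matrix.add_apply, Matrix.one_apply_eq, Matrix.of_apply, Matrix.cons_val', Matrix.cons_val_zero,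
    Matrix.cons_val_one, Matrix.cons_val_fin_one, Matrix.one_apply, Fin.isValue, zero_ne_one, one_ne_zero,
    if_false, zero_add]
  rw [fs_cross, fs_zz, fs_ww, ← XX_eq]
  have e : (1 + ((AA δ M p * (‖p.2‖ ^ 2 + ε ^ 2) / (SS δ ε M p) ^ 2 : ℝ) : ℂ)) *
      (1 + (((XX δ M p + ε ^ 2) / (SS δ ε M p) ^ 2 : ℝ) : ℂ)) -
      ((AA δ M p * XX δ M p * ‖p.2‖ ^ 2 / (SS δ ε M p) ^ 4 : ℝ) : ℂ) =
      (((1 + AA δ M p * (‖p.2‖ ^ 2 + ε ^ 2) / (SS δ ε M p) ^ 2) *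
        (1 + (XX δ M p + ε ^ 2) / (SS δ ε M p) ^ 2) - AA δ M p * XX δ M p * ‖p.2‖ ^ 2 / (SS δ ε M p) ^ 4 : ℝ) : ℂ) := by
    push_cast; ring
  rw [e, Complex.ofReal_re]
  have h4 : SS δ ε M p = XX δ M p + ‖p.2‖ ^ 2 + ε ^ 2 := by rw [XX_eq]; rfl
  have h5 : AA δ M p * ε ^ 2 / (SS δ ε M p) ^ 3 = AA δ M p * ε ^ 2 * SS δ ε M p / (SS δ ε M p) ^ 4 := by
    field_simp
  rw [h5]
  nth_rewrite 6 [h4]
  field_simp
  ring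

end Pool.Agent.Q172.GraphVol
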