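import Mathlib
import Pool.Agent.Q172.Radial
import Pool.Agent.Q172.GraphVol

open MeasureTheory Set Metric Matrix
open scoped ENNReal

namespace Pool.Agent.Q172.GraphVol

/-- the unit bidisc -/
def D2 : Set (ℂ × ℂ) := ball 0 1 ×ˢ ball 0 1

theorem measurableSet_D2 : MeasurableSet D2 := measurableSet_ball.prod measurableSet_ball

theorem lint_prod (g : ℂ × ℂ → ℝ≥0∞) (hg : Measurable g) (s t : Set ℂ) :
    ∫⁻ p in s ×ˢ t, g p = ∫⁻ z in s, ∫⁻ w in t, g (z, w) := by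
  rw [Measure.volume_eq_prod, ← Measure.prod_restrict, lintegral_prod _ hg.aemeasurable]

theorem vol_ball (ρ : ℝ) (hρ : 0 ≤ ρ) : volume (ball (0:ℂ) ρ) = ENNReal.ofReal (Real.pi * ρ ^ 2) := by
  rw [Complex.volume_ball, mul_comm, ENNReal.ofReal_mul Real.pi_pos.le, ENNReal.ofReal_pow hρ]
  congr 1
  rw [← ENNReal.ofReal_coe_nnreal]
  rfl

/-- integral over the bidisc of a function bounded by an integral in `w` for all `z` -/
theorem lint_D2_le (g : ℂ × ℂ → ℝ≥0∞) (hg : Measurable g) (C : ℝ) (hC : 0 ≤ C)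
    (h : ∀ z ∈ ball (0:ℂ) 1, ∫⁻ w in ball (0:ℂ) 1, g (z, w) ≤ ENNReal.ofReal C) :
    ∫⁻ p in D2, g p ≤ ENNReal.ofReal (Real.pi * C) := by
  unfold D2
  rw [lint_prod g hg]
  calc ∫⁻ z in ball (0:ℂ) 1, ∫⁻ w in ball (0:ℂ) 1, g (z, w)
      ≤ ∫⁻ _ in ball (0:ℂ) 1, ENNReal.ofReal C := setLIntegral_mono' measurableSet_ball h
    _ = ENNReal.ofReal (Real.pi * C) := by
        rw [setLIntegral_const, vol_ball 1 zero_le_one, ← ENNReal.ofReal_mul hC]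
        congr 1
        ring

theorem T2_le (δ ε : ℝ) (hε : 0 < ε) (M : ℕ) (z : ℂ) :
    ∫⁻ w in ball (0:ℂ) 1, ENNReal.ofReal ((XX δ M (z, w) + ε ^ 2) / (SS δ ε M (z, w)) ^ 2) ≤
      ENNReal.ofReal Real.pi := by
  have hA : 0 < δ ^ 2 * ‖z‖ ^ (2 * M) + ε ^ 2 := by positivity
  refine le_trans (le_of_eq ?_) (Radial.lintegral_disc_one (δ ^ 2 * ‖z‖ ^ (2 * M) + ε ^ 2) hA)
  refine lintegral_congr fun w => ?_
  rw [XX_eq]
  unfold SS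
  congr 3
  ring

theorem T1_le (δ ε : ℝ) (hδ : 0 < δ) (hε : 0 < ε) (M : ℕ) (hM : 2 ≤ M) (hMd : M ^ 2 * δ ≤ 1) (z : ℂ)
    (hz : ‖z‖ < 1) :
    ∫⁻ w in ball (0:ℂ) 1, ENNReal.ofReal (AA δ M (z, w) * (‖w‖ ^ 2 + ε ^ 2) / (SS δ ε M (z, w)) ^ 2) ≤
      ENNReal.ofReal Real.pi := by
  have h1 : ∀ w : ℂ, w ≠ 0 → AA δ M (z, w) * (‖w‖ ^ 2 + ε ^ 2) / (SS δ ε M (z, w)) ^ 2 ≤
      (1 / 2) * (1 / ‖w‖) := by
    intro w hw
    have hwp : 0 < ‖w‖ := norm_pos_iff.2 hw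
    rw [AA_eq]
    simp only
    by_cases hz0 : z = 0
    · rw [hz0, norm_zero, zero_pow (by omega), mul_zero, zero_mul, zero_div]
      positivity
    have hzp : 0 < ‖z‖ := norm_pos_iff.2 hz0
    have hS : 0 < SS δ ε M (z, w) := SS_pos δ ε hε M _
    set x := δ * ‖z‖ ^ M with hx
    have hxp : 0 < x := by positivity
    have hSx : SS δ ε M (z, w) = x ^ 2 + ‖w‖ ^ 2 + ε ^ 2 := by
      unfold SS
      rw [hx]
      simp only
      ring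
    have h2 : 2 * (x * ‖w‖) ≤ SS δ ε M (z, w) := by
      rw [hSx]; nlinarith [sq_nonneg (x - ‖w‖), sq_nonneg ε]
    have h3 : ‖w‖ ^ 2 + ε ^ 2 ≤ SS δ ε M (z, w) := by
      rw [hSx]; nlinarith [sq_nonneg x]
    have h4 : M ^ 2 * δ ^ 2 * ‖z‖ ^ (2 * (M - 1)) ≤ x := by
      have e : ‖z‖ ^ (2 * (M - 1)) = ‖z‖ ^ M * ‖z‖ ^ (M - 2) := by
        rw [← pow_add]; congr 1; omega
      have h5 : ‖z‖ ^ (M - 2) ≤ 1 := pow_le_one₀ (norm_nonneg _) hz.le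
      rw [e, hx]
      have h6 : 0 ≤ δ * ‖z‖ ^ M := by positivity
      calc M ^ 2 * δ ^ 2 * (‖z‖ ^ M * ‖z‖ ^ (M - 2)) = (M ^ 2 * δ) * (δ * ‖z‖ ^ M) * ‖z‖ ^ (M - 2) := by ring
        _ ≤ 1 * (δ * ‖z‖ ^ M) * 1 := by gcongr
        _ = δ * ‖z‖ ^ M := by ring
    have h7 : 0 ≤ (M:ℝ) ^ 2 * δ ^ 2 * ‖z‖ ^ (2 * (M - 1)) := by positivity
    calc M ^ 2 * δ ^ 2 * ‖z‖ ^ (2 * (M - 1)) * (‖w‖ ^ 2 + ε ^ 2) / (SS δ ε M (z, w)) ^ 2
        ≤ x * SS δ ε M (z, w) / (SS δ ε M (z, w)) ^ 2 := by gcongr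
      _ = x / SS δ ε M (z, w) := by field_simp
      _ ≤ x / (2 * (x * ‖w‖)) := by gcongr
      _ = (1 / 2) * (1 / ‖w‖) := by field_simp
  calc ∫⁻ w in ball (0:ℂ) 1, ENNReal.ofReal (AA δ M (z, w) * (‖w‖ ^ 2 + ε ^ 2) / (SS δ ε M (z, w)) ^ 2)
      ≤ ∫⁻ w in ball (0:ℂ) 1, ENNReal.ofReal (1 / 2) * ENNReal.ofReal (1 / ‖w‖) := by
        apply lintegral_mono_ae
        have h0 : ∀ᵐ w : ℂ ∂(volume.restrict (ball (0:ℂ) 1)), w ≠ 0 :=
          ae_restrict_of_ae (by simp [ae_iff, measure_singleton])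
        filter_upwards [h0] with w hw
        rw [← ENNReal.ofReal_mul (by norm_num)]
        exact ENNReal.ofReal_le_ofReal (h1 w hw)
    _ = ENNReal.ofReal (1 / 2) * ∫⁻ w in ball (0:ℂ) 1, ENNReal.ofReal (1 / ‖w‖) :=
        lintegral_const_mul _ (by fun_prop)
    _ ≤ ENNReal.ofReal (1 / 2) * ENNReal.ofReal (2 * Real.pi) := by gcongr; exact Radial.lintegral_disc_inv
    _ = ENNReal.ofReal Real.pi := by
        rw [← ENNReal.ofReal_mul (by norm_num)]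
        congr 1
        ring

theorem cont_SS (δ ε : ℝ) (M : ℕ) : Continuous (SS δ ε M) := by
  unfold SS; fun_prop

theorem cont_AA (δ : ℝ) (M : ℕ) : Continuous (AA δ M) := by
  unfold AA; fun_prop

theorem cont_XX (δ : ℝ) (M : ℕ) : Continuous (XX δ M) := by
  unfold XX; fun_prop

theorem AA_nonneg (δ : ℝ) (M : ℕ) (p : ℂ × ℂ) : 0 ≤ AA δ M p := by unfold AA; positivity
theorem XX_nonneg (δ : ℝ) (M : ℕ) (p : ℂ × ℂ) : 0 ≤ XX δ M p := by unfold XX; positivity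

/-- the shell -/
def shell (r : ℝ) : Set (ℂ × ℂ) := D2 \ (closedBall 0 r ×ˢ closedBall 0 r)

theorem measurableSet_shell (r : ℝ) : MeasurableSet (shell r) :=
  measurableSet_D2.diff (measurableSet_closedBall.prod measurableSet_closedBall)

theorem T3_le (δ ε r : ℝ) (hδ : 0 < δ) (hδ1 : δ ≤ 1) (hr0 : 0 < r) (hr1 : r < 1) (M : ℕ) (hM : 1 ≤ M)
    (hε : ε = δ ^ 2 * r ^ (3 * M) / M) (p : ℂ × ℂ) (hp : p ∈ shell r) :
    AA δ M p * ε ^ 2 / (SS δ ε M p) ^ 3 ≤ 1 := by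
  have hMp : (0:ℝ) < M := by exact_mod_cast hM
  have hM1 : (1:ℝ) ≤ M := by exact_mod_cast hM
  have hεp : 0 < ε := by rw [hε]; positivity
  have hε2 : M ^ 2 * ε ^ 2 = δ ^ 4 * r ^ (6 * M) := by
    rw [hε]
    field_simp
    ring
  obtain ⟨⟨hz, hw⟩, hnot⟩ := hp
  rw [mem_ball_zero_iff] at hz hw
  have hcases : r < ‖p.1‖ ∨ r < ‖p.2‖ := by
    by_contra hcon
    push Not at hcon
    exact hnot ⟨by simpa using hcon.1, by simpa using hcon.2⟩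
  have hS : 0 < SS δ ε M p := SS_pos δ ε hεp M p
  rw [div_le_one (by positivity), AA_eq]
  have hzz : ‖p.1‖ ^ (2 * (M - 1)) ≤ 1 := pow_le_one₀ (norm_nonneg _) hz.le
  have hup : M ^ 2 * δ ^ 2 * ‖p.1‖ ^ (2 * (M - 1)) * ε ^ 2 ≤ δ ^ 6 * r ^ (6 * M) := by
    calc M ^ 2 * δ ^ 2 * ‖p.1‖ ^ (2 * (M - 1)) * ε ^ 2 ≤ M ^ 2 * δ ^ 2 * 1 * ε ^ 2 := by gcongr
      _ = δ ^ 2 * (M ^ 2 * ε ^ 2) := by ring
      _ = δ ^ 6 * r ^ (6 * M) := by rw [hε2]; ring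
  refine hup.trans ?_
  rcases hcases with h | h
  · have h1 : δ ^ 2 * r ^ (2 * M) ≤ SS δ ε M p := by
      unfold SS
      have h2 : r ^ (2 * M) ≤ ‖p.1‖ ^ (2 * M) := by gcongr
      have h3 : δ ^ 2 * r ^ (2 * M) ≤ δ ^ 2 * ‖p.1‖ ^ (2 * M) := by gcongr
      nlinarith [sq_nonneg ‖p.2‖, sq_nonneg ε]
    calc δ ^ 6 * r ^ (6 * M) = (δ ^ 2 * r ^ (2 * M)) ^ 3 := by
          rw [mul_pow, ← pow_mul, ← pow_mul]; congr 2; ring
      _ ≤ SS δ ε M p ^ 3 := by gcongr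
  · have h1 : r ^ 2 ≤ SS δ ε M p := by
      unfold SS
      have h2 : r ^ 2 ≤ ‖p.2‖ ^ 2 := by gcongr
      have h3 : 0 ≤ δ ^ 2 * ‖p.1‖ ^ (2 * M) := by positivity
      nlinarith [sq_nonneg ε]
    calc δ ^ 6 * r ^ (6 * M) ≤ 1 * r ^ 6 := by
          apply mul_le_mul (pow_le_one₀ hδ.le hδ1) _ (by positivity) zero_le_one
          exact pow_le_pow_of_le_one hr0.le hr1.le (by omega)
      _ = (r ^ 2) ^ 3 := by ring
      _ ≤ SS δ ε M p ^ 3 := by gcongr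

theorem vol4_Fe (δ ε : ℝ) (hε : 0 < ε) (M : ℕ) (U : Set (ℂ × ℂ)) :
    vol4 (Fe δ ε M) U = ∫⁻ p in U, ENNReal.ofReal (1 + AA δ M p * (‖p.2‖ ^ 2 + ε ^ 2) / (SS δ ε M p) ^ 2 +
      (XX δ M p + ε ^ 2) / (SS δ ε M p) ^ 2 + AA δ M p * ε ^ 2 / (SS δ ε M p) ^ 3) := by
  unfold vol4
  refine lintegral_congr fun p => ?_
  rw [det_eq δ ε hε M p]

theorem shell_bound (δ ε r : ℝ) (hδ : 0 < δ) (hδ1 : δ ≤ 1) (hr0 : 0 < r) (hr1 : r < 1) (M : ℕ) (hM : 2 ≤ M)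
    (hMd : M ^ 2 * δ ≤ 1) (hε : ε = δ ^ 2 * r ^ (3 * M) / M) :
    vol4 (Fe δ ε M) (shell r) ≤ ENNReal.ofReal (4 * Real.pi ^ 2) := by
  have hMp : (0:ℝ) < M := by exact_mod_cast (by omega : 0 < M)
  have hεp : 0 < ε := by rw [hε]; positivity
  have hSne : ∀ p, SS δ ε M p ≠ 0 := fun p => (SS_pos δ ε hεp M p).ne'
  have hSne2 : ∀ p, SS δ ε M p ^ 2 ≠ 0 := fun p => pow_ne_zero _ (hSne p)
  have hSne3 : ∀ p, SS δ ε M p ^ 3 ≠ 0 := fun p => pow_ne_zero _ (hSne p)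
  have cS := cont_SS δ ε M
  have cA := cont_AA δ M
  have cX := cont_XX δ M
  set g1 : ℂ × ℂ → ℝ≥0∞ := fun p => ENNReal.ofReal (AA δ M p * (‖p.2‖ ^ 2 + ε ^ 2) / (SS δ ε M p) ^ 2) with hg1
  set g2 : ℂ × ℂ → ℝ≥0∞ := fun p => ENNReal.ofReal ((XX δ M p + ε ^ 2) / (SS δ ε M p) ^ 2) with hg2
  have m1 : Measurable g1 := by
    have : Continuous (fun p : ℂ × ℂ => AA δ M p * (‖p.2‖ ^ 2 + ε ^ 2) / (SS δ ε M p) ^ 2) := by
      fun_prop (disch := assumption)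
    exact this.measurable.ennreal_ofReal
  have m2 : Measurable g2 := by
    have : Continuous (fun p : ℂ × ℂ => (XX δ M p + ε ^ 2) / (SS δ ε M p) ^ 2) := by
      fun_prop (disch := assumption)
    exact this.measurable.ennreal_ofReal
  have b1 : ∫⁻ p in D2, g1 p ≤ ENNReal.ofReal (Real.pi * Real.pi) :=
    lint_D2_le g1 m1 _ Real.pi_pos.le fun z hz =>
      T1_le δ ε hδ hεp M hM hMd z (by simpa using hz)
  have b2 : ∫⁻ p in D2, g2 p ≤ ENNReal.ofReal (Real.pi * Real.pi) :=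
    lint_D2_le g2 m2 _ Real.pi_pos.le fun z _ => T2_le δ ε hεp M z
  have b0 : ∫⁻ _ in D2, (2:ℝ≥0∞) ≤ ENNReal.ofReal (Real.pi * (2 * Real.pi)) := by
    apply lint_D2_le (fun _ => 2) measurable_const _ (by positivity)
    intro z _
    rw [setLIntegral_const, vol_ball 1 zero_le_one, one_pow, mul_one, ENNReal.ofReal_mul (by norm_num)]
    simp
  rw [vol4_Fe δ ε hεp M]
  calc ∫⁻ p in shell r, ENNReal.ofReal (1 + AA δ M p * (‖p.2‖ ^ 2 + ε ^ 2) / (SS δ ε M p) ^ 2 +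
      (XX δ M p + ε ^ 2) / (SS δ ε M p) ^ 2 + AA δ M p * ε ^ 2 / (SS δ ε M p) ^ 3)
      ≤ ∫⁻ p in shell r, (2 + g1 p + g2 p) := by
        apply setLIntegral_mono' (measurableSet_shell r)
        intro p hp
        have h3 := T3_le δ ε r hδ hδ1 hr0 hr1 M (by omega) hε p hp
        have hS := SS_pos δ ε hεp M p
        have n1 : 0 ≤ AA δ M p * (‖p.2‖ ^ 2 + ε ^ 2) / (SS δ ε M p) ^ 2 := by
          have := AA_nonneg δ M p; positivity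
        have n2 : 0 ≤ (XX δ M p + ε ^ 2) / (SS δ ε M p) ^ 2 := by
          have := XX_nonneg δ M p; positivity
        have e2 : (2:ℝ≥0∞) = ENNReal.ofReal 2 := by simp
        rw [hg1, hg2, e2]
        simp only
        rw [← ENNReal.ofReal_add (by norm_num) n1, ← ENNReal.ofReal_add (by positivity) n2]
        apply ENNReal.ofReal_le_ofReal
        linarith
    _ ≤ ∫⁻ p in D2, (2 + g1 p + g2 p) := lintegral_mono_set sdiff_subset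
    _ = (∫⁻ _ in D2, (2:ℝ≥0∞)) + (∫⁻ p in D2, g1 p) + ∫⁻ p in D2, g2 p := by
        rw [lintegral_add_right _ m2, lintegral_add_right _ m1]
    _ ≤ ENNReal.ofReal (Real.pi * (2 * Real.pi)) + ENNReal.ofReal (Real.pi * Real.pi) +
        ENNReal.ofReal (Real.pi * Real.pi) := by gcongr
    _ = ENNReal.ofReal (4 * Real.pi ^ 2) := by
        rw [← ENNReal.ofReal_add (by positivity) (by positivity), ← ENNReal.ofReal_add (by positivity) (by positivity)]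
        congr 1
        ring

theorem slice_bound (δ ε : ℝ) (hε : 0 < ε) (M : ℕ) (z : ℂ) :
    vol2 (Fe δ ε M) z (ball 0 1) ≤ ENNReal.ofReal (2 * Real.pi) := by
  unfold vol2
  have hne : ∀ w : ℂ, (1 + fs (Fe δ ε M (z, w)) (dw (Fe δ ε M) (z, w)) (dw (Fe δ ε M) (z, w))).re =
      1 + (XX δ M (z, w) + ε ^ 2) / (SS δ ε M (z, w)) ^ 2 := by
    intro w
    rw [fs_ww, ← XX_eq, Complex.add_re, Complex.one_re, Complex.ofReal_re]
  simp_rw [hne]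
  calc ∫⁻ w in ball (0:ℂ) 1, ENNReal.ofReal (1 + (XX δ M (z, w) + ε ^ 2) / (SS δ ε M (z, w)) ^ 2)
      ≤ ∫⁻ w in ball (0:ℂ) 1, (1 + ENNReal.ofReal ((XX δ M (z, w) + ε ^ 2) / (SS δ ε M (z, w)) ^ 2)) := by
        apply lintegral_mono
        intro w
        have e1 : (1:ℝ≥0∞) = ENNReal.ofReal 1 := by simp
        rw [e1]
        exact ENNReal.ofReal_add_le
    _ = (∫⁻ _ in ball (0:ℂ) 1, (1:ℝ≥0∞)) +
        ∫⁻ w in ball (0:ℂ) 1, ENNReal.ofReal ((XX δ M (z, w) + ε ^ 2) / (SS δ ε M (z, w)) ^ 2) :=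
        lintegral_add_left measurable_const _
    _ ≤ ENNReal.ofReal Real.pi + ENNReal.ofReal Real.pi := by
        gcongr
        · rw [setLIntegral_one, vol_ball 1 zero_le_one, one_pow, mul_one]
        · exact T2_le δ ε hε M z
    _ = ENNReal.ofReal (2 * Real.pi) := by
        rw [← ENNReal.ofReal_add Real.pi_pos.le Real.pi_pos.le]
        congr 1
        ring

/-- the integral of `M²|z|^{2M-2}` over a disc -/
theorem lint_pow (M : ℕ) (hM : 1 ≤ M) (ρ : ℝ) (hρ : 0 ≤ ρ) :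
    ∫⁻ z in ball (0:ℂ) ρ, ENNReal.ofReal (M ^ 2 * ‖z‖ ^ (2 * (M - 1))) =
      ENNReal.ofReal (Real.pi * M * ρ ^ (2 * M)) := by
  rw [Radial.lintegral_radial_ball (fun t => ENNReal.ofReal (M ^ 2 * t ^ (2 * (M - 1)))) (by fun_prop)]
  have h1 : ∫⁻ t in Ioo (0:ℝ) ρ, ENNReal.ofReal t * ENNReal.ofReal (M ^ 2 * t ^ (2 * (M - 1))) =
      ∫⁻ t in Ioo (0:ℝ) ρ, ENNReal.ofReal (M ^ 2 * t ^ (2 * M - 1)) := by
    refine setLIntegral_congr_fun measurableSet_Ioo fun t ht => ?_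
    rw [← ENNReal.ofReal_mul ht.1.le]
    congr 1
    have : t ^ (2 * M - 1) = t * t ^ (2 * (M - 1)) := by
      rw [← pow_succ']; congr 1; omega
    rw [this]; ring
  rw [h1, Radial.lintegral_Ioo_eq (fun t => (M / 2) * t ^ (2 * M)) _ 0 ρ hρ]
  · rw [← ENNReal.ofReal_mul (by positivity)]
    congr 1
    rw [zero_pow (by omega)]
    ring
  · intro x _
    have h2 := (hasDerivAt_pow (2 * M) x).const_mul ((M:ℝ) / 2)
    convert! h2 using 1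
    push_cast
    ring
  · fun_prop
  · intro x hx
    have := hx.1
    positivity

theorem total_bound (δ ε : ℝ) (hδ : 0 < δ) (hε : 0 < ε) (hεδ : ε ≤ δ) (hε1 : ε ≤ 1) (M : ℕ) (hM : 1 ≤ M) :
    ENNReal.ofReal (Real.pi ^ 2 * M / 27) ≤ vol4 (Fe δ ε M) D2 := by
  have hMp : (0:ℝ) < M := by exact_mod_cast (by omega : 0 < M)
  set ρ : ℝ := (ε / δ) ^ ((M:ℝ)⁻¹) with hρ
  have hρ0 : 0 ≤ ρ := by positivity
  have hρM : ρ ^ M = ε / δ := by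
    rw [hρ]
    exact Real.rpow_inv_natCast_pow (by positivity) (by omega)
  have hρ1 : ρ ≤ 1 := by
    rw [hρ]
    exact Real.rpow_le_one (by positivity) ((div_le_one hδ).2 hεδ) (by positivity)
  have hsub : ball (0:ℂ) ρ ×ˢ ball (0:ℂ) ε ⊆ D2 :=
    prod_mono (ball_subset_ball hρ1) (ball_subset_ball hε1)
  rw [vol4_Fe δ ε hε M]
  have key : ∀ p ∈ ball (0:ℂ) ρ ×ˢ ball (0:ℂ) ε,
      ENNReal.ofReal (δ ^ 2 / (27 * ε ^ 4)) * ENNReal.ofReal (M ^ 2 * ‖p.1‖ ^ (2 * (M - 1))) ≤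
      ENNReal.ofReal (1 + AA δ M p * (‖p.2‖ ^ 2 + ε ^ 2) / (SS δ ε M p) ^ 2 +
      (XX δ M p + ε ^ 2) / (SS δ ε M p) ^ 2 + AA δ M p * ε ^ 2 / (SS δ ε M p) ^ 3) := by
    intro p hp
    obtain ⟨hz, hw⟩ := hp
    rw [mem_ball_zero_iff] at hz hw
    rw [← ENNReal.ofReal_mul (by positivity)]
    apply ENNReal.ofReal_le_ofReal
    have hS := SS_pos δ ε hε M p
    have n1 : 0 ≤ AA δ M p * (‖p.2‖ ^ 2 + ε ^ 2) / (SS δ ε M p) ^ 2 := by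
      have := AA_nonneg δ M p; positivity
    have n2 : 0 ≤ (XX δ M p + ε ^ 2) / (SS δ ε M p) ^ 2 := by
      have := XX_nonneg δ M p; positivity
    have hSle : SS δ ε M p ≤ 3 * ε ^ 2 := by
      unfold SS
      have h1 : ‖p.1‖ ^ M ≤ ε / δ := by rw [← hρM]; gcongr
      have h2 : δ ^ 2 * ‖p.1‖ ^ (2 * M) ≤ ε ^ 2 := by
        calc δ ^ 2 * ‖p.1‖ ^ (2 * M) = δ ^ 2 * (‖p.1‖ ^ M) ^ 2 := by rw [← pow_mul]; congr 2; ring
          _ ≤ δ ^ 2 * (ε / δ) ^ 2 := by gcongr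
          _ = ε ^ 2 := by field_simp
      have h3 : ‖p.2‖ ^ 2 ≤ ε ^ 2 := by gcongr
      linarith
    have h4 : δ ^ 2 / (27 * ε ^ 4) * (M ^ 2 * ‖p.1‖ ^ (2 * (M - 1))) ≤ AA δ M p * ε ^ 2 / (SS δ ε M p) ^ 3 := by
      rw [AA_eq]
      calc δ ^ 2 / (27 * ε ^ 4) * (M ^ 2 * ‖p.1‖ ^ (2 * (M - 1))) =
          M ^ 2 * δ ^ 2 * ‖p.1‖ ^ (2 * (M - 1)) * ε ^ 2 / (3 * ε ^ 2) ^ 3 := by
            field_simp
            ring
        _ ≤ M ^ 2 * δ ^ 2 * ‖p.1‖ ^ (2 * (M - 1)) * ε ^ 2 / (SS δ ε M p) ^ 3 := by gcongr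
    linarith
  calc ENNReal.ofReal (Real.pi ^ 2 * M / 27)
      = ∫⁻ p in ball (0:ℂ) ρ ×ˢ ball (0:ℂ) ε,
        ENNReal.ofReal (δ ^ 2 / (27 * ε ^ 4)) * ENNReal.ofReal (M ^ 2 * ‖p.1‖ ^ (2 * (M - 1))) := by
        rw [lint_prod _ (by fun_prop)]
        simp only [setLIntegral_const]
        rw [lintegral_mul_const _ (by fun_prop), lintegral_const_mul _ (by fun_prop), lint_pow M hM ρ hρ0,
          vol_ball ε hε.le, ← ENNReal.ofReal_mul (by positivity), ← ENNReal.ofReal_mul (by positivity)]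
        congr 1
        have : ρ ^ (2 * M) = (ε / δ) ^ 2 := by rw [← hρM, ← pow_mul]; congr 1; ring
        rw [this]
        field_simp
    _ ≤ ∫⁻ p in ball (0:ℂ) ρ ×ˢ ball (0:ℂ) ε,
      ENNReal.ofReal (1 + AA δ M p * (‖p.2‖ ^ 2 + ε ^ 2) / (SS δ ε M p) ^ 2 +
      (XX δ M p + ε ^ 2) / (SS δ ε M p) ^ 2 + AA δ M p * ε ^ 2 / (SS δ ε M p) ^ 3) :=
        setLIntegral_mono' (measurableSet_ball.prod measurableSet_ball) key
    _ ≤ _ := lintegral_mono_set hsub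

end Pool.Agent.Q172.GraphVol
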