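import Mathlib
import Pool.Agent.Q172.Radial

open MeasureTheory Set Metric
open scoped ENNReal

namespace Pool.Agent.Q172.Hopf


section norm
variable {E : Type*} [NormedAddCommGroup E] [NormedSpace ℝ E] [MeasurableSpace E]
  [Nontrivial E] (μ : Measure E) [FiniteDimensional ℝ E] [BorelSpace E] [μ.IsAddHaarMeasure]

/-- integration of a function of the norm, for lower integrals -/
theorem lintegral_fun_norm (f : ℝ → ℝ≥0∞) (hf : Measurable f) :
    ∫⁻ x, f ‖x‖ ∂μ = (Module.finrank ℝ E : ℝ≥0∞) * μ (ball 0 1) *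
      ∫⁻ y in Ioi (0 : ℝ), ENNReal.ofReal (y ^ (Module.finrank ℝ E - 1)) * f y := by
  calc ∫⁻ x, f ‖x‖ ∂μ = ∫⁻ x : ({(0)}ᶜ : Set E), f ‖x.1‖ ∂(μ.comap (↑)) := by
        rw [lintegral_subtype_comap (measurableSet_singleton _).compl fun x ↦ f (‖x‖),
          restrict_compl_singleton]
    _ = ∫⁻ x, f x.2 ∂μ.toSphere.prod (.volumeIoiPow (Module.finrank ℝ E - 1)) := by
        simpa using μ.measurePreserving_homeomorphUnitSphereProd.lintegral_comp
          (f := f ∘ Subtype.val ∘ Prod.snd)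
          (hf.comp (measurable_subtype_coe.comp measurable_snd))
    _ = μ.toSphere univ * ∫⁻ x : Ioi (0 : ℝ), f x ∂.volumeIoiPow (Module.finrank ℝ E - 1) := by
        have hm : AEMeasurable (fun x : sphere (0:E) 1 × Ioi (0:ℝ) => f x.2)
            (μ.toSphere.prod (.volumeIoiPow (Module.finrank ℝ E - 1))) :=
          (hf.comp (measurable_subtype_coe.comp measurable_snd)).aemeasurable
        rw [lintegral_prod _ hm]
        simp only [lintegral_const]
        rw [mul_comm]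
    _ = _ := by
        rw [Measure.toSphere_apply_univ]
        congr 1
        rw [Measure.volumeIoiPow, lintegral_withDensity_eq_lintegral_mul₀]
        · rw [← lintegral_subtype_comap measurableSet_Ioi
            (fun a => ENNReal.ofReal (a ^ (Module.finrank ℝ E - 1)) * f a)]
          rfl
        · fun_prop
        · exact (hf.comp measurable_subtype_coe).aemeasurable

/-- integration of a function of the norm over a ball -/
theorem lintegral_fun_norm_ball (f : ℝ → ℝ≥0∞) (hf : Measurable f) (ρ : ℝ) :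
    ∫⁻ x in ball (0:E) ρ, f ‖x‖ ∂μ = (Module.finrank ℝ E : ℝ≥0∞) * μ (ball 0 1) *
      ∫⁻ y in Ioo (0 : ℝ) ρ, ENNReal.ofReal (y ^ (Module.finrank ℝ E - 1)) * f y := by
  have h1 : ∫⁻ z in ball (0:E) ρ, f ‖z‖ ∂μ = ∫⁻ z : E, (Iio ρ).indicator f ‖z‖ ∂μ := by
    rw [← lintegral_indicator measurableSet_ball]
    refine lintegral_congr fun z => ?_
    by_cases h : ‖z‖ < ρ
    · rw [indicator_of_mem (by simpa using h), indicator_of_mem (by simpa using h)]
    · rw [indicator_of_notMem (by simpa using h), indicator_of_notMem (by simpa using h)]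
  rw [h1, lintegral_fun_norm μ _ (hf.indicator measurableSet_Iio)]
  congr 1
  have h2 : ∀ r : ℝ, ENNReal.ofReal (r ^ (Module.finrank ℝ E - 1)) * (Iio ρ).indicator f r =
      (Iio ρ).indicator (fun r => ENNReal.ofReal (r ^ (Module.finrank ℝ E - 1)) * f r) r := by
    intro r
    by_cases h : r < ρ
    · rw [indicator_of_mem (by simpa using h), indicator_of_mem (by simpa using h)]
    · rw [indicator_of_notMem (by simpa using h), indicator_of_notMem (by simpa using h), mul_zero]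
  simp_rw [h2]
  rw [lintegral_indicator measurableSet_Iio, Measure.restrict_restrict measurableSet_Iio]
  congr 2
  ext r
  simp [and_comm]

end norm

theorem vol_ball (ρ : ℝ) (hρ : 0 ≤ ρ) : volume (ball (0:ℂ) ρ) = ENNReal.ofReal (Real.pi * ρ ^ 2) := by
  rw [Complex.volume_ball, mul_comm, ENNReal.ofReal_mul Real.pi_pos.le, ENNReal.ofReal_pow hρ]
  congr 1
  rw [← ENNReal.ofReal_coe_nnreal]
  rfl

theorem vol_poly (k : ℕ) : volume (ball (0 : Fin k → ℂ) 1) = ENNReal.ofReal (Real.pi ^ k) := by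
  rw [volume_pi_ball _ one_pos]
  simp only [Pi.zero_apply, vol_ball 1 zero_le_one, one_pow, mul_one, Finset.prod_const,
    Finset.card_univ, Fintype.card_fin]
  rw [ENNReal.ofReal_pow Real.pi_pos.le]

theorem finrank_poly (k : ℕ) : Module.finrank ℝ (Fin k → ℂ) = 2 * k := by
  rw [Module.finrank_pi_fintype]
  simp [Complex.finrank_real_complex, mul_comm]

/-- polar integration in the polydisc -/
theorem lint_poly (k : ℕ) (hk : 1 ≤ k) (f : ℝ → ℝ≥0∞) (hf : Measurable f) :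
    ∫⁻ x in ball (0:Fin k → ℂ) 1, f ‖x‖ = ENNReal.ofReal (2 * k * Real.pi ^ k) *
      ∫⁻ y in Ioo (0 : ℝ) 1, ENNReal.ofReal (y ^ (2 * k - 1)) * f y := by
  have : NeZero k := ⟨by omega⟩
  rw [lintegral_fun_norm_ball volume f hf 1, vol_poly, finrank_poly]
  congr 1
  rw [ENNReal.ofReal_mul (by positivity)]
  congr 1
  rw [show (2:ℝ) * k = ((2 * k : ℕ) : ℝ) by push_cast; ring, ENNReal.ofReal_natCast]

/-- upper bound for `∫ (‖w‖²+s)^{-k}` -/
theorem A_le (k : ℕ) (hk : 1 ≤ k) (s : ℝ) (hs : 0 < s) (hs1 : s ≤ 1) :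
    ∫⁻ w in ball (0:Fin k → ℂ) 1, ENNReal.ofReal (1 / (‖w‖ ^ 2 + s) ^ k) ≤
      ENNReal.ofReal (k * Real.pi ^ k * (1 + Real.log (1 / s))) := by
  rw [lint_poly k hk (fun y => ENNReal.ofReal (1 / (y ^ 2 + s) ^ k)) (by fun_prop)]
  have hne : ∀ y : ℝ, y ^ 2 + s ≠ 0 := fun y => by positivity
  have h1 : ∫⁻ y in Ioo (0:ℝ) 1, ENNReal.ofReal (y ^ (2 * k - 1)) * ENNReal.ofReal (1 / (y ^ 2 + s) ^ k) ≤
      ∫⁻ y in Ioo (0:ℝ) 1, ENNReal.ofReal (y / (y ^ 2 + s)) := by
    apply setLIntegral_mono' measurableSet_Ioo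
    intro y hy
    have hy0 := hy.1
    rw [← ENNReal.ofReal_mul (by positivity)]
    apply ENNReal.ofReal_le_ofReal
    have e1 : y ^ (2 * k - 1) = y * (y ^ 2) ^ (k - 1) := by
      rw [← pow_mul, ← pow_succ']; congr 1; omega
    have e2 : (y ^ 2 + s) ^ k = (y ^ 2 + s) * (y ^ 2 + s) ^ (k - 1) := by
      rw [← pow_succ']; congr 1; omega
    rw [e1, e2, mul_one_div, mul_div_mul_comm]
    have h3 : (y ^ 2) ^ (k - 1) / (y ^ 2 + s) ^ (k - 1) ≤ 1 := by
      rw [div_le_one (by positivity)]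
      gcongr
      linarith
    calc y / (y ^ 2 + s) * ((y ^ 2) ^ (k - 1) / (y ^ 2 + s) ^ (k - 1)) ≤ y / (y ^ 2 + s) * 1 := by gcongr
      _ = y / (y ^ 2 + s) := mul_one _
  have h2 : ∫⁻ y in Ioo (0:ℝ) 1, ENNReal.ofReal (y / (y ^ 2 + s)) =
      ENNReal.ofReal ((1/2) * Real.log (1 ^ 2 + s) - (1/2) * Real.log (0 ^ 2 + s)) := by
    apply Radial.lintegral_Ioo_eq (fun y => (1/2) * Real.log (y ^ 2 + s)) _ 0 1 zero_le_one
    · intro x _
      have h3 : HasDerivAt (fun r : ℝ => r ^ 2 + s) (2 * x) x := by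
        simpa using (hasDerivAt_pow 2 x).add_const s
      have h4 := (h3.log (hne x)).const_mul (1/2 : ℝ)
      convert! h4 using 1
      field_simp
    · apply Continuous.continuousOn
      fun_prop (disch := assumption)
    · intro x hx
      have := hx.1
      positivity
  calc _ ≤ ENNReal.ofReal (2 * k * Real.pi ^ k) *
      ENNReal.ofReal ((1/2) * Real.log (1 ^ 2 + s) - (1/2) * Real.log (0 ^ 2 + s)) := by
        rw [← h2]; gcongr
    _ = ENNReal.ofReal (k * Real.pi ^ k * (Real.log (1 + s) + Real.log (1 / s))) := by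
        rw [← ENNReal.ofReal_mul (by positivity)]
        congr 1
        rw [one_div s, Real.log_inv]
        norm_num
        ring
    _ ≤ _ := by
        apply ENNReal.ofReal_le_ofReal
        have : Real.log (1 + s) ≤ 1 := by
          have := Real.log_le_sub_one_of_pos (show 0 < 1 + s by positivity)
          linarith
        gcongr

/-- upper bound for `∫ (‖w‖²+s)^{-k-1}` -/
theorem B_le (k : ℕ) (hk : 1 ≤ k) (s : ℝ) (hs : 0 < s) :
    ∫⁻ w in ball (0:Fin k → ℂ) 1, ENNReal.ofReal (1 / (‖w‖ ^ 2 + s) ^ (k + 1)) ≤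
      ENNReal.ofReal (k * Real.pi ^ k / s) := by
  rw [lint_poly k hk (fun y => ENNReal.ofReal (1 / (y ^ 2 + s) ^ (k + 1))) (by fun_prop)]
  have hne : ∀ y : ℝ, y ^ 2 + s ≠ 0 := fun y => by positivity
  have hne2 : ∀ y : ℝ, (y ^ 2 + s) ^ 2 ≠ 0 := fun y => by positivity
  have h1 : ∫⁻ y in Ioo (0:ℝ) 1, ENNReal.ofReal (y ^ (2 * k - 1)) *
      ENNReal.ofReal (1 / (y ^ 2 + s) ^ (k + 1)) ≤
      ∫⁻ y in Ioo (0:ℝ) 1, ENNReal.ofReal (y / (y ^ 2 + s) ^ 2) := by
    apply setLIntegral_mono' measurableSet_Ioo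
    intro y hy
    have hy0 := hy.1
    rw [← ENNReal.ofReal_mul (by positivity)]
    apply ENNReal.ofReal_le_ofReal
    have e1 : y ^ (2 * k - 1) = y * (y ^ 2) ^ (k - 1) := by
      rw [← pow_mul, ← pow_succ']; congr 1; omega
    have e2 : (y ^ 2 + s) ^ (k + 1) = (y ^ 2 + s) ^ 2 * (y ^ 2 + s) ^ (k - 1) := by
      rw [← pow_add]; congr 1; omega
    rw [e1, e2, mul_one_div, mul_div_mul_comm]
    have h3 : (y ^ 2) ^ (k - 1) / (y ^ 2 + s) ^ (k - 1) ≤ 1 := by
      rw [div_le_one (by positivity)]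
      gcongr
      linarith
    calc y / (y ^ 2 + s) ^ 2 * ((y ^ 2) ^ (k - 1) / (y ^ 2 + s) ^ (k - 1)) ≤ y / (y ^ 2 + s) ^ 2 * 1 := by gcongr
      _ = y / (y ^ 2 + s) ^ 2 := mul_one _
  have h2 : ∫⁻ y in Ioo (0:ℝ) 1, ENNReal.ofReal (y / (y ^ 2 + s) ^ 2) =
      ENNReal.ofReal (-(1/2) * (1 ^ 2 + s)⁻¹ - -(1/2) * (0 ^ 2 + s)⁻¹) := by
    apply Radial.lintegral_Ioo_eq (fun y => -(1/2) * (y ^ 2 + s)⁻¹) _ 0 1 zero_le_one
    · intro x _
      have h3 : HasDerivAt (fun r : ℝ => r ^ 2 + s) (2 * x) x := by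
        simpa using (hasDerivAt_pow 2 x).add_const s
      have h4 := (h3.inv (hne x)).const_mul (-(1/2) : ℝ)
      convert! h4 using 1
      field_simp
    · apply Continuous.continuousOn
      fun_prop (disch := assumption)
    · intro x hx
      have := hx.1
      positivity
  calc _ ≤ ENNReal.ofReal (2 * k * Real.pi ^ k) *
      ENNReal.ofReal (-(1/2) * (1 ^ 2 + s)⁻¹ - -(1/2) * (0 ^ 2 + s)⁻¹) := by
        rw [← h2]; gcongr
    _ ≤ _ := by
        rw [← ENNReal.ofReal_mul (by positivity)]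
        apply ENNReal.ofReal_le_ofReal
        have h5 : 0 ≤ (1 ^ 2 + s)⁻¹ := by positivity
        have h6 : -(1/2) * (1 ^ 2 + s)⁻¹ - -(1/2) * (0 ^ 2 + s)⁻¹ ≤ (1/2) * s⁻¹ := by
          norm_num
          norm_num at h5
          linarith
        calc 2 * k * Real.pi ^ k * (-(1/2) * (1 ^ 2 + s)⁻¹ - -(1/2) * (0 ^ 2 + s)⁻¹) ≤
            2 * k * Real.pi ^ k * ((1/2) * s⁻¹) := by gcongr
          _ = k * Real.pi ^ k / s := by field_simp

/-- lower bound for `∫ (k‖w‖²+s)^{-k}` -/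
theorem A_ge (k : ℕ) (hk : 1 ≤ k) (s : ℝ) (hs : 0 < s) (hs1 : s ≤ 1) :
    ENNReal.ofReal (k * Real.pi ^ k / (k + 1) ^ k * Real.log (1 / s)) ≤
    ∫⁻ w in ball (0:Fin k → ℂ) 1, ENNReal.ofReal (1 / (k * ‖w‖ ^ 2 + s) ^ k) := by
  rw [lint_poly k hk (fun y => ENNReal.ofReal (1 / (k * y ^ 2 + s) ^ k)) (by fun_prop)]
  set q := Real.sqrt s with hq
  have hq0 : 0 < q := Real.sqrt_pos.2 hs
  have hq2 : q ^ 2 = s := Real.sq_sqrt hs.le
  have hq1 : q ≤ 1 := by rw [hq]; exact Real.sqrt_le_one.2 hs1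
  have hC : (0:ℝ) < 1 / ((k:ℝ) + 1) ^ k := by positivity
  have h2 : ∫⁻ y in Ioo q 1, ENNReal.ofReal (1 / ((k:ℝ) + 1) ^ k * (1 / y)) =
      ENNReal.ofReal (1 / ((k:ℝ) + 1) ^ k * Real.log 1 - 1 / ((k:ℝ) + 1) ^ k * Real.log q) := by
    apply Radial.lintegral_Ioo_eq (fun y => 1 / ((k:ℝ) + 1) ^ k * Real.log y) _ q 1 hq1
    · intro x hx
      have hx0 : x ≠ 0 := (hq0.trans_le hx.1).ne'
      have h4 := (Real.hasDerivAt_log hx0).const_mul (1 / ((k:ℝ) + 1) ^ k)
      convert! h4 using 1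
      rw [one_div x]
    · apply ContinuousOn.mul continuousOn_const
      apply ContinuousOn.div continuousOn_const continuousOn_id
      intro x hx
      exact (hq0.trans_le hx.1).ne'
    · intro x hx
      have := hq0.trans_le hx.1
      positivity
  have h1 : ∫⁻ y in Ioo q 1, ENNReal.ofReal (1 / ((k:ℝ) + 1) ^ k * (1 / y)) ≤
      ∫⁻ y in Ioo (0:ℝ) 1, ENNReal.ofReal (y ^ (2 * k - 1)) * ENNReal.ofReal (1 / (k * y ^ 2 + s) ^ k) := by
    calc _ ≤ ∫⁻ y in Ioo q 1, ENNReal.ofReal (y ^ (2 * k - 1)) * ENNReal.ofReal (1 / (k * y ^ 2 + s) ^ k) := by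
          apply setLIntegral_mono' measurableSet_Ioo
          intro y hy
          have hy0 : 0 < y := hq0.trans hy.1
          rw [← ENNReal.ofReal_mul (by positivity)]
          apply ENNReal.ofReal_le_ofReal
          have h5 : k * y ^ 2 + s ≤ (k + 1) * y ^ 2 := by
            have : s ≤ y ^ 2 := by rw [← hq2]; gcongr; exact hy.1.le
            linarith
          have e1 : y ^ (2 * k) = y ^ (2 * k - 1) * y := by
            rw [← pow_succ]; congr 1; omega
          calc 1 / ((k:ℝ) + 1) ^ k * (1 / y) = y ^ (2 * k - 1) * (1 / ((k + 1) * y ^ 2) ^ k) := by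
                rw [mul_pow, ← pow_mul, e1]
                field_simp
            _ ≤ y ^ (2 * k - 1) * (1 / (k * y ^ 2 + s) ^ k) := by gcongr
      _ ≤ _ := lintegral_mono_set (Ioo_subset_Ioo_left hq0.le)
  calc _ = ENNReal.ofReal (2 * k * Real.pi ^ k) *
      ENNReal.ofReal (1 / ((k:ℝ) + 1) ^ k * Real.log 1 - 1 / ((k:ℝ) + 1) ^ k * Real.log q) := by
        rw [← ENNReal.ofReal_mul (by positivity)]
        congr 1
        rw [one_div s, Real.log_inv, ← hq2, Real.log_pow, Real.log_one]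
        push_cast
        ring
    _ ≤ _ := by rw [← h2]; gcongr

end Pool.Agent.Q172.Hopf
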