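import Mathlib

open MeasureTheory Set Metric Matrix
open scoped ENNReal

namespace Pool.Agent.Q172.Hopf

/-- `ℂ^m × ℂ^k` with the maximum norm: its unit ball is the unit polydisc `Δ^{m+k}`. -/
abbrev Dom (m k : ℕ) := (Fin m → ℂ) × (Fin k → ℂ)

variable {m k N : ℕ}

/-- the standard unit vectors of `ℂ^m × ℂ^k` -/
noncomputable def unitVec : Fin m ⊕ Fin k → Dom m k
  | Sum.inl i => (Pi.single i 1, 0)
  | Sum.inr j => (0, Pi.single j 1)

/-- `∂x_a/∂b`, the partial derivative of the `a`-th coordinate of `x` in the direction of the `b`-th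
coordinate of `ℂ^m × ℂ^k` -/
noncomputable def partialD (x : Dom m k → (Fin N → ℂ)) (p : Dom m k) (a : Fin N) (b : Fin m ⊕ Fin k) :
    ℂ := fderiv ℂ x p (unitVec b) a

/-- The matrix of the pull-back under `x` of the form `(∑ |dx_a|²) / |x|²`, which is the Hermitian
metric of the Hopf manifold `(ℂ^N \ 0) / (x ~ 2x)`. -/
noncomputable def gram (x : Dom m k → (Fin N → ℂ)) (p : Dom m k) :
    Matrix (Fin m ⊕ Fin k) (Fin m ⊕ Fin k) ℂ :=
  Matrix.of fun b c => (∑ a, partialD x p a b * (starRingEnd ℂ) (partialD x p a c)) /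
    ((∑ a, ‖x p a‖ ^ 2 : ℝ) : ℂ)

/-- the volume of the part over `U` of the graph of `f = [x]` -/
noncomputable def graphVol (x : Dom m k → (Fin N → ℂ)) (U : Set (Dom m k)) : ℝ≥0∞ :=
  ∫⁻ p in U, ENNReal.ofReal (Matrix.det (1 + gram x p)).re

/-- the volume of the part over `V` of the graph of the restriction `f_z` of `f = [x]` to `{z} × ℂ^k` -/
noncomputable def sliceVol (x : Dom m k → (Fin N → ℂ)) (z : Fin m → ℂ) (V : Set (Fin k → ℂ)) : ℝ≥0∞ :=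
  ∫⁻ w in V, ENNReal.ofReal
    (Matrix.det (1 + (gram x (z, w)).submatrix (Sum.inr : Fin k → Fin m ⊕ Fin k) Sum.inr)).re

/-- the example: `(z, w) ↦ (η(z₀), w)` -/
noncomputable def ex (m k : ℕ) (η : ℂ → ℂ) (p : Dom (m+1) k) : Fin (k+1) → ℂ :=
  Fin.cons (η (p.1 0)) p.2

/-- the derivative of the example -/
noncomputable def exD (m k : ℕ) (d : ℂ) : Dom (m+1) k →L[ℂ] (Fin (k+1) → ℂ) :=
  ContinuousLinearMap.pi (Fin.cons (d • ((ContinuousLinearMap.proj 0).comp (ContinuousLinearMap.fst ℂ _ _)))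
    (fun j => (ContinuousLinearMap.proj j).comp (ContinuousLinearMap.snd ℂ _ _)))

theorem ex_hasFDerivAt (η : ℂ → ℂ) (p : Dom (m+1) k) (d : ℂ) (hd : HasDerivAt η d (p.1 0)) :
    HasFDerivAt (ex m k η) (exD m k d) p := by
  rw [hasFDerivAt_pi']
  intro a
  refine Fin.cases ?_ (fun j => ?_) a
  · have h1 : HasFDerivAt (fun q : Dom (m+1) k => q.1 0)
        ((ContinuousLinearMap.proj (R := ℂ) (φ := fun _ : Fin (m+1) => ℂ) 0).comp
          (ContinuousLinearMap.fst ℂ (Fin (m+1) → ℂ) (Fin k → ℂ))) p :=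
      ((ContinuousLinearMap.proj (R := ℂ) (φ := fun _ : Fin (m+1) => ℂ) 0).comp
          (ContinuousLinearMap.fst ℂ (Fin (m+1) → ℂ) (Fin k → ℂ))).hasFDerivAt
    have h2 := hd.comp_hasFDerivAt p h1
    convert! h2 using 1
  · have h1 : HasFDerivAt (fun q : Dom (m+1) k => q.2 j)
        ((ContinuousLinearMap.proj (R := ℂ) (φ := fun _ : Fin k => ℂ) j).comp
          (ContinuousLinearMap.snd ℂ (Fin (m+1) → ℂ) (Fin k → ℂ))) p :=
      ((ContinuousLinearMap.proj (R := ℂ) (φ := fun _ : Fin k => ℂ) j).comp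
          (ContinuousLinearMap.snd ℂ (Fin (m+1) → ℂ) (Fin k → ℂ))).hasFDerivAt
    convert! h1 using 1

theorem partialD_ex (η : ℂ → ℂ) (p : Dom (m+1) k) (d : ℂ) (hd : HasDerivAt η d (p.1 0))
    (a : Fin (k+1)) (b : Fin (m+1) ⊕ Fin k) :
    partialD (ex m k η) p a b = (Fin.cons (d * (unitVec (k := k) b).1 0) (unitVec b).2 : Fin (k+1) → ℂ) a := by
  unfold partialD
  rw [(ex_hasFDerivAt η p d hd).fderiv]
  refine Fin.cases ?_ (fun j => ?_) a
  · simp [exD]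
  · simp [exD]

/-- the diagonal -/
noncomputable def dg (m k : ℕ) (A B : ℝ) : Fin (m+1) ⊕ Fin k → ℂ :=
  Sum.elim (fun i => if i = 0 then (A : ℂ) else 0) (fun _ => (B : ℂ))

theorem gram_ex (η : ℂ → ℂ) (p : Dom (m+1) k) (d : ℂ) (hd : HasDerivAt η d (p.1 0)) :
    gram (ex m k η) p = Matrix.diagonal (dg m k (‖d‖ ^ 2 / (‖η (p.1 0)‖ ^ 2 + ∑ j, ‖p.2 j‖ ^ 2))
      (1 / (‖η (p.1 0)‖ ^ 2 + ∑ j, ‖p.2 j‖ ^ 2))) := by
  have hS : (∑ a, ‖ex m k η p a‖ ^ 2 : ℝ) = ‖η (p.1 0)‖ ^ 2 + ∑ j, ‖p.2 j‖ ^ 2 := by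
    rw [Fin.sum_univ_succ]
    simp [ex]
  ext b c
  simp only [gram, Matrix.of_apply]
  rw [hS]
  simp only [partialD_ex η p d hd]
  rw [Fin.sum_univ_succ]
  simp only [Fin.cons_zero, Fin.cons_succ, map_mul]
  have hdd : d * (starRingEnd ℂ) d = ((‖d‖ ^ 2 : ℝ) : ℂ) := by
    rw [Complex.mul_conj, Complex.normSq_eq_norm_sq]
  rcases b with i | j <;> rcases c with i' | j'
  · simp only [unitVec, Pi.zero_apply, zero_mul, Finset.sum_const_zero, add_zero]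
    by_cases hi : i = 0 <;> by_cases hi' : i' = 0
    · subst hi; subst hi'
      simp only [Pi.single_eq_same, map_one, mul_one, Matrix.diagonal_apply_eq, dg, Sum.elim_inl, if_true]
      rw [hdd]; push_cast; ring
    · subst hi
      rw [Matrix.diagonal_apply_ne _ (by simpa using Ne.symm hi')]
      simp [Pi.single_eq_of_ne (Ne.symm hi')]
    · subst hi'
      rw [Matrix.diagonal_apply_ne _ (by simpa using hi)]
      simp [Pi.single_eq_of_ne (Ne.symm hi)]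
    · by_cases hii : i = i'
      · subst hii
        rw [Matrix.diagonal_apply_eq]
        simp [Pi.single_eq_of_ne (Ne.symm hi), dg, hi]
      · rw [Matrix.diagonal_apply_ne _ (by simpa using hii)]
        simp [Pi.single_eq_of_ne (Ne.symm hi)]
  · rw [Matrix.diagonal_apply_ne _ (by simp)]
    simp [unitVec]
  · rw [Matrix.diagonal_apply_ne _ (by simp)]
    simp [unitVec]
  · by_cases hj : j = j'
    · subst hj
      rw [Matrix.diagonal_apply_eq]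
      simp [unitVec, dg, Pi.single_apply]
    · rw [Matrix.diagonal_apply_ne _ (by simpa using hj)]
      have : ∑ x, (Pi.single j 1 : Fin k → ℂ) x * (starRingEnd ℂ) ((Pi.single j' 1 : Fin k → ℂ) x) = 0 := by
        apply Finset.sum_eq_zero
        intro x _
        by_cases hx : x = j
        · subst hx
          simp [Pi.single_eq_of_ne hj]
        · simp [Pi.single_eq_of_ne hx]
      simp [unitVec, this]

theorem det_ex (η : ℂ → ℂ) (p : Dom (m+1) k) (d : ℂ) (hd : HasDerivAt η d (p.1 0)) :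
    (Matrix.det (1 + gram (ex m k η) p)).re =
      (1 + ‖d‖ ^ 2 / (‖η (p.1 0)‖ ^ 2 + ∑ j, ‖p.2 j‖ ^ 2)) *
      (1 + 1 / (‖η (p.1 0)‖ ^ 2 + ∑ j, ‖p.2 j‖ ^ 2)) ^ k := by
  rw [gram_ex η p d hd, ← Matrix.diagonal_one, Matrix.diagonal_add, Matrix.det_diagonal,
    Fintype.prod_sum_type]
  simp only [dg, Sum.elim_inl, Sum.elim_inr, Finset.prod_const, Finset.card_univ, Fintype.card_fin]
  have h1 : ∏ i : Fin (m+1), (1 + if i = 0 then
      (((‖d‖ ^ 2 / (‖η (p.1 0)‖ ^ 2 + ∑ j, ‖p.2 j‖ ^ 2) : ℝ)) : ℂ) else 0) =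
      1 + (((‖d‖ ^ 2 / (‖η (p.1 0)‖ ^ 2 + ∑ j, ‖p.2 j‖ ^ 2) : ℝ)) : ℂ) := by
    rw [Fin.prod_univ_succ]
    simp
  rw [h1]
  set P : ℝ := ‖d‖ ^ 2 / (‖η (p.1 0)‖ ^ 2 + ∑ j, ‖p.2 j‖ ^ 2)
  set Q : ℝ := 1 / (‖η (p.1 0)‖ ^ 2 + ∑ j, ‖p.2 j‖ ^ 2)
  have h2 : (1 + (P:ℂ)) * (1 + (Q:ℂ)) ^ k = (((1 + P) * (1 + Q) ^ k : ℝ) : ℂ) := by push_cast; ring
  rw [h2, Complex.ofReal_re]

theorem det_slice (η : ℂ → ℂ) (z : Fin (m+1) → ℂ) (w : Fin k → ℂ) (d : ℂ) (hd : HasDerivAt η d (z 0)) :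
    (Matrix.det (1 + (gram (ex m k η) (z, w)).submatrix (Sum.inr : Fin k → Fin (m+1) ⊕ Fin k) Sum.inr)).re =
      (1 + 1 / (‖η (z 0)‖ ^ 2 + ∑ j, ‖w j‖ ^ 2)) ^ k := by
  rw [gram_ex η (z, w) d hd, Matrix.submatrix_diagonal _ _ Sum.inr_injective, ← Matrix.diagonal_one,
    Matrix.diagonal_add, Matrix.det_diagonal]
  simp only [dg, Function.comp, Sum.elim_inr, Finset.prod_const, Finset.card_univ, Fintype.card_fin]
  set Q : ℝ := 1 / (‖η (z 0)‖ ^ 2 + ∑ j, ‖w j‖ ^ 2)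
  have h2 : (1 + (Q:ℂ)) ^ k = (((1 + Q) ^ k : ℝ) : ℂ) := by push_cast; ring
  rw [h2, Complex.ofReal_re]

end Pool.Agent.Q172.Hopf
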