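import Mathlib
import Pool.Agent.Q172.Radial
import Pool.Agent.Q172.HopfA
import Pool.Agent.Q172.HopfB

open MeasureTheory Set Metric
open scoped ENNReal

namespace Pool.Agent.Q172.Hopf

/-- integral over the polydisc of a function of the first coordinate -/
theorem lint_eval (m : ℕ) (g : ℂ → ℝ≥0∞) (hg : Measurable g) :
    ∫⁻ z in ball (0:Fin (m+1) → ℂ) 1, g (z 0) =
      ENNReal.ofReal (Real.pi ^ m) * ∫⁻ ζ in ball (0:ℂ) 1, g ζ := by
  have hb : ball (0:Fin (m+1) → ℂ) 1 = Set.pi univ (fun _ => ball (0:ℂ) 1) := by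
    rw [ball_pi _ one_pos]; rfl
  have hr : (volume : Measure (Fin (m+1) → ℂ)).restrict (ball 0 1) =
      Measure.pi (fun _ : Fin (m+1) => (volume : Measure ℂ).restrict (ball (0:ℂ) 1)) := by
    rw [hb, volume_pi, Measure.restrict_pi_pi]
  rw [hr]
  have h1 : ∫⁻ z, g (z 0) ∂(Measure.pi (fun _ : Fin (m+1) => (volume : Measure ℂ).restrict (ball (0:ℂ) 1))) =
      ∫⁻ ζ, g ζ ∂((Measure.pi (fun _ : Fin (m+1) => (volume : Measure ℂ).restrict (ball (0:ℂ) 1))).map
        (Function.eval 0)) := by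
    rw [lintegral_map hg (measurable_pi_apply 0)]
  rw [h1, Measure.pi_map_eval, lintegral_smul_measure]
  simp only [Measure.restrict_apply_univ, vol_ball 1 zero_le_one, one_pow, mul_one,
    Finset.prod_const, smul_eq_mul]
  congr 1
  rw [Finset.card_erase_of_mem (Finset.mem_univ _), Finset.card_univ, Fintype.card_fin,
    ENNReal.ofReal_pow Real.pi_pos.le]
  rfl

section par
variable (T : ℝ)

noncomputable def tau : ℝ := Real.exp (-T ^ 2)
noncomputable def rho : ℝ := 1 - tau T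
noncomputable def cc : ℝ := 1 / (2 * T)
noncomputable def EE (ζ : ℂ) : ℝ := ‖1 - (rho T : ℂ) * ζ‖
noncomputable def eta (ζ : ℂ) : ℂ :=
  Complex.exp ((cc T : ℂ) * (Complex.log (1 - (rho T : ℂ) * ζ) - (Real.log 2 : ℂ)))
noncomputable def etaD (ζ : ℂ) : ℂ :=
  eta T ζ * ((cc T : ℂ) * (-(rho T : ℂ) / (1 - (rho T : ℂ) * ζ)))
noncomputable def sg (ζ : ℂ) : ℝ := ‖eta T ζ‖ ^ 2

variable {T} (hT : 1 ≤ T)
include hT

theorem tau_pos : 0 < tau T := Real.exp_pos _

theorem tau_lt : tau T < 1 := by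
  unfold tau
  rw [Real.exp_lt_one_iff]
  nlinarith

theorem rho_pos : 0 < rho T := by have := tau_lt hT; unfold rho; linarith
theorem rho_lt : rho T < 1 := by have := tau_pos hT; unfold rho; linarith
theorem cc_pos : 0 < cc T := by unfold cc; positivity
theorem cc_le : cc T ≤ 1 := by
  unfold cc
  rw [div_le_one (by positivity)]
  linarith

theorem re_pos (ζ : ℂ) (hζ : ‖ζ‖ < 1) : 0 < (1 - (rho T : ℂ) * ζ).re := by
  have h1 : |ζ.re| ≤ ‖ζ‖ := Complex.abs_re_le_norm ζ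
  have h2 := (abs_le.1 h1).2
  have := rho_pos hT
  have := rho_lt hT
  simp only [Complex.sub_re, Complex.one_re, Complex.re_ofReal_mul]
  nlinarith

theorem ne_zero' (ζ : ℂ) (hζ : ‖ζ‖ < 1) : 1 - (rho T : ℂ) * ζ ≠ 0 := by
  intro h
  have := re_pos hT ζ hζ
  rw [h] at this
  simp at this

theorem eta_deriv (ζ : ℂ) (hζ : ‖ζ‖ < 1) : HasDerivAt (eta T) (etaD T ζ) ζ := by
  have h0 : HasDerivAt (fun ζ : ℂ => 1 - (rho T : ℂ) * ζ) (-(rho T : ℂ)) ζ := by
    have := ((hasDerivAt_id ζ).const_mul (rho T : ℂ)).const_sub 1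
    simpa using this
  have h1 := h0.clog (Or.inl (re_pos hT ζ hζ))
  have h2 := ((h1.sub_const (Real.log 2 : ℂ)).const_mul (cc T : ℂ)).cexp
  exact h2

theorem EE_pos (ζ : ℂ) (hζ : ‖ζ‖ < 1) : 0 < EE T ζ := norm_pos_iff.2 (ne_zero' hT ζ hζ)

theorem EE_le (ζ : ℂ) (hζ : ‖ζ‖ < 1) : EE T ζ ≤ 2 := by
  unfold EE
  have h1 := norm_sub_le (1:ℂ) ((rho T : ℂ) * ζ)
  rw [norm_one, norm_mul, Complex.norm_real, Real.norm_of_nonneg (rho_pos hT).le] at h1
  have := rho_pos hT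
  have := rho_lt hT
  have h3 := norm_nonneg ζ
  nlinarith

theorem tau_le_EE (ζ : ℂ) (hζ : ‖ζ‖ < 1) : tau T ≤ EE T ζ := by
  unfold EE
  have h1 := norm_sub_norm_le (1:ℂ) ((rho T : ℂ) * ζ)
  rw [norm_one, norm_mul, Complex.norm_real, Real.norm_of_nonneg (rho_pos hT).le] at h1
  have := rho_pos hT
  have h4 : tau T = 1 - rho T := by unfold rho; ring
  nlinarith

theorem dist_le_EE (ζ : ℂ) (hζ : ‖ζ‖ < 1) : ‖1 - ζ‖ ≤ 2 * EE T ζ := by
  have h1 : ‖1 - ζ‖ ≤ EE T ζ + tau T * ‖ζ‖ := by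
    have e : 1 - ζ = (1 - (rho T : ℂ) * ζ) - (tau T : ℂ) * ζ := by
      unfold rho; push_cast; ring
    rw [e]
    refine (norm_sub_le _ _).trans ?_
    rw [norm_mul, Complex.norm_real, Real.norm_of_nonneg (tau_pos hT).le]
    rfl
  have h2 := tau_le_EE hT ζ hζ
  have := tau_pos hT
  nlinarith

theorem norm_eta (ζ : ℂ) : ‖eta T ζ‖ = Real.exp (cc T * (Real.log (EE T ζ) - Real.log 2)) := by
  unfold eta EE
  rw [Complex.norm_exp, Complex.re_ofReal_mul, Complex.sub_re, Complex.log_re, Complex.ofReal_re]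

theorem sg_eq (ζ : ℂ) : sg T ζ = Real.exp (-(2 * cc T * (Real.log 2 - Real.log (EE T ζ)))) := by
  unfold sg
  rw [norm_eta hT, ← Real.exp_nat_mul]
  congr 1
  push_cast
  ring

theorem sg_pos (ζ : ℂ) : 0 < sg T ζ := by rw [sg_eq hT]; exact Real.exp_pos _

theorem sg_le (ζ : ℂ) (hζ : ‖ζ‖ < 1) : sg T ζ ≤ 1 := by
  rw [sg_eq hT, Real.exp_le_one_iff]
  have h1 : Real.log (EE T ζ) ≤ Real.log 2 := Real.log_le_log (EE_pos hT ζ hζ) (EE_le hT ζ hζ)
  have := cc_pos hT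
  have : 0 ≤ 2 * cc T * (Real.log 2 - Real.log (EE T ζ)) := by
    apply mul_nonneg (by positivity); linarith
  linarith

theorem log_sg (ζ : ℂ) : Real.log (1 / sg T ζ) = 2 * cc T * (Real.log 2 - Real.log (EE T ζ)) := by
  rw [sg_eq hT, one_div, ← Real.exp_neg, Real.log_exp]
  ring

theorem norm_etaD (ζ : ℂ) : ‖etaD T ζ‖ ^ 2 = sg T ζ * ((cc T) ^ 2 * (rho T) ^ 2 / (EE T ζ) ^ 2) := by
  unfold etaD sg EE
  rw [norm_mul, norm_mul, norm_div, norm_neg, Complex.norm_real, Complex.norm_real,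
    Real.norm_of_nonneg (rho_pos hT).le, Real.norm_of_nonneg (cc_pos hT).le]
  ring

/-- the pointwise bound of the density in `z` -/
theorem dens_le (ζ : ℂ) (hζ : ‖ζ‖ < 1) :
    1 + Real.log (1 / sg T ζ) + ‖etaD T ζ‖ ^ 2 / sg T ζ ≤
      1 + 8 / ‖1 - ζ‖ + 9 * (cc T) ^ 2 / (tau T + ‖1 - ζ‖) ^ 2 := by
  have hE := EE_pos hT ζ hζ
  have hs := sg_pos hT ζ
  have hc := cc_pos hT
  have hc1 := cc_le hT
  have hτ := tau_pos hT
  have hd := dist_le_EE hT ζ hζ
  have hτE := tau_le_EE hT ζ hζ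
  have hu : 0 < ‖1 - ζ‖ := by
    rw [norm_pos_iff, sub_ne_zero]
    rintro rfl
    simp at hζ
  have h1 : Real.log (1 / sg T ζ) ≤ 8 / ‖1 - ζ‖ := by
    rw [log_sg hT, ← Real.log_div (by norm_num) hE.ne']
    have h2 : Real.log (2 / EE T ζ) ≤ 2 / EE T ζ := by
      have := Real.log_le_sub_one_of_pos (show 0 < 2 / EE T ζ by positivity)
      linarith
    have h3 : 2 / EE T ζ ≤ 4 / ‖1 - ζ‖ := by
      rw [div_le_div_iff₀ hE hu]; linarith
    have h4 : 0 ≤ 4 / ‖1 - ζ‖ := by positivity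
    calc 2 * cc T * Real.log (2 / EE T ζ) ≤ 2 * cc T * (4 / ‖1 - ζ‖) := by gcongr; linarith
      _ ≤ 2 * 1 * (4 / ‖1 - ζ‖) := by gcongr
      _ = 8 / ‖1 - ζ‖ := by ring
  have h5 : ‖etaD T ζ‖ ^ 2 / sg T ζ ≤ 9 * (cc T) ^ 2 / (tau T + ‖1 - ζ‖) ^ 2 := by
    rw [norm_etaD hT, mul_div_assoc, mul_comm, div_mul_cancel₀ _ hs.ne', div_le_div_iff₀ (by positivity) (by positivity)]
    have h6 : tau T + ‖1 - ζ‖ ≤ 3 * EE T ζ := by linarith
    have h7 : (tau T + ‖1 - ζ‖) ^ 2 ≤ (3 * EE T ζ) ^ 2 := by gcongr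
    have h8 : rho T ^ 2 ≤ 1 := by
      have := rho_pos hT; have := rho_lt hT; nlinarith
    calc cc T ^ 2 * rho T ^ 2 * (tau T + ‖1 - ζ‖) ^ 2 ≤ cc T ^ 2 * 1 * (3 * EE T ζ) ^ 2 := by gcongr
      _ = 9 * cc T ^ 2 * EE T ζ ^ 2 := by ring
  linarith

theorem int_dens : ∫⁻ ζ in ball (0:ℂ) 1,
    ENNReal.ofReal (1 + Real.log (1 / sg T ζ) + ‖etaD T ζ‖ ^ 2 / sg T ζ) ≤ ENNReal.ofReal (54 * Real.pi) := by
  have hτ := tau_pos hT
  have hτ1 := tau_lt hT
  have hc := cc_pos hT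
  set φ : ℝ → ℝ≥0∞ := fun t => 1 + ENNReal.ofReal (8 / t) + ENNReal.ofReal (9 * (cc T) ^ 2 / (tau T + t) ^ 2) with hφ
  have mφ : Measurable φ := by rw [hφ]; fun_prop
  have h1 : ∫⁻ ζ in ball (0:ℂ) 1,
      ENNReal.ofReal (1 + Real.log (1 / sg T ζ) + ‖etaD T ζ‖ ^ 2 / sg T ζ) ≤
      ∫⁻ ζ in ball (0:ℂ) 1, φ ‖1 - ζ‖ := by
    apply setLIntegral_mono' measurableSet_ball
    intro ζ hζ
    rw [mem_ball_zero_iff] at hζ
    rw [hφ]
    simp only
    rw [← ENNReal.ofReal_one, ← ENNReal.ofReal_add zero_le_one (by positivity),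
      ← ENNReal.ofReal_add (by positivity) (by positivity)]
    exact ENNReal.ofReal_le_ofReal (dens_le hT ζ hζ)
  have h2 : ∫⁻ ζ in ball (0:ℂ) 1, φ ‖1 - ζ‖ ≤ ∫⁻ u in ball (0:ℂ) 2, φ ‖u‖ := by
    rw [← lintegral_indicator measurableSet_ball, ← lintegral_indicator measurableSet_ball]
    rw [← lintegral_sub_left_eq_self (fun u : ℂ => (ball (0:ℂ) 2).indicator (fun u => φ ‖u‖) u) 1]
    apply lintegral_mono
    intro ζ
    by_cases h : ζ ∈ ball (0:ℂ) 1
    · have h' : (1 - ζ) ∈ ball (0:ℂ) 2 := by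
        rw [mem_ball_zero_iff] at h ⊢
        have := norm_sub_le (1:ℂ) ζ
        rw [norm_one] at this
        linarith
      simp only [indicator_of_mem h, indicator_of_mem h', le_refl]
    · simp only [indicator_of_notMem h, zero_le]
  have h3 : ∫⁻ u in ball (0:ℂ) 2, φ ‖u‖ ≤ ENNReal.ofReal (54 * Real.pi) := by
    rw [Radial.lintegral_radial_ball φ mφ]
    have e1 : ∫⁻ t in Ioo (0:ℝ) 2, ENNReal.ofReal t * φ t ≤
        ∫⁻ t in Ioo (0:ℝ) 2, ENNReal.ofReal (10 + 9 * (cc T) ^ 2 * (1 / (tau T + t))) := by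
      apply setLIntegral_mono' measurableSet_Ioo
      intro t ht
      have ht0 := ht.1
      have ht2 := ht.2
      rw [hφ]
      simp only
      rw [← ENNReal.ofReal_one, ← ENNReal.ofReal_add zero_le_one (by positivity),
        ← ENNReal.ofReal_add (by positivity) (by positivity), ← ENNReal.ofReal_mul ht0.le]
      apply ENNReal.ofReal_le_ofReal
      have e2 : t * (1 + 8 / t + 9 * cc T ^ 2 / (tau T + t) ^ 2) =
          t + 8 + 9 * cc T ^ 2 * (1 / (tau T + t)) * (t / (tau T + t)) := by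
        field_simp
      have e3 : t / (tau T + t) ≤ 1 := by
        rw [div_le_one (by positivity)]; linarith
      rw [e2]
      calc t + 8 + 9 * cc T ^ 2 * (1 / (tau T + t)) * (t / (tau T + t)) ≤
          2 + 8 + 9 * cc T ^ 2 * (1 / (tau T + t)) * 1 := by gcongr
        _ = 10 + 9 * cc T ^ 2 * (1 / (tau T + t)) := by ring
    have e4 : ∫⁻ t in Ioo (0:ℝ) 2, ENNReal.ofReal (10 + 9 * (cc T) ^ 2 * (1 / (tau T + t))) =
        ENNReal.ofReal ((10 * 2 + 9 * (cc T) ^ 2 * Real.log (tau T + 2)) -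
          (10 * 0 + 9 * (cc T) ^ 2 * Real.log (tau T + 0))) := by
      apply Radial.lintegral_Ioo_eq (fun t => 10 * t + 9 * (cc T) ^ 2 * Real.log (tau T + t)) _ 0 2 (by norm_num)
      · intro x hx
        have hx0 : tau T + x ≠ 0 := by have := hx.1; positivity
        have h3 : HasDerivAt (fun t : ℝ => tau T + t) 1 x := by
          simpa using (hasDerivAt_id x).const_add (tau T)
        have h4 := ((hasDerivAt_id x).const_mul (10:ℝ)).add ((h3.log hx0).const_mul (9 * (cc T) ^ 2))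
        convert! h4 using 1
        simp
      · apply ContinuousOn.add continuousOn_const
        apply ContinuousOn.mul continuousOn_const
        apply ContinuousOn.div continuousOn_const (by fun_prop)
        intro x hx
        have := hx.1
        positivity
      · intro x hx
        have := hx.1
        positivity
    calc ENNReal.ofReal (2 * Real.pi) * ∫⁻ t in Ioo (0:ℝ) 2, ENNReal.ofReal t * φ t ≤
        ENNReal.ofReal (2 * Real.pi) * ENNReal.ofReal ((10 * 2 + 9 * (cc T) ^ 2 * Real.log (tau T + 2)) -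
          (10 * 0 + 9 * (cc T) ^ 2 * Real.log (tau T + 0))) := by rw [← e4]; gcongr
      _ ≤ ENNReal.ofReal (54 * Real.pi) := by
        rw [← ENNReal.ofReal_mul (by positivity)]
        apply ENNReal.ofReal_le_ofReal
        have e5 : Real.log (tau T + 0) = -T ^ 2 := by
          unfold tau; rw [add_zero, Real.log_exp]
        have e6 : Real.log (tau T + 2) ≤ 2 := by
          have := Real.log_le_sub_one_of_pos (show 0 < tau T + 2 by positivity)
          linarith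
        have e7 : (cc T) ^ 2 * (2 + T ^ 2) ≤ 3 / 4 := by
          unfold cc
          rw [div_pow, one_pow, mul_pow, div_mul_eq_mul_div, div_le_iff₀ (by positivity)]
          nlinarith
        rw [e5]
        have e8 : (10 * 2 + 9 * cc T ^ 2 * Real.log (tau T + 2)) - (10 * 0 + 9 * cc T ^ 2 * -T ^ 2) ≤ 27 := by
          have : 9 * cc T ^ 2 * Real.log (tau T + 2) ≤ 9 * cc T ^ 2 * 2 := by gcongr
          nlinarith
        have hpi := Real.pi_pos
        calc 2 * Real.pi * ((10 * 2 + 9 * cc T ^ 2 * Real.log (tau T + 2)) - (10 * 0 + 9 * cc T ^ 2 * -T ^ 2)) ≤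
            2 * Real.pi * 27 := by gcongr
          _ = 54 * Real.pi := by ring
  exact h1.trans (h2.trans h3)

end par

end Pool.Agent.Q172.Hopf
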