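import Mathlib
import Pool.Agent.Q172.HopfC

open MeasureTheory Set Metric
open scoped ENNReal

namespace Pool.Agent.Q172.Hopf

/-- sums of squares and the maximum norm -/
theorem sum_sq_le {k : ℕ} (w : Fin k → ℂ) : ∑ j, ‖w j‖ ^ 2 ≤ k * ‖w‖ ^ 2 := by
  calc ∑ j, ‖w j‖ ^ 2 ≤ ∑ _j : Fin k, ‖w‖ ^ 2 := by
        apply Finset.sum_le_sum
        intro j _
        have := norm_le_pi_norm w j
        gcongr
    _ = k * ‖w‖ ^ 2 := by simp

theorem le_sum_sq {k : ℕ} (w : Fin k → ℂ) : ‖w‖ ^ 2 ≤ ∑ j, ‖w j‖ ^ 2 := by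
  by_cases hk : k = 0
  · subst hk
    have : w = 0 := Subsingleton.elim _ _
    simp [this]
  have : NeZero k := ⟨hk⟩
  obtain ⟨j, hj⟩ : ∃ j, ‖w‖ = ‖w j‖ := by
    obtain ⟨j, -, hj⟩ := Finset.exists_mem_eq_sup' (Finset.univ_nonempty (α := Fin k)) (fun j => ‖w j‖)
    refine ⟨j, ?_⟩
    rw [← hj]
    apply le_antisymm
    · apply (pi_norm_le_iff_of_nonneg ?_).2
      · intro i
        exact Finset.le_sup' (fun j => ‖w j‖) (Finset.mem_univ i)
      · exact (norm_nonneg (w j)).trans (Finset.le_sup' (fun j => ‖w j‖) (Finset.mem_univ j))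
    · apply Finset.sup'_le
      intro i _
      exact norm_le_pi_norm w i
  rw [hj]
  exact Finset.single_le_sum (f := fun j => ‖w j‖ ^ 2) (fun i _ => by positivity) (Finset.mem_univ j)

variable {m k : ℕ} {T : ℝ}

/-- the pointwise bound of the graph density -/
theorem dens_bound (hT : 1 ≤ T) (z : Fin (m+1) → ℂ) (w : Fin k → ℂ) (hz : ‖z‖ < 1) (hw : ‖w‖ < 1) :
    (Matrix.det (1 + gram (ex m k (eta T)) (z, w))).re ≤
      (k + 2) ^ k * (1 / (‖w‖ ^ 2 + sg T (z 0)) ^ k +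
        ‖etaD T (z 0)‖ ^ 2 * (1 / (‖w‖ ^ 2 + sg T (z 0)) ^ (k + 1))) := by
  have hz0 : ‖z 0‖ < 1 := (norm_le_pi_norm z 0).trans_lt hz
  rw [det_ex (eta T) (z, w) (etaD T (z 0)) (eta_deriv hT _ hz0)]
  have hs := sg_pos hT (z 0)
  have hs1 := sg_le hT (z 0) hz0
  have h1 := le_sum_sq w
  have h2 := sum_sq_le w
  have hw2 : ‖w‖ ^ 2 ≤ 1 := pow_le_one₀ (norm_nonneg _) hw.le
  have hk0 : (0:ℝ) ≤ k := Nat.cast_nonneg k
  set S := ‖eta T (z 0)‖ ^ 2 + ∑ j, ‖w j‖ ^ 2 with hS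
  have hsS : sg T (z 0) + ‖w‖ ^ 2 ≤ S := by rw [hS]; unfold sg; linarith
  have hS0 : 0 < S := by positivity
  have hSk : S ≤ k + 1 := by
    have h3 : k * ‖w‖ ^ 2 ≤ k * 1 := by gcongr
    have h4 : ‖eta T (z 0)‖ ^ 2 ≤ 1 := hs1
    rw [hS]
    linarith
  have h5 : 1 + 1 / S ≤ (k + 2) / S := by
    rw [le_div_iff₀ hS0, add_mul, one_mul, one_div, inv_mul_cancel₀ hS0.ne']
    linarith
  have hdS : 0 ≤ ‖etaD T (z 0)‖ ^ 2 := by positivity
  calc (1 + ‖etaD T (z 0)‖ ^ 2 / S) * (1 + 1 / S) ^ k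
      ≤ (1 + ‖etaD T (z 0)‖ ^ 2 / S) * ((k + 2) / S) ^ k := by gcongr
    _ = (k + 2) ^ k * (1 / S ^ k + ‖etaD T (z 0)‖ ^ 2 * (1 / S ^ (k + 1))) := by
        rw [div_pow]
        field_simp
        ring
    _ ≤ _ := by
        have h6 : ‖w‖ ^ 2 + sg T (z 0) ≤ S := by linarith
        have h7 : 0 < ‖w‖ ^ 2 + sg T (z 0) := by positivity
        gcongr

theorem meas_eta : Measurable (eta T) := by
  unfold eta
  fun_prop

theorem meas_sg : Measurable (sg T) := by
  unfold sg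
  exact (meas_eta.norm).pow_const 2

theorem meas_etaD : Measurable (etaD T) := by
  unfold etaD
  have := meas_eta (T := T)
  fun_prop

theorem total_le (hk : 1 ≤ k) (hT : 1 ≤ T) :
    graphVol (ex m k (eta T)) (ball 0 1) ≤
      ENNReal.ofReal (Real.pi ^ m * ((k + 2) ^ k * (k * Real.pi ^ k)) * (54 * Real.pi)) := by
  have hball : (ball (0 : Dom (m+1) k) 1) = ball (0 : Fin (m+1) → ℂ) 1 ×ˢ ball (0 : Fin k → ℂ) 1 := by
    rw [ball_prod_same]; rfl
  have ms := meas_sg (T := T)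
  have md := meas_etaD (T := T)
  set g : Dom (m+1) k → ℝ≥0∞ := fun p => ENNReal.ofReal ((k + 2) ^ k) *
      (ENNReal.ofReal (1 / (‖p.2‖ ^ 2 + sg T (p.1 0)) ^ k) +
        ENNReal.ofReal (‖etaD T (p.1 0)‖ ^ 2) * ENNReal.ofReal (1 / (‖p.2‖ ^ 2 + sg T (p.1 0)) ^ (k + 1)))
    with hg
  have mg : Measurable g := by
    rw [hg]
    fun_prop
  have hden : ∀ p ∈ (ball (0 : Dom (m+1) k) 1), ENNReal.ofReal (Matrix.det (1 + gram (ex m k (eta T)) p)).re ≤ g p := by
    intro p hp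
    rw [hball] at hp
    have hs := sg_pos hT (p.1 0)
    rw [hg]
    simp only
    rw [← ENNReal.ofReal_mul (by positivity), ← ENNReal.ofReal_add (by positivity) (by positivity),
      ← ENNReal.ofReal_mul (by positivity)]
    apply ENNReal.ofReal_le_ofReal
    exact dens_bound hT p.1 p.2 (by simpa using hp.1) (by simpa using hp.2)
  unfold graphVol
  calc ∫⁻ p in ball (0 : Dom (m+1) k) 1, ENNReal.ofReal (Matrix.det (1 + gram (ex m k (eta T)) p)).re
      ≤ ∫⁻ p in ball (0 : Dom (m+1) k) 1, g p := setLIntegral_mono' measurableSet_ball hden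
    _ = ∫⁻ z in ball (0 : Fin (m+1) → ℂ) 1, ∫⁻ w in ball (0 : Fin k → ℂ) 1, g (z, w) := by
        rw [hball, Measure.volume_eq_prod, ← Measure.prod_restrict, lintegral_prod _ mg.aemeasurable]
    _ ≤ ∫⁻ z in ball (0 : Fin (m+1) → ℂ) 1, ENNReal.ofReal ((k + 2) ^ k * (k * Real.pi ^ k)) *
          ENNReal.ofReal (1 + Real.log (1 / sg T (z 0)) + ‖etaD T (z 0)‖ ^ 2 / sg T (z 0)) := by
        apply setLIntegral_mono' measurableSet_ball
        intro z hz
        have hz0 : ‖z 0‖ < 1 := (norm_le_pi_norm z 0).trans_lt (by simpa using hz)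
        have hs := sg_pos hT (z 0)
        have hs1 := sg_le hT (z 0) hz0
        have hlog : 0 ≤ Real.log (1 / sg T (z 0)) := Real.log_nonneg (by rw [le_div_iff₀ hs]; linarith)
        rw [hg]
        simp only
        rw [lintegral_const_mul _ (by fun_prop), lintegral_add_left (by fun_prop),
          lintegral_const_mul _ (by fun_prop)]
        calc ENNReal.ofReal ((k + 2) ^ k) *
            ((∫⁻ w in ball (0 : Fin k → ℂ) 1, ENNReal.ofReal (1 / (‖w‖ ^ 2 + sg T (z 0)) ^ k)) +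
              ENNReal.ofReal (‖etaD T (z 0)‖ ^ 2) *
              ∫⁻ w in ball (0 : Fin k → ℂ) 1, ENNReal.ofReal (1 / (‖w‖ ^ 2 + sg T (z 0)) ^ (k + 1)))
            ≤ ENNReal.ofReal ((k + 2) ^ k) *
              (ENNReal.ofReal (k * Real.pi ^ k * (1 + Real.log (1 / sg T (z 0)))) +
              ENNReal.ofReal (‖etaD T (z 0)‖ ^ 2) * ENNReal.ofReal (k * Real.pi ^ k / sg T (z 0))) := by
              gcongr
              · exact A_le k hk _ hs hs1
              · exact B_le k hk _ hs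
          _ = _ := by
              rw [← ENNReal.ofReal_mul (by positivity), ← ENNReal.ofReal_add (by positivity) (by positivity),
                ← ENNReal.ofReal_mul (by positivity), ← ENNReal.ofReal_mul (by positivity)]
              congr 1
              ring
    _ = ENNReal.ofReal ((k + 2) ^ k * (k * Real.pi ^ k)) * (ENNReal.ofReal (Real.pi ^ m) *
          ∫⁻ ζ in ball (0:ℂ) 1, ENNReal.ofReal (1 + Real.log (1 / sg T ζ) + ‖etaD T ζ‖ ^ 2 / sg T ζ)) := by
        rw [lintegral_const_mul _ (by fun_prop),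
          lint_eval m (fun ζ => ENNReal.ofReal (1 + Real.log (1 / sg T ζ) + ‖etaD T ζ‖ ^ 2 / sg T ζ)) (by fun_prop)]
    _ ≤ ENNReal.ofReal ((k + 2) ^ k * (k * Real.pi ^ k)) * (ENNReal.ofReal (Real.pi ^ m) *
          ENNReal.ofReal (54 * Real.pi)) := by
        gcongr
        exact int_dens hT
    _ = _ := by
        rw [← ENNReal.ofReal_mul (by positivity), ← ENNReal.ofReal_mul (by positivity)]
        congr 1
        ring

theorem slice_annulus (hT : 1 ≤ T) (r : ℝ) (hr : 0 < r) (z : Fin (m+1) → ℂ) (hz : ‖z‖ < 1) :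
    sliceVol (ex m k (eta T)) z (ball 0 1 \ closedBall 0 r) ≤
      ENNReal.ofReal ((1 + 1 / r ^ 2) ^ k * Real.pi ^ k) := by
  have hz0 : ‖z 0‖ < 1 := (norm_le_pi_norm z 0).trans_lt hz
  unfold sliceVol
  simp_rw [fun w => det_slice (eta T) z w (etaD T (z 0)) (eta_deriv hT _ hz0)]
  calc ∫⁻ w in ball (0:Fin k → ℂ) 1 \ closedBall 0 r,
        ENNReal.ofReal ((1 + 1 / (‖eta T (z 0)‖ ^ 2 + ∑ j, ‖w j‖ ^ 2)) ^ k)
      ≤ ∫⁻ _w in ball (0:Fin k → ℂ) 1 \ closedBall 0 r, ENNReal.ofReal ((1 + 1 / r ^ 2) ^ k) := by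
        apply setLIntegral_mono' (measurableSet_ball.diff measurableSet_closedBall)
        intro w hw
        have hw2 : r < ‖w‖ := by
          by_contra hcon
          exact hw.2 (by simpa using hcon)
        have h1 := le_sum_sq w
        apply ENNReal.ofReal_le_ofReal
        have h2 : r ^ 2 ≤ ‖eta T (z 0)‖ ^ 2 + ∑ j, ‖w j‖ ^ 2 := by
          have : r ^ 2 ≤ ‖w‖ ^ 2 := by gcongr
          have : 0 ≤ ‖eta T (z 0)‖ ^ 2 := by positivity
          linarith
        gcongr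
    _ ≤ ∫⁻ _w in ball (0:Fin k → ℂ) 1, ENNReal.ofReal ((1 + 1 / r ^ 2) ^ k) := lintegral_mono_set sdiff_subset
    _ = _ := by
        rw [setLIntegral_const, vol_poly, ← ENNReal.ofReal_mul (by positivity)]

theorem slice_ge (hk : 1 ≤ k) (hT : 1 ≤ T) : ∃ z ∈ ball (0 : Fin (m+1) → ℂ) 1,
    ENNReal.ofReal (k * Real.pi ^ k / (k + 1) ^ k * T) ≤ sliceVol (ex m k (eta T)) z (ball 0 1) := by
  have hρ := rho_pos hT
  have hρ1 := rho_lt hT
  refine ⟨fun _ => (rho T : ℂ), ?_, ?_⟩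
  · rw [mem_ball_zero_iff, pi_norm_lt_iff one_pos]
    intro _
    rw [Complex.norm_real, Real.norm_of_nonneg hρ.le]
    exact hρ1
  have hz0 : ‖(rho T : ℂ)‖ < 1 := by
    rw [Complex.norm_real, Real.norm_of_nonneg hρ.le]
    exact hρ1
  have hs := sg_pos hT (rho T : ℂ)
  have hs1 := sg_le hT (rho T : ℂ) hz0
  have hlog : T ≤ Real.log (1 / sg T (rho T : ℂ)) := by
    rw [log_sg hT]
    have hE : EE T (rho T : ℂ) = 1 - rho T ^ 2 := by
      unfold EE
      rw [← Complex.ofReal_mul, ← Complex.ofReal_one, ← Complex.ofReal_sub, Complex.norm_real,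
        Real.norm_of_nonneg (by nlinarith)]
      ring
    have hE2 : EE T (rho T : ℂ) ≤ 2 * tau T := by
      rw [hE]
      have : tau T = 1 - rho T := by unfold rho; ring
      rw [this]
      nlinarith
    have hτ := tau_pos hT
    have h1 : Real.log (EE T (rho T : ℂ)) ≤ Real.log 2 + Real.log (tau T) := by
      rw [← Real.log_mul (by norm_num) hτ.ne']
      exact Real.log_le_log (EE_pos hT _ hz0) hE2
    have h2 : Real.log (tau T) = -T ^ 2 := by unfold tau; rw [Real.log_exp]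
    rw [h2] at h1
    have h3 : T ^ 2 ≤ Real.log 2 - Real.log (EE T (rho T : ℂ)) := by linarith
    have hc := cc_pos hT
    calc T = 2 * cc T * T ^ 2 := by unfold cc; field_simp
      _ ≤ 2 * cc T * (Real.log 2 - Real.log (EE T (rho T : ℂ))) := by gcongr
  unfold sliceVol
  simp_rw [fun w => det_slice (eta T) (fun _ : Fin (m+1) => (rho T : ℂ)) w (etaD T (rho T : ℂ))
    (eta_deriv hT _ hz0)]
  calc ENNReal.ofReal (k * Real.pi ^ k / (k + 1) ^ k * T)
      ≤ ENNReal.ofReal (k * Real.pi ^ k / (k + 1) ^ k * Real.log (1 / sg T (rho T : ℂ))) := by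
        apply ENNReal.ofReal_le_ofReal
        gcongr
    _ ≤ ∫⁻ w in ball (0:Fin k → ℂ) 1, ENNReal.ofReal (1 / (k * ‖w‖ ^ 2 + sg T (rho T : ℂ)) ^ k) :=
        A_ge k hk _ hs hs1
    _ ≤ _ := by
        apply lintegral_mono
        intro w
        apply ENNReal.ofReal_le_ofReal
        have h2 := sum_sq_le w
        have h3 : 0 ≤ ∑ j, ‖w j‖ ^ 2 := by positivity
        set S := ‖eta T (rho T : ℂ)‖ ^ 2 + ∑ j, ‖w j‖ ^ 2 with hS
        have hS0 : 0 < S := by
          have : 0 < ‖eta T (rho T : ℂ)‖ ^ 2 := hs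
          positivity
        have hSle : S ≤ k * ‖w‖ ^ 2 + sg T (rho T : ℂ) := by rw [hS]; unfold sg; linarith
        calc 1 / (k * ‖w‖ ^ 2 + sg T (rho T : ℂ)) ^ k ≤ 1 / S ^ k := by gcongr
          _ = (1 / S) ^ k := by rw [div_pow, one_pow]
          _ ≤ (1 + 1 / S) ^ k := by gcongr; linarith

end Pool.Agent.Q172.Hopf
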