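import Mathlib

open Set Metric Filter Topology
open scoped Topology NNReal ContDiff

namespace Pool.Agent.Q172.NatBd

/-- Term-by-term iterated differentiation of a series on the open unit ball. -/
theorem iteratedFDeriv_series {E : Type*} [NormedAddCommGroup E] [NormedSpace ℂ E]
    (t : ℕ → E → ℂ) 
    (ht : ∀ i z, z ∈ closedBall (0 : E) 1 → ContDiffAt ℂ ω (t i) z)
    (u : ℕ → ℕ → ℝ) (hu : ∀ k, Summable (u k))
    (hb : ∀ k i z, z ∈ closedBall (0 : E) 1 → ‖iteratedFDeriv ℂ k (t i) z‖ ≤ u k i) (k : ℕ) :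
    ∀ z ∈ ball (0 : E) 1, iteratedFDeriv ℂ k (fun z => ∑' i, t i z) z
      = ∑' i, iteratedFDeriv ℂ k (t i) z := by
  induction k with
  | zero =>
    intro z hz
    ext m
    have hs : Summable fun i => iteratedFDeriv ℂ 0 (t i) z :=
      Summable.of_norm_bounded (hu 0) (fun i => hb 0 i z (ball_subset_closedBall hz))
    rw [iteratedFDeriv_zero_apply]
    have h1 := (ContinuousMultilinearMap.apply ℂ (fun _ : Fin 0 => E) ℂ m).map_tsum hs
    rw [ContinuousMultilinearMap.apply_apply] at h1
    rw [h1]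
    refine tsum_congr fun i => ?_
    simp
  | succ k ih =>
    intro z hz
    have hopen : ball (0 : E) 1 ∈ 𝓝 z := isOpen_ball.mem_nhds hz
    have heq : iteratedFDeriv ℂ k (fun z => ∑' i, t i z) =ᶠ[𝓝 z]
        fun z => ∑' i, iteratedFDeriv ℂ k (t i) z := by
      filter_upwards [hopen] with w hw using ih w hw
    rw [iteratedFDeriv_succ_eq_comp_left, Function.comp_apply, heq.fderiv_eq]
    have hd : ∀ i x, x ∈ ball (0 : E) 1 →
        HasFDerivAt (fun z => iteratedFDeriv ℂ k (t i) z)
          (fderiv ℂ (iteratedFDeriv ℂ k (t i)) x) x := by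
      intro i x hx
      have h1 : ContDiffAt ℂ 1 (iteratedFDeriv ℂ k (t i)) x :=
        (ht i x (ball_subset_closedBall hx)).iteratedFDeriv_right (by simp)
      exact (h1.differentiableAt (by simp)).hasFDerivAt
    have hbd : ∀ i x, x ∈ ball (0 : E) 1 →
        ‖fderiv ℂ (iteratedFDeriv ℂ k (t i)) x‖ ≤ u (k+1) i := by
      intro i x hx
      have := hb (k+1) i x (ball_subset_closedBall hx)
      rwa [norm_fderiv_iteratedFDeriv]
    have hs0 : Summable fun i => iteratedFDeriv ℂ k (t i) z :=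
      Summable.of_norm_bounded (hu k) (fun i => hb k i z (ball_subset_closedBall hz))
    have hpre : IsPreconnected (ball (0 : E) 1) := by
      let _ : NormedSpace ℝ E := NormedSpace.restrictScalars ℝ ℂ E
      exact (convex_ball (0 : E) 1).isPreconnected
    have hmain := hasFDerivAt_tsum_of_isPreconnected (𝕜 := ℂ) (E := E) (F := E [×k]→L[ℂ] ℂ)
      (f := fun i z => iteratedFDeriv ℂ k (t i) z)
      (f' := fun i x => fderiv ℂ (iteratedFDeriv ℂ k (t i)) x) (s := ball (0 : E) 1)
      (u := u (k+1)) (x₀ := z) (x := z) (hu (k+1)) isOpen_ball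
      hpre hd hbd hz hs0 hz
    rw [hmain.fderiv]
    have hs1 : Summable fun i => iteratedFDeriv ℂ (k+1) (t i) z :=
      Summable.of_norm_bounded (hu (k+1)) (fun i => hb (k+1) i z (ball_subset_closedBall hz))
    have h3 := ContinuousLinearMap.map_tsum (continuousMultilinearCurryLeftEquiv ℂ
      (fun _ : Fin (k+1) => E) ℂ).toContinuousLinearEquiv.toContinuousLinearMap hs1
    have h4 : (∑' i, fderiv ℂ (iteratedFDeriv ℂ k (t i)) z) =
        continuousMultilinearCurryLeftEquiv ℂ (fun _ : Fin (k+1) => E) ℂ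
          (∑' i, iteratedFDeriv ℂ (k+1) (t i) z) := h3.symm
    rw [h4, LinearIsometryEquiv.symm_apply_apply]

end Pool.Agent.Q172.NatBd
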