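import Mathlib

open Set Metric Filter Topology
open scoped Topology NNReal ContDiff

namespace Pool.Agent.Q172.NatBd

/-- A function on a small disc whose Cauchy coefficients have the growth of a function on the
larger disc extends holomorphically to the larger disc. -/
theorem exists_extension {g : ℂ → ℂ} {c : ℂ} {ρ R M : ℝ} (hρ : 0 < ρ) (hρR : ρ < R)
    (hg : DifferentiableOn ℂ g (closedBall c ρ))
    (hb : ∀ n : ℕ, ‖cauchyPowerSeries g c ρ n‖ ≤ M * (R⁻¹) ^ n) :
    ∃ H : ℂ → ℂ, AnalyticOnNhd ℂ H (ball c R) ∧ EqOn H g (ball c ρ) := by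
  have hR : 0 < R := hρ.trans hρR
  lift ρ to ℝ≥0 using hρ.le
  lift R to ℝ≥0 using hR.le
  have h1 : HasFPowerSeriesOnBall g (cauchyPowerSeries g c ρ) c ρ :=
    hg.hasFPowerSeriesOnBall (by exact_mod_cast hρ)
  set p := cauchyPowerSeries g c ρ with hp
  have hrad : (R : ENNReal) ≤ p.radius := by
    refine p.le_radius_of_bound M fun n => ?_
    have := hb n
    calc ‖p n‖ * (R : ℝ) ^ n ≤ (M * ((R : ℝ)⁻¹) ^ n) * (R : ℝ) ^ n := by gcongr
      _ = M := by
        rw [mul_assoc, ← mul_pow, inv_mul_cancel₀ hR.ne', one_pow, mul_one]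
  have hradpos : 0 < p.radius := lt_of_lt_of_le (by exact_mod_cast hR) hrad
  have h2 := p.hasFPowerSeriesOnBall hradpos
  have h3 : HasFPowerSeriesOnBall (fun z => p.sum (z - c)) p c p.radius := by
    simpa using h2.comp_sub c
  refine ⟨fun z => p.sum (z - c), ?_, ?_⟩
  · have h4 := h3.analyticOnNhd
    refine h4.mono ?_
    intro z hz
    refine Metric.eball_subset_eball hrad ?_
    simpa [Metric.eball_coe] using hz
  · intro z hz
    have h5 : z - c ∈ Metric.eball (0:ℂ) (ρ : ENNReal) := by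
      rw [Metric.eball_coe]
      simpa [dist_eq_norm] using hz
    have := h1.sum h5
    simp only [add_sub_cancel] at this
    exact this.symm

/-- Cauchy estimate for the coefficients computed on a smaller circle. -/
theorem norm_cauchyPowerSeries_le_of_extension {g h : ℂ → ℂ} {c : ℂ} {ρ R M : ℝ} (hρ : 0 < ρ)
    (hρR : ρ < R) (hh : DifferentiableOn ℂ h (closedBall c R))
    (hM : ∀ z ∈ closedBall c R, ‖h z‖ ≤ M) (hgh : EqOn g h (closedBall c ρ)) (n : ℕ) :
    ‖cauchyPowerSeries g c ρ n‖ ≤ M * (R⁻¹) ^ n := by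
  have hR : 0 < R := hρ.trans hρR
  have e1 : cauchyPowerSeries g c ρ n = cauchyPowerSeries h c ρ n := by
    unfold cauchyPowerSeries
    congr 2
    refine circleIntegral.integral_congr hρ.le ?_
    intro z hz
    simp only
    rw [hgh (sphere_subset_closedBall hz)]
  have e2 : cauchyPowerSeries h c ρ = cauchyPowerSeries h c R := by
    lift ρ to ℝ≥0 using hρ.le
    lift R to ℝ≥0 using hR.le
    have a1 := (hh.mono (closedBall_subset_closedBall hρR.le)).hasFPowerSeriesOnBall
      (by exact_mod_cast hρ)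
    have a2 := hh.hasFPowerSeriesOnBall (by exact_mod_cast hR)
    exact a1.hasFPowerSeriesAt.eq_formalMultilinearSeries a2.hasFPowerSeriesAt
  rw [e1, e2]
  refine (norm_cauchyPowerSeries_le h c R n).trans ?_
  rw [abs_of_pos hR]
  gcongr
  have h3 : (∫ θ : ℝ in (0:ℝ)..2 * Real.pi, ‖h (circleMap c R θ)‖) ≤ ∫ θ : ℝ in (0:ℝ)..2 * Real.pi, M := by
    refine intervalIntegral.integral_mono_on (by positivity) ?_ ?_ ?_
    · refine Continuous.intervalIntegrable ?_ _ _
      refine Continuous.norm ?_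
      exact hh.continuousOn.comp_continuous (continuous_circleMap c R)
        (fun θ => circleMap_mem_closedBall c hR.le θ)
    · exact intervalIntegrable_const
    · intro θ _
      exact hM _ (circleMap_mem_closedBall c hR.le θ)
  rw [intervalIntegral.integral_const] at h3
  have h4 : (2 * Real.pi)⁻¹ * ((2 * Real.pi - 0) • M) = M := by
    simp only [sub_zero, smul_eq_mul]
    field_simp
  calc (2 * Real.pi)⁻¹ * _ ≤ (2 * Real.pi)⁻¹ * ((2 * Real.pi - 0) • M) := by gcongr
    _ = M := h4

/-- A finite sum of pole terms of distinct orders cannot extend holomorphically across a pole. -/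
theorem rational_not_extend (N : ℕ) (x A B : ℕ → ℂ) (hx : ∀ i < N, x i ≠ 0) (hA : ∀ i, A i ≠ 0)
    {c : ℂ} {ρ R M : ℝ} (hρ : 0 < ρ) (hρR : ρ < R)
    (hreg : ∀ z ∈ closedBall c ρ, ∀ i < N, A i - z * B i ≠ 0)
    (hb : ∀ n : ℕ, ‖cauchyPowerSeries
      (fun z => ∑ i ∈ Finset.range N, x i * ((A i - z * B i) ^ (i+1))⁻¹) c ρ n‖ ≤ M * (R⁻¹) ^ n)
    (i₀ : ℕ) (hi₀ : i₀ < N) (z₀ : ℂ) (hz₀ : z₀ ∈ ball c R) (hpole : A i₀ - z₀ * B i₀ = 0) : False := by
  classical
  set g : ℂ → ℂ := fun z => ∑ i ∈ Finset.range N, x i * ((A i - z * B i) ^ (i+1))⁻¹ with hgdef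
  have hg : DifferentiableOn ℂ g (closedBall c ρ) := by
    intro z hz
    refine DifferentiableAt.differentiableWithinAt ?_
    refine DifferentiableAt.fun_sum fun i hi => ?_
    refine DifferentiableAt.const_mul ?_ _
    refine DifferentiableAt.inv ?_ ?_
    · fun_prop
    · exact pow_ne_zero _ (hreg z hz i (Finset.mem_range.1 hi))
  obtain ⟨H, hH, hHg⟩ := exists_extension hρ hρR hg hb
  -- multiply by the product
  set Q : ℂ → ℂ := fun z => ∏ i ∈ Finset.range N, (A i - z * B i) ^ (i+1) with hQ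
  set P : ℂ → ℂ := fun z => ∑ i ∈ Finset.range N,
    x i * ∏ j ∈ (Finset.range N).erase i, (A j - z * B j) ^ (j+1) with hP
  have hgQ : ∀ z, (∀ i < N, A i - z * B i ≠ 0) → g z * Q z = P z := by
    intro z hz
    simp only [hgdef, hQ, hP, Finset.sum_mul]
    refine Finset.sum_congr rfl fun i hi => ?_
    rw [← Finset.mul_prod_erase _ _ hi]
    have := hz i (Finset.mem_range.1 hi)
    field_simp
  have hQan : AnalyticOnNhd ℂ Q univ := by
    intro z _
    have : Differentiable ℂ Q := by
      simp only [hQ]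
      fun_prop
    exact this.analyticAt z
  have hPan : AnalyticOnNhd ℂ P univ := by
    intro z _
    have : Differentiable ℂ P := by
      simp only [hP]
      fun_prop
    exact this.analyticAt z
  have hid : EqOn (fun z => H z * Q z) P (ball c R) := by
    refine AnalyticOnNhd.eqOn_of_preconnected_of_eventuallyEq
      (hH.mul (hQan.mono (subset_univ _))) (hPan.mono (subset_univ _))
      (convex_ball c R).isPreconnected (mem_ball_self (hρ.trans hρR)) ?_
    filter_upwards [ball_mem_nhds c hρ] with z hz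
    have := hHg hz
    rw [this]
    exact hgQ z (hreg z (ball_subset_closedBall hz))
  -- choose maximal index with pole at z₀
  have hBne : ∀ i, A i - z₀ * B i = 0 → B i ≠ 0 := by
    intro i h hB
    apply hA i
    rw [hB] at h
    simpa using h
  obtain ⟨J, hJmem, hJmax⟩ := Finset.exists_max_image
    ((Finset.range N).filter fun i => A i - z₀ * B i = 0) (fun i => i)
    ⟨i₀, by simp [hi₀, hpole]⟩
  simp only [Finset.mem_filter, Finset.mem_range] at hJmem hJmax
  -- near z₀, away from z₀, no pole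
  have hev : ∀ᶠ z in 𝓝[≠] z₀, ∀ i ∈ Finset.range N, A i - z * B i ≠ 0 := by
    rw [Filter.eventually_all_finset]
    intro i hi
    by_cases h : A i - z₀ * B i = 0
    · filter_upwards [self_mem_nhdsWithin] with z hz h2
      have hz' : z ≠ z₀ := hz
      apply hz'
      have : (z - z₀) * B i = 0 := by linear_combination h - h2
      rcases mul_eq_zero.1 this with h3 | h3
      · exact sub_eq_zero.1 h3
      · exact absurd h3 (hBne i h)
    · have : Tendsto (fun z => A i - z * B i) (𝓝[≠] z₀) (𝓝 (A i - z₀ * B i)) := by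
        refine Tendsto.mono_left ?_ nhdsWithin_le_nhds
        exact (by fun_prop : Continuous fun z : ℂ => A i - z * B i).tendsto z₀
      exact this.eventually_ne h
  have hQne : ∀ z, (∀ i ∈ Finset.range N, A i - z * B i ≠ 0) → Q z ≠ 0 := by
    intro z hz
    simp only [hQ]
    exact Finset.prod_ne_zero_iff.2 fun i hi => pow_ne_zero _ (hz i hi)
  have hHeq : ∀ᶠ z in 𝓝[≠] z₀, H z = g z := by
    have hb : ∀ᶠ z in 𝓝[≠] z₀, z ∈ ball c R :=
      nhdsWithin_le_nhds (isOpen_ball.mem_nhds hz₀)
    filter_upwards [hev, hb] with z hz hzb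
    have h1 := hid hzb
    simp only at h1
    rw [← hgQ z (fun i hi => hz i (Finset.mem_range.2 hi))] at h1
    exact mul_right_cancel₀ (hQne z hz) h1
  -- limits
  have hL1 : Tendsto (fun z => (z - z₀) ^ (J+1) * H z) (𝓝[≠] z₀) (𝓝 0) := by
    have hc : ContinuousAt H z₀ := (hH z₀ hz₀).continuousAt
    have h0 : Tendsto (fun z => (z - z₀) ^ (J+1) * H z) (𝓝 z₀) (𝓝 ((z₀ - z₀) ^ (J+1) * H z₀)) := by
      refine Tendsto.mul ?_ hc
      exact (by fun_prop : Continuous fun z : ℂ => (z - z₀) ^ (J+1)).tendsto z₀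
    simp only [sub_self, ne_eq, Nat.add_eq_zero_iff, one_ne_zero, and_false, not_false_eq_true,
      zero_pow, zero_mul] at h0
    exact h0.mono_left nhdsWithin_le_nhds
  have hterm : ∀ i ∈ Finset.range N, Tendsto
      (fun z => (z - z₀) ^ (J+1) * (x i * ((A i - z * B i) ^ (i+1))⁻¹)) (𝓝[≠] z₀)
      (𝓝 (if i = J then x J * ((- B J) ^ (J+1))⁻¹ else 0)) := by
    intro i hi
    by_cases h : A i - z₀ * B i = 0
    · have hiJ : i ≤ J := hJmax i ⟨Finset.mem_range.1 hi, h⟩
      have hBi := hBne i h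
      have heq : (fun z => (z - z₀) ^ (J+1) * (x i * ((A i - z * B i) ^ (i+1))⁻¹)) =ᶠ[𝓝[≠] z₀]
          fun z => (z - z₀) ^ (J - i) * (x i * ((- B i) ^ (i+1))⁻¹) := by
        filter_upwards [self_mem_nhdsWithin] with z hz
        have hz' : z - z₀ ≠ 0 := sub_ne_zero.2 hz
        have h3 : A i - z * B i = (z - z₀) * (- B i) := by linear_combination h
        rw [h3, mul_pow]
        have h4 : (z - z₀) ^ (J+1) = (z - z₀) ^ (J - i) * (z - z₀) ^ (i+1) := by
          rw [← pow_add]; congr 1; omega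
        rw [h4]
        have h5 : (- B i) ^ (i+1) ≠ 0 := pow_ne_zero _ (neg_ne_zero.2 hBi)
        field_simp
      refine Tendsto.congr' heq.symm ?_
      have h0 : Tendsto (fun z => (z - z₀) ^ (J - i) * (x i * ((- B i) ^ (i+1))⁻¹)) (𝓝 z₀)
          (𝓝 ((z₀ - z₀) ^ (J - i) * (x i * ((- B i) ^ (i+1))⁻¹))) :=
        (by fun_prop : Continuous fun z : ℂ =>
          (z - z₀) ^ (J - i) * (x i * ((- B i) ^ (i+1))⁻¹)).tendsto z₀
      have h6 : (z₀ - z₀) ^ (J - i) * (x i * ((- B i) ^ (i+1))⁻¹) =
          (if i = J then x J * ((- B J) ^ (J+1))⁻¹ else 0) := by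
        split_ifs with hij
        · subst hij; simp
        · have : J - i ≠ 0 := by omega
          simp [this]
      rw [← h6]
      exact h0.mono_left nhdsWithin_le_nhds
    · have hne : i ≠ J := by
        rintro rfl
        exact h hJmem.2
      rw [if_neg hne]
      have hc : ContinuousAt (fun z => (z - z₀) ^ (J+1) * (x i * ((A i - z * B i) ^ (i+1))⁻¹)) z₀ := by
        refine ContinuousAt.mul (by fun_prop) (ContinuousAt.mul (by fun_prop) ?_)
        exact ContinuousAt.inv₀ (by fun_prop) (pow_ne_zero _ h)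
      have := hc.tendsto
      simp only [sub_self, ne_eq, Nat.add_eq_zero_iff, one_ne_zero, and_false, not_false_eq_true,
        zero_pow, zero_mul] at this
      exact this.mono_left nhdsWithin_le_nhds
  have hL2 : Tendsto (fun z => (z - z₀) ^ (J+1) * g z) (𝓝[≠] z₀)
      (𝓝 (x J * ((- B J) ^ (J+1))⁻¹)) := by
    have := tendsto_finsetSum (Finset.range N) hterm
    simp only [Finset.sum_ite_eq', Finset.mem_range, hJmem.1, if_true] at this
    refine this.congr fun z => ?_
    simp only [hgdef, Finset.mul_sum]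
  have hL3 : Tendsto (fun z => (z - z₀) ^ (J+1) * g z) (𝓝[≠] z₀) (𝓝 0) := by
    refine hL1.congr' ?_
    filter_upwards [hHeq] with z hz
    rw [hz]
  have := tendsto_nhds_unique hL2 hL3
  have hBJ := hBne J hJmem.2
  have hxJ := hx J hJmem.1
  have h5 : (- B J) ^ (J+1) ≠ 0 := pow_ne_zero _ (neg_ne_zero.2 hBJ)
  exact (mul_ne_zero hxJ (inv_ne_zero h5)) this

end Pool.Agent.Q172.NatBd
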