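import Mathlib
import Pool.Agent.Q172.NatBdA
import Pool.Agent.Q172.NatBdB

open Set Metric Filter Topology
open scoped Topology NNReal ContDiff

namespace Pool.Agent.Q172.NatBd

/-- the complex Euclidean space -/
abbrev E (n : ℕ) := EuclideanSpace ℂ (Fin n)

variable {n : ℕ}

instance instNE : Nonempty (ball (0 : E n) 1) := ⟨⟨0, by simp⟩⟩

/-- a dense sequence in the open unit ball -/
noncomputable def xi (n i : ℕ) : E n := (TopologicalSpace.denseSeq (ball (0 : E n) 1) i : E n)

theorem xi_norm (n i : ℕ) : ‖xi n i‖ < 1 := by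
  have := (TopologicalSpace.denseSeq (ball (0 : E n) 1) i).2
  exact mem_ball_zero_iff.1 this

theorem xi_dense (U : Set (E n)) (hU : IsOpen U) (hne : (U ∩ ball (0 : E n) 1).Nonempty) :
    ∃ i, xi n i ∈ U := by
  obtain ⟨x, hxU, hxB⟩ := hne
  have hd := TopologicalSpace.denseRange_denseSeq (ball (0 : E n) 1)
  have hopen : IsOpen ((fun z : ball (0 : E n) 1 => (z : E n)) ⁻¹' U) :=
    hU.preimage continuous_subtype_val
  obtain ⟨i, hi⟩ := hd.exists_mem_open hopen ⟨⟨x, hxB⟩, hxU⟩
  exact ⟨i, hi⟩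

/-- the building blocks -/
noncomputable def t (n i : ℕ) (z : E n) : ℂ := ((1 - inner ℂ (xi n i) z) ^ (i+1))⁻¹

theorem one_sub_ne (i : ℕ) {z : E n} (hz : z ∈ closedBall (0 : E n) 1) :
    1 - inner ℂ (xi n i) z ≠ 0 := by
  intro h
  have h1 : ‖inner ℂ (xi n i) z‖ ≤ ‖xi n i‖ * ‖z‖ := norm_inner_le_norm _ _
  have h2 : inner ℂ (xi n i) z = 1 := (sub_eq_zero.1 h).symm
  rw [h2, norm_one] at h1
  have h3 : ‖z‖ ≤ 1 := by simpa using hz
  have h4 := xi_norm n i
  nlinarith [norm_nonneg (xi n i), norm_nonneg z]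

theorem t_contDiffAt (i : ℕ) (z : E n) (hz : z ∈ closedBall (0 : E n) 1) :
    ContDiffAt ℂ ω (t n i) z := by
  unfold t
  refine ContDiffAt.inv ?_ (pow_ne_zero _ (one_sub_ne i hz))
  refine ContDiffAt.pow ?_ _
  refine contDiffAt_const.sub ?_
  exact (innerSL ℂ (xi n i)).contDiff.contDiffAt

theorem exists_bound (n i k : ℕ) : ∃ C : ℝ, ∀ z ∈ closedBall (0 : E n) 1,
    ‖iteratedFDeriv ℂ k (t n i) z‖ ≤ C := by
  refine (isCompact_closedBall (0 : E n) 1).exists_bound_of_continuousOn ?_
  intro z hz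
  exact ((t_contDiffAt i z hz).continuousAt_iteratedFDeriv (by simp)).continuousWithinAt

/-- bounds for the derivatives -/
noncomputable def Mb (n i k : ℕ) : ℝ := |(exists_bound n i k).choose|

theorem Mb_spec (n i k : ℕ) (z : E n) (hz : z ∈ closedBall (0 : E n) 1) :
    ‖iteratedFDeriv ℂ k (t n i) z‖ ≤ Mb n i k :=
  ((exists_bound n i k).choose_spec z hz).trans (le_abs_self _)

theorem Mb_nonneg (n i k : ℕ) : 0 ≤ Mb n i k := abs_nonneg _

/-- the weights -/
noncomputable def w (n i : ℕ) : ℝ := (1/2) ^ i / (1 + ∑ k ∈ Finset.range (i+1), Mb n i k)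

theorem w_pos (n i : ℕ) : 0 < w n i := by
  unfold w
  have : 0 ≤ ∑ k ∈ Finset.range (i+1), Mb n i k := Finset.sum_nonneg fun k _ => Mb_nonneg n i k
  positivity

theorem w_mul_le (n i k : ℕ) (hk : k ≤ i) : w n i * Mb n i k ≤ (1/2) ^ i := by
  unfold w
  have h0 : Mb n i k ≤ ∑ k ∈ Finset.range (i+1), Mb n i k :=
    Finset.single_le_sum (f := fun k => Mb n i k) (fun k _ => Mb_nonneg n i k)
      (Finset.mem_range.2 (by omega))
  have h1 : 0 ≤ Mb n i k := Mb_nonneg n i k
  rw [div_mul_eq_mul_div, div_le_iff₀ (by linarith)]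
  have : (0:ℝ) < (1/2)^i := by positivity
  nlinarith

theorem summable_w (n k : ℕ) : Summable fun i => w n i * Mb n i k := by
  rw [← summable_nat_add_iff k]
  refine Summable.of_nonneg_of_le (fun i => mul_nonneg (w_pos n _).le (Mb_nonneg n _ _))
    (fun i => w_mul_le n (i+k) k (by omega)) ?_
  have := (summable_nat_add_iff k).2 (summable_geometric_of_lt_one (r := (1/2:ℝ)) (by norm_num) (by norm_num))
  exact this

/-- parameter space -/
abbrev Y := ℕ → closedBall (0 : ℂ) 1

/-- the coefficient -/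
noncomputable def cf (n : ℕ) (y : Y) (i : ℕ) : ℂ := (w n i : ℂ) * (y i : ℂ)

theorem cf_norm (n : ℕ) (y : Y) (i : ℕ) : ‖cf n y i‖ ≤ w n i := by
  unfold cf
  have h1 : ‖(y i : ℂ)‖ ≤ 1 := mem_closedBall_zero_iff.1 (y i).2
  rw [norm_mul, Complex.norm_real, Real.norm_of_nonneg (w_pos n i).le]
  have := w_pos n i
  nlinarith

/-- the functions -/
noncomputable def F (n : ℕ) (y : Y) (z : E n) : ℂ := ∑' i, cf n y i * t n i z

theorem term_bound (y : Y) (k i : ℕ) (z : E n) (hz : z ∈ closedBall (0 : E n) 1) :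
    ‖iteratedFDeriv ℂ k (fun z => cf n y i * t n i z) z‖ ≤ w n i * Mb n i k := by
  have h1 : iteratedFDeriv ℂ k (fun z => cf n y i * t n i z) z =
      cf n y i • iteratedFDeriv ℂ k (t n i) z :=
    iteratedFDeriv_const_smul_apply' (a := cf n y i) ((t_contDiffAt i z hz).of_le (by simp))
  rw [h1, norm_smul]
  exact mul_le_mul (cf_norm n y i) (Mb_spec n i k z hz) (norm_nonneg _) (w_pos n i).le

theorem F_iteratedFDeriv (y : Y) (k : ℕ) (z : E n) (hz : z ∈ ball (0 : E n) 1) :
    iteratedFDeriv ℂ k (F n y) z = ∑' i, iteratedFDeriv ℂ k (fun z => cf n y i * t n i z) z := by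
  refine iteratedFDeriv_series (fun i z => cf n y i * t n i z) ?_ (fun k i => w n i * Mb n i k)
    (fun k => summable_w n k) ?_ k z hz
  · intro i z hz
    exact contDiffAt_const.mul (t_contDiffAt i z hz)
  · intro k i z hz
    exact term_bound y k i z hz

theorem F_AInf (y : Y) (k : ℕ) : ∃ g : E n → ContinuousMultilinearMap ℂ (fun _ : Fin k => E n) ℂ,
    ContinuousOn g (closedBall (0 : E n) 1) ∧
    ∀ z ∈ ball (0 : E n) 1, g z = iteratedFDeriv ℂ k (F n y) z := by
  refine ⟨fun z => ∑' i, iteratedFDeriv ℂ k (fun z => cf n y i * t n i z) z, ?_,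
    fun z hz => (F_iteratedFDeriv y k z hz).symm⟩
  refine continuousOn_tsum (u := fun i => w n i * Mb n i k) ?_ (summable_w n k) ?_
  · intro i z hz
    exact ((contDiffAt_const.mul (t_contDiffAt i z hz)).continuousAt_iteratedFDeriv
      (by simp)).continuousWithinAt
  · intro i z hz
    exact term_bound y k i z hz

theorem term_bound0 (y : Y) (i : ℕ) (z : E n) (hz : z ∈ closedBall (0 : E n) 1) :
    ‖cf n y i * t n i z‖ ≤ w n i * Mb n i 0 := by
  have := term_bound y 0 i z hz
  simpa using this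

theorem F_continuousOn : ContinuousOn (fun q : Y × E n => F n q.1 q.2)
    (univ ×ˢ closedBall (0 : E n) 1) := by
  unfold F
  refine continuousOn_tsum (u := fun i => w n i * Mb n i 0) ?_ (summable_w n 0) ?_
  · intro i
    refine ContinuousOn.mul ?_ ?_
    · unfold cf
      refine Continuous.continuousOn ?_
      refine continuous_const.mul ?_
      exact continuous_subtype_val.comp ((continuous_apply i).comp continuous_fst)
    · have h1 : ContinuousOn (t n i) (closedBall (0 : E n) 1) := fun z hz =>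
        (t_contDiffAt i z hz).continuousAt.continuousWithinAt
      exact h1.comp continuousOn_snd (fun q hq => hq.2)
  · intro i q hq
    exact term_bound0 q.1 i q.2 hq.2

theorem F_differentiableOn (y : Y) : DifferentiableOn ℂ (F n y) (ball (0 : E n) 1) := by
  intro z hz
  have hpre : IsPreconnected (ball (0 : E n) 1) := (convex_ball (0 : E n) 1).isPreconnected
  have hd : ∀ i x, x ∈ ball (0 : E n) 1 → HasFDerivAt (fun z => cf n y i * t n i z)
      (fderiv ℂ (fun z => cf n y i * t n i z) x) x := by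
    intro i x hx
    have : ContDiffAt ℂ ω (fun z => cf n y i * t n i z) x :=
      contDiffAt_const.mul (t_contDiffAt i x (ball_subset_closedBall hx))
    exact (this.differentiableAt (by simp)).hasFDerivAt
  have hb : ∀ i x, x ∈ ball (0 : E n) 1 →
      ‖fderiv ℂ (fun z => cf n y i * t n i z) x‖ ≤ w n i * Mb n i 1 := by
    intro i x hx
    have := term_bound y 1 i x (ball_subset_closedBall hx)
    rwa [norm_iteratedFDeriv_one] at this
  have hs0 : Summable fun i => cf n y i * t n i z :=
    Summable.of_norm_bounded (summable_w n 0) fun i => term_bound0 y i z (ball_subset_closedBall hz)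
  exact (hasFDerivAt_tsum_of_isPreconnected (summable_w n 1) isOpen_ball hpre hd hb hz hs0
    hz).differentiableAt.differentiableWithinAt

end Pool.Agent.Q172.NatBd
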