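import Mathlib
import Pool.Agent.Q172.NatBdC

open Set Metric Filter Topology
open scoped Topology NNReal ContDiff

namespace Pool.Agent.Q172.NatBd

variable {n : ℕ}

/-- admissible parameters `(a, b, τ)` of level `m` -/
def PS (n m : ℕ) : Set (E n × E n × ℂ) :=
  {p | inner ℂ p.1 p.2.1 = 0 ∧ ‖p.1‖ ^ 2 + ‖p.2.1‖ ^ 2 = 1 ∧ ‖p.2.2‖ = 1 ∧ 1 / ((m : ℝ) + 1) ≤ ‖p.2.1‖}

theorem PS_compact (n m : ℕ) : IsCompact (PS n m) := by
  refine Metric.isCompact_of_isClosed_isBounded ?_ ?_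
  · refine IsClosed.inter ?_ (IsClosed.inter ?_ (IsClosed.inter ?_ ?_))
    · exact isClosed_eq (by fun_prop) continuous_const
    · exact isClosed_eq (by fun_prop) continuous_const
    · exact isClosed_eq (by fun_prop) continuous_const
    · exact isClosed_le continuous_const (continuous_fst.comp continuous_snd).norm
  · refine (Metric.isBounded_closedBall (x := (0 : E n × E n × ℂ)) (r := 1)).subset ?_
    rintro ⟨a, b, τ⟩ ⟨_, h2, h3, _⟩
    simp only at h2 h3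
    rw [mem_closedBall_zero_iff, Prod.norm_def, Prod.norm_def]
    simp only
    refine max_le ?_ (max_le ?_ h3.le)
    · nlinarith [norm_nonneg a, norm_nonneg b, sq_nonneg ‖b‖]
    · nlinarith [norm_nonneg a, norm_nonneg b, sq_nonneg ‖a‖]

/-- the radius at level `m` -/
noncomputable def Rm (m : ℕ) : ℝ := 1 / ((m : ℝ) + 1)

theorem Rm_pos (m : ℕ) : 0 < Rm m := by unfold Rm; positivity

theorem Rm_le (m : ℕ) : Rm m ≤ 1 := by
  unfold Rm
  rw [div_le_one (by positivity)]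
  have : (0:ℝ) ≤ m := Nat.cast_nonneg m
  linarith

/-- the centre at level `m` -/
noncomputable def ctr (m : ℕ) (τ : ℂ) : ℂ := ((1 - Rm m / 2 : ℝ) : ℂ) * τ

theorem norm_point {a b : E n} (h1 : inner ℂ a b = 0) (h2 : ‖a‖ ^ 2 + ‖b‖ ^ 2 = 1) (z : ℂ) :
    ‖a + z • b‖ ^ 2 = 1 - (1 - ‖z‖ ^ 2) * ‖b‖ ^ 2 := by
  have h3 : inner ℂ a (z • b) = 0 := by rw [inner_smul_right, h1, mul_zero]
  have h4 : ‖a + z • b‖ ^ 2 = ‖a‖ ^ 2 + ‖z • b‖ ^ 2 := by
    have := @norm_add_sq ℂ _ _ _ _ a (z • b)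
    rw [h3] at this
    simpa using this
  rw [h4, norm_smul, mul_pow]
  linarith

theorem norm_point_le {a b : E n} (h1 : inner ℂ a b = 0) (h2 : ‖a‖ ^ 2 + ‖b‖ ^ 2 = 1) {z : ℂ}
    (hz : ‖z‖ ≤ 1) : a + z • b ∈ closedBall (0 : E n) 1 := by
  rw [mem_closedBall_zero_iff]
  have := norm_point h1 h2 z
  have h3 : 0 ≤ (1 - ‖z‖ ^ 2) * ‖b‖ ^ 2 := by
    refine mul_nonneg ?_ (sq_nonneg _)
    nlinarith [norm_nonneg z]
  nlinarith [norm_nonneg (a + z • b)]

theorem norm_point_lt {a b : E n} (h1 : inner ℂ a b = 0) (h2 : ‖a‖ ^ 2 + ‖b‖ ^ 2 = 1)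
    (hb : b ≠ 0) {z : ℂ} (hz : ‖z‖ < 1) : a + z • b ∈ ball (0 : E n) 1 := by
  rw [mem_ball_zero_iff]
  have := norm_point h1 h2 z
  have hb' : 0 < ‖b‖ := norm_pos_iff.2 hb
  have h3 : 0 < (1 - ‖z‖ ^ 2) * ‖b‖ ^ 2 := by
    refine mul_pos ?_ (by positivity)
    nlinarith [norm_nonneg z]
  nlinarith [norm_nonneg (a + z • b)]

theorem ctr_circle_norm {m : ℕ} {τ z : ℂ} (hτ : ‖τ‖ = 1) (hz : z ∈ closedBall (ctr m τ) (Rm m / 4)) :
    ‖z‖ < 1 := by
  have h1 : ‖z - ctr m τ‖ ≤ Rm m / 4 := by simpa [dist_eq_norm] using hz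
  have h2 : ‖ctr m τ‖ = 1 - Rm m / 2 := by
    unfold ctr
    rw [norm_mul, hτ, mul_one, Complex.norm_real, Real.norm_of_nonneg]
    have := Rm_le m
    linarith
  have h3 : ‖z‖ ≤ ‖z - ctr m τ‖ + ‖ctr m τ‖ := by
    have := norm_add_le (z - ctr m τ) (ctr m τ)
    simpa using this
  have := Rm_pos m
  linarith

/-- the coefficient functional -/
noncomputable def coef (n m : ℕ) (k : ℕ) (q : Y × PS n m) : ContinuousMultilinearMap ℂ (fun _ : Fin k => ℂ) ℂ :=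
  cauchyPowerSeries (fun z => F n q.1 ((q.2 : E n × E n × ℂ).1 + z • (q.2 : E n × E n × ℂ).2.1))
    (ctr m (q.2 : E n × E n × ℂ).2.2) (Rm m / 4) k

theorem coef_continuous (n m k : ℕ) : Continuous fun q : Y × PS n m => ‖coef n m k q‖ := by
  have h0 : ∀ q : Y × PS n m, ‖coef n m k q‖ = ‖(2 * Real.pi * Complex.I : ℂ)⁻¹ •
      ∮ z in C(ctr m (q.2 : E n × E n × ℂ).2.2, Rm m / 4),
        (z - ctr m (q.2 : E n × E n × ℂ).2.2)⁻¹ ^ k • (z - ctr m (q.2 : E n × E n × ℂ).2.2)⁻¹ •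
          F n q.1 ((q.2 : E n × E n × ℂ).1 + z • (q.2 : E n × E n × ℂ).2.1)‖ := by
    intro q
    unfold coef cauchyPowerSeries
    rw [ContinuousMultilinearMap.norm_mkPiRing]
  simp_rw [h0]
  refine Continuous.norm ?_
  refine Continuous.const_smul ?_ ((2 * Real.pi * Complex.I : ℂ)⁻¹)
  unfold circleIntegral
  refine intervalIntegral.continuous_parametric_intervalIntegral_of_continuous' ?_ _ _
  simp only [Function.uncurry_def, deriv_circleMap]
  have hR : (Rm m / 4 : ℝ) ≠ 0 := by have := Rm_pos m; positivity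
  have hc : ∀ (x : ℂ) (θ : ℝ), circleMap x (Rm m / 4) θ - x = circleMap 0 (Rm m / 4) θ := by
    intro x θ
    simp [circleMap]
  simp only [hc]
  have hne : ∀ θ : ℝ, circleMap 0 (Rm m / 4) θ ≠ 0 := fun θ => by
    simpa using circleMap_ne_center hR (c := 0) (θ := θ)
  have c1 : Continuous fun x : (Y × PS n m) × ℝ => circleMap 0 (Rm m / 4) x.2 :=
    (continuous_circleMap 0 _).comp continuous_snd
  have c2 : Continuous fun x : (Y × PS n m) × ℝ => (circleMap 0 (Rm m / 4) x.2)⁻¹ :=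
    c1.inv₀ (fun x => hne x.2)
  have c3 : Continuous fun x : (Y × PS n m) × ℝ => F n x.1.1 ((x.1.2 : E n × E n × ℂ).1 +
      circleMap (ctr m (x.1.2 : E n × E n × ℂ).2.2) (Rm m / 4) x.2 • (x.1.2 : E n × E n × ℂ).2.1) := by
    have hp : Continuous fun x : (Y × PS n m) × ℝ => (x.1.2 : E n × E n × ℂ) :=
      continuous_subtype_val.comp (continuous_snd.comp continuous_fst)
    have c4 : Continuous fun x : (Y × PS n m) × ℝ => (x.1.1, (x.1.2 : E n × E n × ℂ).1 +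
      circleMap (ctr m (x.1.2 : E n × E n × ℂ).2.2) (Rm m / 4) x.2 • (x.1.2 : E n × E n × ℂ).2.1) := by
      refine Continuous.prodMk (continuous_fst.comp continuous_fst) ?_
      refine Continuous.add (continuous_fst.comp hp) ?_
      have c5 : Continuous fun x : (Y × PS n m) × ℝ =>
          circleMap (ctr m (x.1.2 : E n × E n × ℂ).2.2) (Rm m / 4) x.2 := by
        unfold circleMap ctr
        refine Continuous.add ?_ (by fun_prop)
        exact continuous_const.mul (continuous_snd.comp (continuous_snd.comp hp))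
      exact c5.smul (continuous_fst.comp (continuous_snd.comp hp))
    refine F_continuousOn.comp_continuous c4 ?_
    rintro ⟨⟨y, ⟨p, hp1, hp2, hp3, hp4⟩⟩, θ⟩
    refine ⟨mem_univ _, ?_⟩
    refine norm_point_le hp1 hp2 ?_
    have := Rm_pos m
    exact (ctr_circle_norm (m := m) hp3 (circleMap_mem_closedBall _ (by positivity) θ)).le
  refine Continuous.smul (c1.mul continuous_const) ?_
  exact (c2.pow k).smul (c2.smul c3)

/-- the good set -/
def G (n m : ℕ) : Set Y :=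
  {y | ∀ p : PS n m, ∃ k : ℕ, (m : ℝ) * (Rm m)⁻¹ ^ k < ‖coef n m k (y, p)‖}

theorem G_open (n m : ℕ) : IsOpen (G n m) := by
  have : CompactSpace (PS n m) := isCompact_iff_compactSpace.1 (PS_compact n m)
  have hV : IsOpen {q : Y × PS n m | ∃ k : ℕ, (m : ℝ) * (Rm m)⁻¹ ^ k < ‖coef n m k q‖} := by
    rw [ofPred_exists]
    exact isOpen_iUnion fun k => isOpen_lt continuous_const (coef_continuous n m k)
  have h1 : (G n m)ᶜ = Prod.fst '' {q : Y × PS n m | ∃ k : ℕ, (m : ℝ) * (Rm m)⁻¹ ^ k < ‖coef n m k q‖}ᶜ := by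
    ext y
    simp only [G, mem_compl_iff, mem_ofPred_eq, not_forall, mem_image, Prod.exists,
      exists_and_right, exists_eq_right]
  rw [← isClosed_compl_iff, h1]
  exact isClosedMap_fst_of_compactSpace _ hV.isClosed_compl

/-- covering by poles -/
theorem exists_pole (m : ℕ) (p : PS n m) : ∃ i : ℕ,
    ‖(1 - inner ℂ (xi n i) (p : E n × E n × ℂ).1) - ctr m (p : E n × E n × ℂ).2.2 *
      inner ℂ (xi n i) (p : E n × E n × ℂ).2.1‖ < Rm m * ‖inner ℂ (xi n i) (p : E n × E n × ℂ).2.1‖ := by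
  obtain ⟨⟨a, b, τ⟩, h1, h2, h3, h4⟩ := p
  simp only at h1 h2 h3 h4 ⊢
  have hR := Rm_pos m
  have hb : 0 < ‖b‖ := lt_of_lt_of_le (by positivity) h4
  have hopen : IsOpen {ξ : E n | ‖(1 - inner ℂ ξ a) - ctr m τ * inner ℂ ξ b‖ < Rm m * ‖inner ℂ ξ b‖} := by
    refine isOpen_lt ?_ ?_ <;> fun_prop
  suffices hne : ({ξ : E n | ‖(1 - inner ℂ ξ a) - ctr m τ * inner ℂ ξ b‖ < Rm m * ‖inner ℂ ξ b‖} ∩
      ball (0 : E n) 1).Nonempty by
    obtain ⟨i, hi⟩ := xi_dense _ hopen hne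
    exact ⟨i, hi⟩
  set s : ℝ := Rm m / 4 with hs
  set D : ℝ := 1 + s * ‖b‖ ^ 2 with hD
  have hDpos : 1 < D := by rw [hD]; have : 0 < s * ‖b‖^2 := by positivity
                           linarith
  refine ⟨((D⁻¹ : ℝ) : ℂ) • (a + τ • b), ?_, ?_⟩
  · have hba : inner ℂ b a = 0 := by
      rw [← inner_conj_symm, h1, map_zero]
    have e1 : inner ℂ (((D⁻¹ : ℝ) : ℂ) • (a + τ • b)) a = ((D⁻¹ * ‖a‖ ^ 2 : ℝ) : ℂ) := by
      rw [inner_smul_left, inner_add_left, inner_smul_left, hba, inner_self_eq_norm_sq_to_K]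
      simp
    have e2 : inner ℂ (((D⁻¹ : ℝ) : ℂ) • (a + τ • b)) b = ((D⁻¹ * ‖b‖ ^ 2 : ℝ) : ℂ) * (starRingEnd ℂ) τ := by
      rw [inner_smul_left, inner_add_left, inner_smul_left, h1, inner_self_eq_norm_sq_to_K]
      simp
      ring
    rw [mem_ofPred_eq, e1, e2]
    have hττ : τ * (starRingEnd ℂ) τ = 1 := by
      rw [Complex.mul_conj, Complex.normSq_eq_norm_sq, h3]; simp
    have e3 : (1 - ((D⁻¹ * ‖a‖ ^ 2 : ℝ) : ℂ)) - ctr m τ * (((D⁻¹ * ‖b‖ ^ 2 : ℝ) : ℂ) * (starRingEnd ℂ) τ)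
        = ((3 / 4 * Rm m * (D⁻¹ * ‖b‖ ^ 2) : ℝ) : ℂ) := by
      unfold ctr
      have : ((1 - Rm m / 2 : ℝ) : ℂ) * τ * (((D⁻¹ * ‖b‖ ^ 2 : ℝ) : ℂ) * (starRingEnd ℂ) τ)
          = ((1 - Rm m / 2 : ℝ) : ℂ) * ((D⁻¹ * ‖b‖ ^ 2 : ℝ) : ℂ) * (τ * (starRingEnd ℂ) τ) := by ring
      rw [this, hττ, mul_one]
      norm_cast
      have ha : ‖a‖ ^ 2 = 1 - ‖b‖ ^ 2 := by linarith
      rw [ha]
      have hD0 : D ≠ 0 := by positivity
      field_simp
      rw [hD, hs]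
      ring
    have e4 : ‖((D⁻¹ * ‖b‖ ^ 2 : ℝ) : ℂ) * (starRingEnd ℂ) τ‖ = D⁻¹ * ‖b‖ ^ 2 := by
      rw [norm_mul, Complex.norm_real, RCLike.norm_conj, h3, mul_one,
        Real.norm_of_nonneg (by positivity)]
    rw [e3, e4, Complex.norm_real, Real.norm_of_nonneg (by positivity)]
    have : 0 < Rm m * (D⁻¹ * ‖b‖ ^ 2) := by positivity
    linarith
  · rw [mem_ball_zero_iff, norm_smul, Complex.norm_real, Real.norm_of_nonneg (by positivity)]
    have h5 := norm_point h1 h2 τ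
    rw [h3] at h5
    have h6 : ‖a + τ • b‖ = 1 := by
      have : ‖a + τ • b‖ ^ 2 = 1 := by rw [h5]; ring
      nlinarith [norm_nonneg (a + τ • b)]
    rw [h6, mul_one]
    exact inv_lt_one_of_one_lt₀ hDpos

theorem exists_cover (n m : ℕ) : ∃ N : ℕ, ∀ p : PS n m, ∃ i < N,
    ‖(1 - inner ℂ (xi n i) (p : E n × E n × ℂ).1) - ctr m (p : E n × E n × ℂ).2.2 *
      inner ℂ (xi n i) (p : E n × E n × ℂ).2.1‖ < Rm m * ‖inner ℂ (xi n i) (p : E n × E n × ℂ).2.1‖ := by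
  have : CompactSpace (PS n m) := isCompact_iff_compactSpace.1 (PS_compact n m)
  have hcov := (isCompact_univ (X := PS n m)).elim_finite_subcover
    (fun i : ℕ => {p : PS n m | ‖(1 - inner ℂ (xi n i) (p : E n × E n × ℂ).1) - ctr m (p : E n × E n × ℂ).2.2 *
      inner ℂ (xi n i) (p : E n × E n × ℂ).2.1‖ < Rm m * ‖inner ℂ (xi n i) (p : E n × E n × ℂ).2.1‖})
    (fun i => by
      unfold ctr
      refine isOpen_lt ?_ ?_ <;> fun_prop)
    (fun p _ => mem_iUnion.2 (exists_pole m p))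
  obtain ⟨T, hT⟩ := hcov
  refine ⟨T.sup id + 1, fun p => ?_⟩
  have := hT (mem_univ p)
  rw [mem_iUnion₂] at this
  obtain ⟨i, hiT, hi⟩ := this
  exact ⟨i, Nat.lt_succ_of_le (Finset.le_sup (f := id) hiT), hi⟩

end Pool.Agent.Q172.NatBd
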