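import Mathlib
import Pool.Agent.Q172.NatBdD

open Set Metric Filter Topology
open scoped Topology NNReal ContDiff

namespace Pool.Agent.Q172.NatBd

variable {n : ℕ}

/-- truncated perturbation of a parameter -/
noncomputable def trunc (y : Y) (k : ℕ) : Y := fun i =>
  if i < k then (if (y i : ℂ) = 0 then ⟨((1 / ((k : ℝ) + 1) : ℝ) : ℂ), by
    rw [mem_closedBall_zero_iff, Complex.norm_real, Real.norm_of_nonneg (by positivity),
      div_le_one (by positivity)]
    have : (0:ℝ) ≤ k := Nat.cast_nonneg k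
    linarith⟩ else y i) else ⟨0, by simp⟩

theorem trunc_ne (y : Y) (k i : ℕ) (h : i < k) : (trunc y k i : ℂ) ≠ 0 := by
  unfold trunc
  rw [if_pos h]
  split_ifs with h0
  · simp only [ne_eq, Complex.ofReal_eq_zero]
    positivity
  · exact h0

theorem trunc_zero (y : Y) (k i : ℕ) (h : ¬ i < k) : (trunc y k i : ℂ) = 0 := by
  unfold trunc
  rw [if_neg h]

theorem trunc_tendsto (y : Y) : Tendsto (fun k => trunc y k) atTop (𝓝 y) := by
  rw [tendsto_pi_nhds]
  intro i
  rw [tendsto_subtype_rng]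
  by_cases h0 : (y i : ℂ) = 0
  · rw [h0]
    have h1 : Tendsto (fun k : ℕ => ((1 / ((k : ℝ) + 1) : ℝ) : ℂ)) atTop (𝓝 0) := by
      have := (tendsto_one_div_add_atTop_nhds_zero_nat (𝕜 := ℝ))
      have h2 := (Complex.continuous_ofReal.tendsto 0).comp this
      simpa [Function.comp_def] using h2
    refine h1.congr' ?_
    filter_upwards [eventually_gt_atTop i] with k hk
    unfold trunc
    rw [if_pos hk, if_pos h0]
  · refine tendsto_const_nhds.congr' ?_
    filter_upwards [eventually_gt_atTop i] with k hk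
    unfold trunc
    rw [if_pos hk, if_neg h0]

theorem F_trunc (y : Y) (k : ℕ) (z : E n) :
    F n (trunc y k) z = ∑ i ∈ Finset.range k, cf n (trunc y k) i * t n i z := by
  unfold F
  refine tsum_eq_sum fun i hi => ?_
  have : ¬ i < k := by simpa using hi
  unfold cf
  rw [trunc_zero y k i this]
  simp

theorem trunc_mem_G (n m : ℕ) : ∃ N : ℕ, ∀ (y : Y) (k : ℕ), N ≤ k → trunc y k ∈ G n m := by
  obtain ⟨N, hN⟩ := exists_cover n m
  refine ⟨N, fun y k hk p => ?_⟩
  by_contra hcon
  push Not at hcon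
  obtain ⟨i₀, hi₀, hpole⟩ := hN p
  have hR := Rm_pos m
  obtain ⟨⟨a, b, τ⟩, h1, h2, h3, h4⟩ := p
  simp only at h1 h2 h3 h4 hpole
  have hcf : ∀ i < k, cf n (trunc y k) i ≠ 0 := by
    intro i hi
    unfold cf
    refine mul_ne_zero ?_ (trunc_ne y k i hi)
    have := w_pos n i
    simp only [ne_eq, Complex.ofReal_eq_zero]
    positivity
  have ha : ‖a‖ ≤ 1 := by nlinarith [norm_nonneg a, sq_nonneg ‖b‖]
  have hA : ∀ i, (1 - inner ℂ (xi n i) a : ℂ) ≠ 0 := fun i =>
    one_sub_ne i (mem_closedBall_zero_iff.2 ha)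
  have hreg : ∀ z ∈ closedBall (ctr m τ) (Rm m / 4), ∀ i < k,
      (1 - inner ℂ (xi n i) a : ℂ) - z * inner ℂ (xi n i) b ≠ 0 := by
    intro z hz i _
    have h5 := one_sub_ne (n := n) i (norm_point_le h1 h2 (ctr_circle_norm h3 hz).le)
    rw [inner_add_right, inner_smul_right] at h5
    intro h6
    apply h5
    rw [← h6]; ring
  have hB : inner ℂ (xi n i₀) b ≠ 0 := by
    intro h
    rw [h, norm_zero, mul_zero (Rm m)] at hpole
    exact absurd hpole (not_lt.2 (norm_nonneg _))
  refine rational_not_extend k (fun i => cf n (trunc y k) i) (fun i => 1 - inner ℂ (xi n i) a)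
    (fun i => inner ℂ (xi n i) b) hcf hA (c := ctr m τ) (ρ := Rm m / 4) (R := Rm m) (M := m)
    (by positivity) (by linarith) hreg ?_ i₀ (by omega)
    ((1 - inner ℂ (xi n i₀) a) / inner ℂ (xi n i₀) b) ?_ ?_
  · intro j
    have h7 := hcon j
    have h8 : coef n m j (trunc y k, ⟨(a, b, τ), h1, h2, h3, h4⟩) = cauchyPowerSeries
      (fun z => ∑ i ∈ Finset.range k, cf n (trunc y k) i *
        (((1 - inner ℂ (xi n i) a) - z * inner ℂ (xi n i) b) ^ (i+1))⁻¹) (ctr m τ) (Rm m / 4) j := by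
      unfold coef
      simp only
      congr 1
      funext z
      rw [F_trunc]
      refine Finset.sum_congr rfl fun i _ => ?_
      unfold t
      rw [inner_add_right, inner_smul_right, sub_sub]
    rw [h8] at h7
    exact h7
  · rw [mem_ball, dist_eq_norm]
    have h9 : (1 - inner ℂ (xi n i₀) a) / inner ℂ (xi n i₀) b - ctr m τ =
        ((1 - inner ℂ (xi n i₀) a) - ctr m τ * inner ℂ (xi n i₀) b) / inner ℂ (xi n i₀) b := by
      field_simp
    rw [h9, norm_div, div_lt_iff₀ (norm_pos_iff.2 hB)]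
    exact hpole
  · field_simp
    ring

theorem G_dense (n m : ℕ) : Dense (G n m) := by
  intro y
  obtain ⟨N, hN⟩ := trunc_mem_G n m
  refine mem_closure_of_tendsto (trunc_tendsto y) ?_
  filter_upwards [eventually_ge_atTop N] with k hk using hN y k hk

theorem exists_good (n : ℕ) : ∃ y : Y, ∀ m, y ∈ G n m := by
  have h := dense_iInter_of_isOpen_nat (fun m => G_open n m) (fun m => G_dense n m)
  obtain ⟨y, hy⟩ := h.nonempty
  exact ⟨y, fun m => mem_iInter.1 hy m⟩

theorem affine_disc {a b : E n} (h : ∀ z : ℂ, ‖z‖ = 1 → ‖a + z • b‖ = 1) :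
    inner ℂ a b = 0 ∧ ‖a‖ ^ 2 + ‖b‖ ^ 2 = 1 := by
  have key : ∀ z : ℂ, ‖z‖ = 1 → ‖a‖ ^ 2 + 2 * (z * inner ℂ a b).re + ‖b‖ ^ 2 = 1 := by
    intro z hz
    have h1 := @norm_add_sq ℂ _ _ _ _ a (z • b)
    rw [h z hz, inner_smul_right, norm_smul, hz, one_mul] at h1
    simpa using h1.symm
  have k1 := key 1 (by simp)
  have k2 := key (-1) (by simp)
  have k3 := key Complex.I (by simp)
  have k4 := key (-Complex.I) (by simp)
  simp only [one_mul, neg_mul, Complex.neg_re, Complex.mul_re, Complex.I_re, Complex.I_im,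
    zero_mul, zero_sub] at k1 k2 k3 k4
  refine ⟨Complex.ext ?_ ?_, ?_⟩
  · simp only [Complex.zero_re]; linarith
  · simp only [Complex.zero_im]; linarith
  · linarith

end Pool.Agent.Q172.NatBd

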