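import Mathlib

open Set Metric Filter Topology
open scoped Topology

namespace Pool.Agent.Q172.NowhereDiff

/-- the coordinate used at stage `k` -/
def idx {d : ℕ} (hd : 0 < d) (k : ℕ) : Fin d := ⟨k % d, Nat.mod_lt k hd⟩

/-- the function -/
noncomputable def W {d : ℕ} (hd : 0 < d) (x : EuclideanSpace ℝ (Fin d)) : ℝ :=
  ∑' k : ℕ, (1/16 : ℝ) ^ k * Real.cos (1024 ^ k * x (idx hd k))

theorem term_bound {d : ℕ} (hd : 0 < d) (x : EuclideanSpace ℝ (Fin d)) (k : ℕ) :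
    ‖(1/16 : ℝ) ^ k * Real.cos (1024 ^ k * x (idx hd k))‖ ≤ (1/16 : ℝ) ^ k := by
  rw [norm_mul, norm_pow, Real.norm_of_nonneg (by norm_num : (0:ℝ) ≤ 1/16)]
  have := Real.abs_cos_le_one (1024 ^ k * x (idx hd k))
  rw [← Real.norm_eq_abs] at this
  have h : (0:ℝ) < (1/16)^k := by positivity
  nlinarith

theorem summable_geo : Summable fun k : ℕ => (1/16 : ℝ) ^ k :=
  summable_geometric_of_lt_one (by norm_num) (by norm_num)

theorem W_continuous {d : ℕ} (hd : 0 < d) : Continuous (W hd) := by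
  unfold W
  refine continuous_tsum (u := fun k => (1/16 : ℝ) ^ k) (fun k => ?_) summable_geo
    (fun k x => term_bound hd x k)
  fun_prop

theorem W_summable {d : ℕ} (hd : 0 < d) (x : EuclideanSpace ℝ (Fin d)) :
    Summable fun k : ℕ => (1/16 : ℝ) ^ k * Real.cos (1024 ^ k * x (idx hd k)) :=
  Summable.of_norm_bounded summable_geo (fun k => term_bound hd x k)

/-- lower bound for the difference -/
theorem W_diff {d : ℕ} (hd : 0 < d) (x y : EuclideanSpace ℝ (Fin d)) (k : ℕ) (L : ℝ)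
    (hL : ∀ i, |x i - y i| ≤ L) (hL2 : L ≤ 3 * Real.pi / 1024 ^ k)
    (hk : 1/2 ≤ |Real.cos (1024 ^ k * x (idx hd k)) - Real.cos (1024 ^ k * y (idx hd k))|) :
    (1/16 : ℝ) ^ k / 5 ≤ |W hd x - W hd y| := by
  have hsx := W_summable hd x
  have hsy := W_summable hd y
  set g : ℕ → ℝ := fun k => (1/16 : ℝ) ^ k * Real.cos (1024 ^ k * x (idx hd k)) -
    (1/16 : ℝ) ^ k * Real.cos (1024 ^ k * y (idx hd k)) with hg
  have hsg : Summable g := hsx.sub hsy
  have e1 : W hd x - W hd y = ∑' k, g k := by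
    unfold W
    rw [← hsx.tsum_sub hsy]
  have e2 : ∑' k, g k = (∑ i ∈ Finset.range k, g i) + g k + ∑' i, g (i + (k+1)) := by
    rw [← hsg.sum_add_tsum_nat_add (k+1), Finset.sum_range_succ]
  -- tail
  have hgb : ∀ i, |g i| ≤ 2 * (1/16 : ℝ) ^ i := by
    intro i
    have h1 := term_bound hd x i
    have h2 := term_bound hd y i
    rw [Real.norm_eq_abs] at h1 h2
    calc |g i| ≤ _ := abs_sub _ _
      _ ≤ _ := by linarith
  have htail : |∑' i, g (i + (k+1))| ≤ (2/15) * (1/16 : ℝ) ^ k := by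
    have hs : Summable fun i : ℕ => 2 * (1/16 : ℝ) ^ (i + (k+1)) :=
      ((summable_nat_add_iff (k+1)).2 summable_geo).mul_left 2
    have h1 : ‖∑' i, g (i + (k+1))‖ ≤ ∑' i : ℕ, 2 * (1/16 : ℝ) ^ (i + (k+1)) :=
      tsum_of_norm_bounded hs.hasSum (fun i => by simpa using hgb (i + (k+1)))
    rw [Real.norm_eq_abs] at h1
    refine h1.trans (le_of_eq ?_)
    have h2 : (fun i : ℕ => 2 * (1/16 : ℝ) ^ (i + (k+1))) =
        fun i => (2 * (1/16 : ℝ) ^ (k+1)) * (1/16) ^ i := by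
      funext i; rw [pow_add]; ring
    rw [h2, tsum_mul_left, tsum_geometric_of_lt_one (by norm_num) (by norm_num), pow_succ]
    ring
  -- head
  have hhead : |∑ i ∈ Finset.range k, g i| ≤ (1/6) * (1/16 : ℝ) ^ k := by
    have hL0 : 0 ≤ L := (abs_nonneg _).trans (hL (idx hd k))
    have h1 : ∀ i ∈ Finset.range k, |g i| ≤ 64 ^ i * L := by
      intro i _
      have h2 : |Real.cos (1024 ^ i * x (idx hd i)) - Real.cos (1024 ^ i * y (idx hd i))| ≤
          |1024 ^ i * x (idx hd i) - 1024 ^ i * y (idx hd i)| := by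
        exact Real.abs_cos_sub_cos_le _ _
      have h3 : |1024 ^ i * x (idx hd i) - 1024 ^ i * y (idx hd i)| =
          1024 ^ i * |x (idx hd i) - y (idx hd i)| := by
        rw [← mul_sub, abs_mul, abs_of_pos (by positivity)]
      have h4 : g i = (1/16 : ℝ) ^ i * (Real.cos (1024 ^ i * x (idx hd i)) -
          Real.cos (1024 ^ i * y (idx hd i))) := by
        simp only [hg]; ring
      rw [h4, abs_mul, abs_of_pos (by positivity)]
      calc (1/16 : ℝ) ^ i * _ ≤ (1/16 : ℝ) ^ i * (1024 ^ i * L) := by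
            gcongr
            rw [h3] at h2
            exact h2.trans (by gcongr; exact hL _)
        _ = 64 ^ i * L := by
            rw [← mul_assoc, ← mul_pow]; norm_num
    calc |∑ i ∈ Finset.range k, g i| ≤ ∑ i ∈ Finset.range k, |g i| := Finset.abs_sum_le_sum_abs _ _
      _ ≤ ∑ i ∈ Finset.range k, 64 ^ i * L := Finset.sum_le_sum h1
      _ = (∑ i ∈ Finset.range k, (64:ℝ) ^ i) * L := by rw [Finset.sum_mul]
      _ = ((64:ℝ) ^ k - 1) / 63 * L := by
          rw [geom_sum_eq (by norm_num)]; norm_num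
      _ ≤ (64:ℝ) ^ k / 63 * (3 * Real.pi / 1024 ^ k) := by
          have h5 : (0:ℝ) < 64 ^ k := by positivity
          have h6 : ((64:ℝ) ^ k - 1) / 63 ≤ 64 ^ k / 63 := by gcongr; linarith
          exact mul_le_mul h6 hL2 hL0 (by positivity)
      _ = (3 * Real.pi / 63) * (1/16 : ℝ) ^ k := by
          have h7 : (1024 : ℝ) ^ k = 64 ^ k * 16 ^ k := by rw [← mul_pow]; norm_num
          rw [h7, one_div, inv_pow]
          field_simp
      _ ≤ (1/6) * (1/16 : ℝ) ^ k := by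
          have h8 : 3 * Real.pi / 63 ≤ 1/6 := by linarith [Real.pi_lt_d2]
          exact mul_le_mul_of_nonneg_right h8 (by positivity)
  have hmid : (1/2) * (1/16 : ℝ) ^ k ≤ |g k| := by
    have h4 : g k = (1/16 : ℝ) ^ k * (Real.cos (1024 ^ k * x (idx hd k)) -
          Real.cos (1024 ^ k * y (idx hd k))) := by
        simp only [hg]; ring
    rw [h4, abs_mul, abs_of_pos (by positivity), mul_comm]
    gcongr
  rw [e1, e2]
  have h8 : |g k| ≤ |(∑ i ∈ Finset.range k, g i) + g k + ∑' i, g (i + (k+1))| +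
      |∑ i ∈ Finset.range k, g i| + |∑' i, g (i + (k+1))| := by
    set A := ∑ i ∈ Finset.range k, g i
    set B := ∑' i, g (i + (k+1))
    have : g k = (A + g k + B) - A - B := by ring
    calc |g k| = |(A + g k + B) - A - B| := by rw [← this]
      _ ≤ |(A + g k + B) - A| + |B| := abs_sub _ _
      _ ≤ |A + g k + B| + |A| + |B| := by gcongr; exact abs_sub _ _
  have h9 : (0:ℝ) < (1/16) ^ k := by positivity
  linarith

theorem cos_osc (θ σ : ℝ) (hσ : σ = 1 ∨ σ = -1) :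
    1/2 ≤ |Real.cos (θ + σ * Real.pi) - Real.cos θ| ∨
    1/2 ≤ |Real.cos (θ + σ * (Real.pi / 2)) - Real.cos θ| := by
  by_contra h
  push Not at h
  obtain ⟨h1, h2⟩ := h
  have h3 := Real.sin_sq_add_cos_sq θ
  rcases hσ with rfl | rfl
  · rw [one_mul, Real.cos_add_pi] at h1
    rw [one_mul, Real.cos_add_pi_div_two] at h2
    rw [abs_lt] at h1 h2
    have a1 : |Real.cos θ| ≤ 1/4 := by rw [abs_le]; constructor <;> linarith [h1.1, h1.2]
    have a2 : |Real.sin θ| ≤ 3/4 := by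
      rw [abs_le] at a1 ⊢; constructor <;> linarith [h2.1, h2.2, a1.1, a1.2]
    nlinarith [sq_abs (Real.cos θ), sq_abs (Real.sin θ), abs_nonneg (Real.cos θ), abs_nonneg (Real.sin θ)]
  · rw [neg_one_mul, ← sub_eq_add_neg, Real.cos_sub_pi] at h1
    rw [neg_one_mul, ← sub_eq_add_neg, Real.cos_sub_pi_div_two] at h2
    rw [abs_lt] at h1 h2
    have a1 : |Real.cos θ| ≤ 1/4 := by rw [abs_le]; constructor <;> linarith [h1.1, h1.2]
    have a2 : |Real.sin θ| ≤ 3/4 := by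
      rw [abs_le] at a1 ⊢; constructor <;> linarith [h2.1, h2.2, a1.1, a1.2]
    nlinarith [sq_abs (Real.cos θ), sq_abs (Real.sin θ), abs_nonneg (Real.cos θ), abs_nonneg (Real.sin θ)]

/-- the one-sided statement -/
theorem one_sided {d : ℕ} (hd : 0 < d) (γ : ℝ → EuclideanSpace ℝ (Fin d)) (η : ℝ) (hη : 0 < η)
    (hc : ContinuousOn γ (Icc 0 η)) (v : EuclideanSpace ℝ (Fin d)) (hv : v ≠ 0)
    (hd1 : HasDerivWithinAt γ v (Icc 0 η) 0) :
    ¬ DifferentiableWithinAt ℝ (fun s => W hd (γ s)) (Icc 0 η) 0 := by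
  intro hdiff
  -- the maximal coordinate
  have : Nonempty (Fin d) := ⟨⟨0, hd⟩⟩
  obtain ⟨j, hj⟩ := Finite.exists_max (fun i => |v i|)
  have hvj : 0 < |v j| := by
    rw [abs_pos]
    intro h0
    apply hv
    ext i
    have := hj i
    rw [h0, abs_zero] at this
    exact abs_nonpos_iff.1 this
  -- derivative bound for f∘γ
  obtain ⟨D, hD⟩ := hdiff
  have hO : ∃ M > 0, ∃ ε₁ > 0, ∀ s ∈ Icc 0 η, s < ε₁ → |W hd (γ s) - W hd (γ 0)| ≤ M * s := by
    have h1 := (hD.isBigO_sub)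
    rw [Asymptotics.isBigO_iff'] at h1
    obtain ⟨M, hM, hM2⟩ := h1
    rw [eventually_nhdsWithin_iff, Metric.eventually_nhds_iff] at hM2
    obtain ⟨ε₁, hε₁, h2⟩ := hM2
    refine ⟨M, hM, ε₁, hε₁, fun s hs hsε => ?_⟩
    have := h2 (y := s) (by simpa [abs_of_nonneg hs.1] using hsε) hs
    simpa [Real.norm_eq_abs, abs_of_nonneg hs.1] using this
  obtain ⟨M, hM, ε₁, hε₁, hbound⟩ := hO
  -- derivative of the coordinates
  have hO2 : ∃ ε₂ > 0, ∀ s ∈ Icc 0 η, s < ε₂ → ∀ i, |γ s i - γ 0 i - s * v i| ≤ |v j| / 2 * s := by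
    have h1 := hd1.isLittleO
    rw [Asymptotics.isLittleO_iff] at h1
    have h2 := h1 (c := |v j| / 2) (by positivity)
    rw [eventually_nhdsWithin_iff, Metric.eventually_nhds_iff] at h2
    obtain ⟨ε₂, hε₂, h3⟩ := h2
    refine ⟨ε₂, hε₂, fun s hs hsε i => ?_⟩
    have h4 := h3 (y := s) (by simpa [abs_of_nonneg hs.1] using hsε) hs
    have h5 : ‖(γ s - γ 0 - (s - 0) • v) i‖ ≤ ‖γ s - γ 0 - (s - 0) • v‖ := PiLp.norm_apply_le _ i
    have h6 : (γ s - γ 0 - (s - 0) • v) i = γ s i - γ 0 i - s * v i := by simp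
    rw [h6, Real.norm_eq_abs] at h5
    refine h5.trans (h4.trans ?_)
    simp [Real.norm_eq_abs, abs_of_nonneg hs.1]
  obtain ⟨ε₂, hε₂, hcoord⟩ := hO2
  -- choice of the stage
  have hlim : Tendsto (fun n : ℕ => (64 : ℝ) ^ n) atTop atTop :=
    tendsto_pow_atTop_atTop_of_one_lt (by norm_num)
  have hlim2 : Tendsto (fun n : ℕ => (1024 : ℝ) ^ n) atTop atTop :=
    tendsto_pow_atTop_atTop_of_one_lt (by norm_num)
  have hev1 := hlim.eventually_gt_atTop (5 * M * (2 * Real.pi / |v j|))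
  have hev2 := hlim2.eventually_gt_atTop ((2 * Real.pi / |v j|) / min η (min ε₁ ε₂))
  obtain ⟨N, hN⟩ := eventually_atTop.1 (hev1.and hev2)
  set k : ℕ := N * d + j with hk
  have hkN : N ≤ k := by
    rw [hk]; nlinarith
  obtain ⟨hk1, hk2⟩ := hN k hkN
  have hidx : idx hd k = j := by
    unfold idx
    apply Fin.ext
    simp only [hk]
    rw [Nat.add_comm, Nat.add_mul_mod_self_right, Nat.mod_eq_of_lt j.2]
  set P : ℝ := 1024 ^ k with hP
  have hPpos : 0 < P := by rw [hP]; positivity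
  set ℓ : ℝ := 2 * Real.pi / |v j| / P with hℓ
  have hℓpos : 0 < ℓ := by have := Real.pi_pos; rw [hℓ]; positivity
  have hmin : 0 < min η (min ε₁ ε₂) := by positivity
  have hℓmin : ℓ < min η (min ε₁ ε₂) := by
    rw [div_lt_iff₀ hmin] at hk2
    rw [hℓ, div_lt_iff₀ hPpos]
    linarith
  have hℓη : ℓ < η := hℓmin.trans_le (min_le_left _ _)
  have hℓ1 : ℓ < ε₁ := hℓmin.trans_le ((min_le_right _ _).trans (min_le_left _ _))
  have hℓ2 : ℓ < ε₂ := hℓmin.trans_le ((min_le_right _ _).trans (min_le_right _ _))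
  have hℓv : |v j| * ℓ * P = 2 * Real.pi := by
    rw [hℓ]; field_simp
  obtain ⟨σ, hσ, hσv⟩ : ∃ σ : ℝ, (σ = 1 ∨ σ = -1) ∧ σ * v j = |v j| := by
    rcases le_total 0 (v j) with h | h
    · exact ⟨1, Or.inl rfl, by rw [abs_of_nonneg h, one_mul]⟩
    · exact ⟨-1, Or.inr rfl, by rw [abs_of_nonpos h, neg_one_mul]⟩
  have hσ1 : |σ| = 1 := by rcases hσ with rfl | rfl <;> simp
  have hσ2 : σ * σ = 1 := by rcases hσ with rfl | rfl <;> norm_num
  set h : ℝ → ℝ := fun s => σ * (γ s j - γ 0 j) * P with hh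
  have hcont : ContinuousOn h (Icc 0 ℓ) := by
    have h1 : ContinuousOn γ (Icc 0 ℓ) := hc.mono (Icc_subset_Icc le_rfl hℓη.le)
    have h2 : ContinuousOn (fun s => γ s j) (Icc 0 ℓ) := by fun_prop
    simp only [hh]
    fun_prop
  have hh0 : h 0 = 0 := by simp [hh]
  have hhℓ : Real.pi ≤ h ℓ := by
    have h1 := hcoord ℓ ⟨hℓpos.le, hℓη.le⟩ hℓ2 j
    have h2 : |σ * (γ ℓ j - γ 0 j - ℓ * v j)| ≤ |v j| / 2 * ℓ := by
      rw [abs_mul, hσ1, one_mul]; exact h1
    have h3 := (abs_le.1 h2).1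
    have h4 : σ * (γ ℓ j - γ 0 j) ≥ |v j| * ℓ / 2 := by
      have : σ * (γ ℓ j - γ 0 j - ℓ * v j) = σ * (γ ℓ j - γ 0 j) - ℓ * (σ * v j) := by ring
      rw [this, hσv] at h3
      linarith
    have h5 : |v j| * ℓ / 2 * P = Real.pi := by linarith
    calc Real.pi = |v j| * ℓ / 2 * P := h5.symm
      _ ≤ σ * (γ ℓ j - γ 0 j) * P := by gcongr
  have hivt : ∀ θ ∈ Icc (0:ℝ) Real.pi, ∃ s ∈ Icc 0 ℓ, P * γ s j = P * γ 0 j + σ * θ := by
    intro θ hθ
    have := intermediate_value_Icc hℓpos.le hcont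
    rw [hh0] at this
    obtain ⟨s, hs, hs2⟩ := this ⟨hθ.1, hθ.2.trans hhℓ⟩
    refine ⟨s, hs, ?_⟩
    simp only [hh] at hs2
    have : σ * θ = (σ * σ) * (γ s j - γ 0 j) * P := by rw [← hs2]; ring
    rw [this, hσ2]; ring
  have hfin : ∃ s ∈ Icc 0 ℓ, 1/2 ≤ |Real.cos (P * γ s j) - Real.cos (P * γ 0 j)| := by
    rcases cos_osc (P * γ 0 j) σ hσ with h1 | h1
    · obtain ⟨s, hs, hs2⟩ := hivt Real.pi ⟨Real.pi_pos.le, le_rfl⟩
      exact ⟨s, hs, by rw [hs2]; exact h1⟩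
    · obtain ⟨s, hs, hs2⟩ := hivt (Real.pi / 2) ⟨by positivity, by linarith [Real.pi_pos]⟩
      exact ⟨s, hs, by rw [hs2]; exact h1⟩
  obtain ⟨s, hs, hs2⟩ := hfin
  have hsη : s ∈ Icc 0 η := ⟨hs.1, hs.2.trans hℓη.le⟩
  have hL : ∀ i, |γ s i - γ 0 i| ≤ 3 * Real.pi / 1024 ^ k := by
    intro i
    have h1 := hcoord s hsη (hs.2.trans_lt hℓ2) i
    have h2 : |γ s i - γ 0 i| ≤ |γ s i - γ 0 i - s * v i| + |s * v i| := by
      have : γ s i - γ 0 i = (γ s i - γ 0 i - s * v i) + s * v i := by ring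
      calc |γ s i - γ 0 i| = |(γ s i - γ 0 i - s * v i) + s * v i| := by rw [← this]
        _ ≤ _ := abs_add_le _ _
    have h3 : |s * v i| ≤ |v j| * s := by
      rw [abs_mul, abs_of_nonneg hs.1, mul_comm]
      exact mul_le_mul_of_nonneg_right (hj i) hs.1
    have h4 : |v j| * s ≤ |v j| * ℓ := by gcongr; exact hs.2
    have h5 : |v j| * ℓ = 2 * Real.pi / P := by
      rw [eq_div_iff hPpos.ne']; exact hℓv
    have h6 : 3 * Real.pi / P = 3/2 * (2 * Real.pi / P) := by ring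
    rw [← hP, h6, ← h5]
    linarith
  have h1 := W_diff hd (γ s) (γ 0) k _ hL le_rfl (by rw [hidx]; exact hs2)
  have h2 := hbound s hsη (hs.2.trans_lt hℓ1)
  have h3 : M * s ≤ M * ℓ := by gcongr; exact hs.2
  have h4 : (1/16 : ℝ) ^ k / 5 ≤ M * ℓ := h1.trans (h2.trans h3)
  have h5 : (1/16 : ℝ) ^ k * P = 64 ^ k := by
    rw [hP, ← mul_pow]; norm_num
  have h6 : (1/16 : ℝ) ^ k / 5 * P ≤ M * ℓ * P := by gcongr
  have h7 : M * ℓ * P = M * (2 * Real.pi / |v j|) := by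
    rw [hℓ]; field_simp
  rw [h7] at h6
  have h8 : (64 : ℝ) ^ k / 5 ≤ M * (2 * Real.pi / |v j|) := by
    rw [← h5]; linarith
  linarith

end Pool.Agent.Q172.NowhereDiff
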